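import Mathlib

set_option autoImplicit false

namespace Pool.Agent.H67R3.Cond

open LaurentPolynomial

/-- Laurent polynomials over the field with two elements -/
abbrev L := LaurentPolynomial (ZMod 2)

lemma L_add_self (a : L) : a + a = 0 := by
  apply LaurentPolynomial.ext
  intro n
  have h : ∀ z : ZMod 2, z + z = 0 := by decide
  show (a.coeff + a.coeff) n = 0
  rw [Finsupp.add_apply]
  exact h _

lemma L_neg (a : L) : -a = a := neg_eq_of_add_eq_zero_left (L_add_self a)

/-- additive induction principle -/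
lemma L_ind {M : L → Prop} (p : L) (h0 : M 0) (hT : ∀ n, M (T n))
    (hadd : ∀ p q, M p → M q → M (p + q)) : M p := by
  refine LaurentPolynomial.induction_on' p hadd ?_
  intro n a
  have h : a = 0 ∨ a = 1 := by revert a; decide
  rcases h with h | h
  · rw [h]; simpa using h0
  · rw [h]; simpa using hT n

/-- the pairing -/
noncomputable def ph (a b : L) : L := invert a * b

lemma ph_add_left (a a' b : L) : ph (a + a') b = ph a b + ph a' b := by
  simp [ph, add_mul]
lemma ph_add_right (a b b' : L) : ph a (b + b') = ph a b + ph a b' := by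
  simp [ph, mul_add]
@[simp] lemma ph_zero_left (b : L) : ph 0 b = 0 := by simp [ph]
@[simp] lemma ph_zero_right (a : L) : ph a 0 = 0 := by simp [ph]
lemma ph_neg_left (a b : L) : ph (-a) b = -ph a b := by simp [ph]
lemma ph_neg_right (a b : L) : ph a (-b) = -ph a b := by simp [ph]

lemma T_mul_T (m n : ℤ) : (T m : L) * T n = T (m + n) := (T_add m n).symm

lemma T_mul_T_neg (m : ℤ) (a : L) : (T m : L) * (T (-m) * a) = a := by
  rw [← mul_assoc, T_mul_T]; simp
lemma T_neg_mul_T (m : ℤ) (a : L) : (T (-m) : L) * (T m * a) = a := by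
  rw [← mul_assoc, T_mul_T]; simp
lemma T_mul_assoc' (m n : ℤ) (a : L) : (T m : L) * (T n * a) = T (m + n) * a := by
  rw [← mul_assoc, T_mul_T]

lemma ph_T (k : ℤ) (a b : L) : ph (T k * a) (T k * b) = ph a b := by
  unfold ph
  rw [map_mul, invert_T]
  calc T (-k) * invert a * (T k * b) = invert a * (T (-k) * (T k * b)) := by ring
    _ = _ := by rw [T_neg_mul_T]

lemma ph_TT (i j : ℤ) : ph (T i) (T j) = T (j - i) := by
  unfold ph
  rw [invert_T, T_mul_T]
  congr 1; ring

lemma ph_mul_right (a b : L) (u : ℤ) : ph a (T u * b) = T u * ph a b := by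
  unfold ph; ring

/-- the universal group: lamps `a, b`, centre `c`, and the cursor `k` -/
@[ext]
structure A where
  a : L
  b : L
  c : L
  k : ℤ

namespace A

noncomputable instance : Mul A :=
  ⟨fun x y => ⟨x.a + T x.k * y.a, x.b + T x.k * y.b, x.c + y.c + ph x.a (T x.k * y.b), x.k + y.k⟩⟩
noncomputable instance : One A := ⟨⟨0, 0, 0, 0⟩⟩
noncomputable instance : Inv A :=
  ⟨fun x => ⟨-(T (-x.k) * x.a), -(T (-x.k) * x.b), -x.c + ph x.a x.b, -x.k⟩⟩

@[simp] lemma mul_a (x y : A) : (x * y).a = x.a + T x.k * y.a := rfl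
@[simp] lemma mul_b (x y : A) : (x * y).b = x.b + T x.k * y.b := rfl
@[simp] lemma mul_c (x y : A) : (x * y).c = x.c + y.c + ph x.a (T x.k * y.b) := rfl
@[simp] lemma mul_k (x y : A) : (x * y).k = x.k + y.k := rfl
@[simp] lemma one_a : (1 : A).a = 0 := rfl
@[simp] lemma one_b : (1 : A).b = 0 := rfl
@[simp] lemma one_c : (1 : A).c = 0 := rfl
@[simp] lemma one_k : (1 : A).k = 0 := rfl
@[simp] lemma inv_a (x : A) : (x⁻¹).a = -(T (-x.k) * x.a) := rfl
@[simp] lemma inv_b (x : A) : (x⁻¹).b = -(T (-x.k) * x.b) := rfl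
@[simp] lemma inv_c (x : A) : (x⁻¹).c = -x.c + ph x.a x.b := rfl
@[simp] lemma inv_k (x : A) : (x⁻¹).k = -x.k := rfl

noncomputable instance : Group A := Group.ofLeftAxioms
  (by
    intro x y z
    ext1
    · simp only [mul_a, mul_k, mul_add, T_mul_assoc']; ring
    · simp only [mul_b, mul_k, mul_add, T_mul_assoc']; ring
    · simp only [mul_c, mul_a, mul_b, mul_k, mul_add, ph_add_left, ph_add_right]
      rw [← T_mul_assoc', ph_T]
      simp only [T_mul_assoc']
      ring
    · simp only [mul_k]; ring)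
  (by intro x; ext1 <;> simp)
  (by
    intro x
    ext1
    · simp
    · simp
    · simp only [mul_c, inv_c, inv_a, inv_k, ph_neg_left, ph_T, one_c]; ring
    · simp)

end A

/-- central elements -/
noncomputable def cen (c : L) : A := ⟨0, 0, c, 0⟩

lemma cen_mul (c c' : L) : cen c * cen c' = cen (c + c') := by
  ext1 <;> simp [cen]

lemma cen_zero : cen 0 = 1 := rfl

lemma cen_comm (c : L) (g : A) : cen c * g = g * cen c := by
  ext1 <;> simp [cen]; ring

lemma cen_inj {c c' : L} (h : cen c = cen c') : c = c' := congrArg A.c h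

/-- the standard generators -/
noncomputable def xg : A := ⟨1, 0, 0, 0⟩
noncomputable def yg : A := ⟨0, 1, 0, 0⟩
noncomputable def tg : A := ⟨0, 0, 0, 1⟩

/-- commutators of elements with `k = 0` -/
lemma comm0 (g h : A) (hg : g.k = 0) (hh : h.k = 0) :
    g * h * g⁻¹ * h⁻¹ = cen (ph g.a h.b + ph h.a g.b) := by
  have key : g * h = cen (ph g.a h.b + ph h.a g.b) * (h * g) := by
    ext1
    · simp [cen, hg, hh]; ring
    · simp [cen, hg, hh]; ring
    · simp [cen, hg, hh]
      have := L_add_self (ph h.a g.b)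
      linear_combination (-1 : L) * this
    · simp [cen, hg, hh]
  rw [key]
  group

lemma tg_zpow (n : ℤ) : tg ^ n = ⟨0, 0, 0, n⟩ := by
  have h1 : ∀ n : ℕ, tg ^ n = ⟨0, 0, 0, n⟩ := by
    intro n
    induction n with
    | zero => rfl
    | succ n ih =>
      rw [pow_succ, ih]
      ext1 <;> simp [tg]
  cases n with
  | ofNat n => simpa using h1 n
  | negSucc n =>
    rw [zpow_negSucc, h1]
    ext1
    · simp
    · simp
    · simp
    · simp; omega

lemma conj_t_a (n : ℤ) (a : L) : tg ^ n * ⟨a, 0, 0, 0⟩ * (tg ^ n)⁻¹ = ⟨T n * a, 0, 0, 0⟩ := by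
  rw [tg_zpow]
  ext1 <;> simp

lemma conj_t_b (n : ℤ) (b : L) : tg ^ n * ⟨0, b, 0, 0⟩ * (tg ^ n)⁻¹ = ⟨0, T n * b, 0, 0⟩ := by
  rw [tg_zpow]
  ext1 <;> simp

/-- the standard generators generate -/
lemma closure_gen : Subgroup.closure ({xg, yg, tg} : Set A) = ⊤ := by
  set K := Subgroup.closure ({xg, yg, tg} : Set A) with hK
  have hx : xg ∈ K := Subgroup.subset_closure (by simp)
  have hy : yg ∈ K := Subgroup.subset_closure (by simp)
  have ht : tg ∈ K := Subgroup.subset_closure (by simp)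
  have hT1 : ∀ n : ℤ, (⟨T n, 0, 0, 0⟩ : A) ∈ K := by
    intro n
    have := conj_t_a n 1
    rw [mul_one] at this
    rw [← this]
    exact K.mul_mem (K.mul_mem (K.zpow_mem ht n) hx) (K.inv_mem (K.zpow_mem ht n))
  have hT2 : ∀ n : ℤ, (⟨0, T n, 0, 0⟩ : A) ∈ K := by
    intro n
    have := conj_t_b n 1
    rw [mul_one] at this
    rw [← this]
    exact K.mul_mem (K.mul_mem (K.zpow_mem ht n) hy) (K.inv_mem (K.zpow_mem ht n))
  have ha : ∀ a : L, (⟨a, 0, 0, 0⟩ : A) ∈ K := by
    intro a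
    refine L_ind (M := fun a => (⟨a, 0, 0, 0⟩ : A) ∈ K) a K.one_mem hT1 ?_
    intro p q hp hq
    have e : (⟨p + q, 0, 0, 0⟩ : A) = ⟨p, 0, 0, 0⟩ * ⟨q, 0, 0, 0⟩ := by ext1 <;> simp
    rw [e]; exact K.mul_mem hp hq
  have hb : ∀ b : L, (⟨0, b, 0, 0⟩ : A) ∈ K := by
    intro b
    refine L_ind (M := fun b => (⟨0, b, 0, 0⟩ : A) ∈ K) b K.one_mem hT2 ?_
    intro p q hp hq
    have e : (⟨0, p + q, 0, 0⟩ : A) = ⟨0, p, 0, 0⟩ * ⟨0, q, 0, 0⟩ := by ext1 <;> simp
    rw [e]; exact K.mul_mem hp hq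
  have hc : ∀ c : L, cen c ∈ K := by
    intro c
    refine L_ind (M := fun c => cen c ∈ K) c K.one_mem ?_ ?_
    · intro n
      have := comm0 ⟨1, 0, 0, 0⟩ ⟨0, T n, 0, 0⟩ rfl rfl
      have e : ph (1 : L) (T n) = T n := by simp [ph]
      simp only [e, ph_zero_left, add_zero] at this
      rw [← this]
      exact K.mul_mem (K.mul_mem (K.mul_mem (ha 1) (hb _)) (K.inv_mem (ha 1))) (K.inv_mem (hb _))
    · intro p q hp hq
      rw [← cen_mul]; exact K.mul_mem hp hq
  rw [eq_top_iff]
  rintro ⟨a, b, c, k⟩ -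
  have e : (⟨a, b, c, k⟩ : A) = ⟨0, b, 0, 0⟩ * ⟨a, 0, 0, 0⟩ * cen c * tg ^ k := by
    rw [tg_zpow]
    ext1 <;> simp [cen]
  rw [e]
  exact K.mul_mem (K.mul_mem (K.mul_mem (hb b) (ha a)) (hc c)) (K.zpow_mem ht k)

/-! ### extension of maps -/

lemma hom_ext {P : Type*} [Group P] (X Y : Multiplicative L →* P)
    (h : ∀ n, X (Multiplicative.ofAdd (T n)) = Y (Multiplicative.ofAdd (T n))) (a : L) :
    X (Multiplicative.ofAdd a) = Y (Multiplicative.ofAdd a) := by
  refine L_ind (M := fun a => X (Multiplicative.ofAdd a) = Y (Multiplicative.ofAdd a)) a ?_ h ?_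
  · rw [ofAdd_zero, map_one, map_one]
  · intro p q hp hq
    rw [ofAdd_add, map_mul, map_mul, hp, hq]

lemma exists_ext {P : Type*} [Group P] (g : ℤ → P) (h2 : ∀ i, g i * g i = 1)
    (hc : ∀ i j, g i * g j = g j * g i) :
    ∃ X : Multiplicative L →* P, ∀ i, X (Multiplicative.ofAdd (T i)) = g i := by
  have hcomm : IsMulCommutative (Subgroup.closure (Set.range g)) := by
    apply Subgroup.isMulCommutative_closure
    rintro _ ⟨i, rfl⟩ _ ⟨j, rfl⟩
    exact hc i j
  let K := Subgroup.closure (Set.range g)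
  let _ : CommGroup K := { (inferInstance : Group K) with mul_comm := hcomm.is_comm.comm }
  let gi : ℤ → K := fun i => ⟨g i, Subgroup.subset_closure ⟨i, rfl⟩⟩
  have hgi : ∀ i, gi i * gi i = 1 := fun i => Subtype.ext (h2 i)
  let f : ℤ → (ZMod 2 →+ Additive K) := fun i =>
    ZMod.lift 2 ⟨zmultiplesHom (Additive K) (Additive.ofMul (gi i)), by
      show ((2 : ℕ) : ℤ) • Additive.ofMul (gi i) = 0
      rw [Nat.cast_ofNat, two_zsmul]
      exact congrArg Additive.ofMul (hgi i)⟩
  let F : (ℤ →₀ ZMod 2) →+ Additive K := Finsupp.liftAddHom f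
  refine ⟨{ toFun := fun a => ((F (Multiplicative.toAdd a).coeff).toMul : K).1
            map_one' := ?_
            map_mul' := ?_ }, ?_⟩
  · show ((F (0 : L).coeff).toMul : K).1 = 1
    have : (0 : L).coeff = 0 := rfl
    rw [this, map_zero]; rfl
  · intro a b
    show ((F (Multiplicative.toAdd a + Multiplicative.toAdd b).coeff).toMul : K).1 = _
    have : (Multiplicative.toAdd a + Multiplicative.toAdd b).coeff =
      (Multiplicative.toAdd a).coeff + (Multiplicative.toAdd b).coeff := rfl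
    rw [this, map_add]; rfl
  · intro i
    show ((F (T i : L).coeff).toMul : K).1 = g i
    have e : (T i : L).coeff = Finsupp.single i 1 := rfl
    rw [e]
    have : F (Finsupp.single i 1) = Additive.ofMul (gi i) := by
      show Finsupp.liftAddHom f (Finsupp.single i 1) = _
      rw [Finsupp.liftAddHom_apply_single]
      show ZMod.lift 2 _ (1 : ZMod 2) = _
      have := ZMod.lift_coe 2 ⟨zmultiplesHom (Additive K) (Additive.ofMul (gi i)), by
        show ((2 : ℕ) : ℤ) • Additive.ofMul (gi i) = 0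
        rw [Nat.cast_ofNat, two_zsmul]
        exact congrArg Additive.ofMul (hgi i)⟩ 1
      simpa using this
    rw [this]; rfl

end Pool.Agent.H67R3.Cond
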