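import Pool.Agent.H67R3.Cond1

set_option autoImplicit false

namespace Pool.Agent.H67R3.Cond

open LaurentPolynomial Multiplicative

section ext
variable {P : Type*} [Group P]

/-- conjugates by powers of `t` -/
def cj (t x : P) (i : ℤ) : P := t ^ i * x * (t ^ i)⁻¹

lemma cj_zero (t x : P) : cj t x 0 = x := by simp [cj]

lemma cj_cj (t x : P) (i j : ℤ) : t ^ i * cj t x j * (t ^ i)⁻¹ = cj t x (i + j) := by
  unfold cj
  rw [zpow_add]; group

/-- von Dyck theorem for the presentation of the universal group -/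
theorem exists_sigma (x y t : P) (hx : x * x = 1) (hy : y * y = 1)
    (hxx : ∀ i, x * cj t x i = cj t x i * x) (hyy : ∀ i, y * cj t y i = cj t y i * y)
    (hzx : ∀ m, (x * cj t y m * x⁻¹ * (cj t y m)⁻¹) * x = x * (x * cj t y m * x⁻¹ * (cj t y m)⁻¹))
    (hzy : ∀ m, (x * cj t y m * x⁻¹ * (cj t y m)⁻¹) * y = y * (x * cj t y m * x⁻¹ * (cj t y m)⁻¹))
    (hzt : ∀ m, (x * cj t y m * x⁻¹ * (cj t y m)⁻¹) * t = t * (x * cj t y m * x⁻¹ * (cj t y m)⁻¹)) :
    ∃ σ : A →* P, σ xg = x ∧ σ yg = y ∧ σ tg = t := by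
  set z : ℤ → P := fun m => x * cj t y m * x⁻¹ * (cj t y m)⁻¹ with hz
  have hcjx2 : ∀ i, cj t x i * cj t x i = 1 := by
    intro i
    unfold cj
    have : t ^ i * x * (t ^ i)⁻¹ * (t ^ i * x * (t ^ i)⁻¹) = t ^ i * (x * x) * (t ^ i)⁻¹ := by group
    rw [this, hx]; group
  have hcjy2 : ∀ i, cj t y i * cj t y i = 1 := by
    intro i
    unfold cj
    have : t ^ i * y * (t ^ i)⁻¹ * (t ^ i * y * (t ^ i)⁻¹) = t ^ i * (y * y) * (t ^ i)⁻¹ := by group
    rw [this, hy]; group
  have hcjx : ∀ i j, cj t x i * cj t x j = cj t x j * cj t x i := by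
    intro i j
    have e : cj t x j = t ^ i * cj t x (j - i) * (t ^ i)⁻¹ := by
      rw [cj_cj]; congr 1; ring
    have h := hxx (j - i)
    rw [e]
    calc cj t x i * (t ^ i * cj t x (j - i) * (t ^ i)⁻¹)
        = t ^ i * (x * cj t x (j - i)) * (t ^ i)⁻¹ := by unfold cj; group
      _ = t ^ i * (cj t x (j - i) * x) * (t ^ i)⁻¹ := by rw [h]
      _ = _ := by unfold cj; group
  have hcjy : ∀ i j, cj t y i * cj t y j = cj t y j * cj t y i := by
    intro i j
    have e : cj t y j = t ^ i * cj t y (j - i) * (t ^ i)⁻¹ := by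
      rw [cj_cj]; congr 1; ring
    have h := hyy (j - i)
    rw [e]
    calc cj t y i * (t ^ i * cj t y (j - i) * (t ^ i)⁻¹)
        = t ^ i * (y * cj t y (j - i)) * (t ^ i)⁻¹ := by unfold cj; group
      _ = t ^ i * (cj t y (j - i) * y) * (t ^ i)⁻¹ := by rw [h]
      _ = _ := by unfold cj; group
  -- z commutes with everything relevant
  have hzt' : ∀ m i : ℤ, z m * t ^ i = t ^ i * z m := by
    intro m i
    have : Commute (z m) t := hzt m
    exact (this.zpow_right i).eq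
  have hzcx : ∀ m i, z m * cj t x i = cj t x i * z m := by
    intro m i
    have h1 : Commute (z m) (t ^ i) := hzt' m i
    have h2 : Commute (z m) x := hzx m
    exact ((h1.mul_right h2).mul_right h1.inv_right).eq
  have hzcy : ∀ m i, z m * cj t y i = cj t y i * z m := by
    intro m i
    have h1 : Commute (z m) (t ^ i) := hzt' m i
    have h2 : Commute (z m) y := hzy m
    exact ((h1.mul_right h2).mul_right h1.inv_right).eq
  have hzz : ∀ m n, z m * z n = z n * z m := by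
    intro m n
    have h2 : Commute (z m) x := hzx m
    have h3 : Commute (z m) (cj t y n) := hzcy m n
    exact (((h2.mul_right h3).mul_right h2.inv_right).mul_right h3.inv_right).eq
  have hz2 : ∀ m, z m * z m = 1 := by
    intro m
    have hxi : x⁻¹ = x := inv_eq_of_mul_eq_one_left hx
    have hyi : (cj t y m)⁻¹ = cj t y m := inv_eq_of_mul_eq_one_left (hcjy2 m)
    have h2 : x * z m * x⁻¹ = (z m)⁻¹ := by
      simp only [hz, mul_inv_rev, inv_inv, hxi, hyi]
      have : x * (x * cj t y m * x * cj t y m) * x = (x * x) * (cj t y m * x * cj t y m * x) := by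
        group
      rw [this, hx, one_mul]; group
    have h3 : x * z m * x⁻¹ = z m := by
      have h4 : z m * x = x * z m := hzx m
      rw [← h4, mul_inv_cancel_right]
    rw [h3] at h2
    nth_rewrite 1 [h2]
    exact inv_mul_cancel _
  -- commutators
  have hcomm : ∀ i j, cj t x i * cj t y j * (cj t x i)⁻¹ = cj t y j * z (j - i) := by
    intro i j
    have e1 : cj t y j = t ^ i * cj t y (j - i) * (t ^ i)⁻¹ := by
      rw [cj_cj]; congr 1; ring
    have h1 : x * cj t y (j - i) * x⁻¹ = z (j - i) * cj t y (j - i) := by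
      simp only [hz]; group
    have h2 : cj t x i * cj t y j * (cj t x i)⁻¹ =
        t ^ i * (x * cj t y (j - i) * x⁻¹) * (t ^ i)⁻¹ := by
      rw [e1]; unfold cj; group
    rw [h2, h1, ← hzcy (j - i) j, e1]
    have h3 := hzt' (j - i) i
    calc t ^ i * (z (j - i) * cj t y (j - i)) * (t ^ i)⁻¹
        = (t ^ i * z (j - i)) * cj t y (j - i) * (t ^ i)⁻¹ := by group
      _ = (z (j - i) * t ^ i) * cj t y (j - i) * (t ^ i)⁻¹ := by rw [h3]
      _ = _ := by group
  obtain ⟨X, hX⟩ := exists_ext (cj t x) hcjx2 hcjx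
  obtain ⟨Y, hY⟩ := exists_ext (cj t y) hcjy2 hcjy
  obtain ⟨Z, hZ⟩ := exists_ext z hz2 hzz
  -- Z commutes with elements commuting with all z
  have hZc : ∀ w : P, (∀ m, z m * w = w * z m) → ∀ c, Z (ofAdd c) * w = w * Z (ofAdd c) := by
    intro w hw c
    refine L_ind (M := fun c => Z (ofAdd c) * w = w * Z (ofAdd c)) c ?_ ?_ ?_
    · rw [ofAdd_zero, map_one]; simp
    · intro n; rw [hZ]; exact hw n
    · intro p q hp hq
      rw [ofAdd_add, map_mul, mul_assoc, hq, ← mul_assoc, hp, mul_assoc]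
  have hXc : ∀ w : P, (∀ i, cj t x i * w = w * cj t x i) →
      ∀ c, X (ofAdd c) * w = w * X (ofAdd c) := by
    intro w hw c
    refine L_ind (M := fun c => X (ofAdd c) * w = w * X (ofAdd c)) c ?_ ?_ ?_
    · rw [ofAdd_zero, map_one]; simp
    · intro n; rw [hX]; exact hw n
    · intro p q hp hq
      rw [ofAdd_add, map_mul, mul_assoc, hq, ← mul_assoc, hp, mul_assoc]
  have hYc : ∀ w : P, (∀ i, cj t y i * w = w * cj t y i) →
      ∀ c, Y (ofAdd c) * w = w * Y (ofAdd c) := by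
    intro w hw c
    refine L_ind (M := fun c => Y (ofAdd c) * w = w * Y (ofAdd c)) c ?_ ?_ ?_
    · rw [ofAdd_zero, map_one]; simp
    · intro n; rw [hY]; exact hw n
    · intro p q hp hq
      rw [ofAdd_add, map_mul, mul_assoc, hq, ← mul_assoc, hp, mul_assoc]
  have hZX : ∀ c a, Z (ofAdd c) * X (ofAdd a) = X (ofAdd a) * Z (ofAdd c) := by
    intro c a
    apply hZc
    intro m
    exact (hXc (z m) (fun i => (hzcx m i).symm) a).symm
  have hZY : ∀ c a, Z (ofAdd c) * Y (ofAdd a) = Y (ofAdd a) * Z (ofAdd c) := by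
    intro c a
    apply hZc
    intro m
    exact (hYc (z m) (fun i => (hzcy m i).symm) a).symm
  have hZt : ∀ c (k : ℤ), Z (ofAdd c) * t ^ k = t ^ k * Z (ofAdd c) := by
    intro c k
    apply hZc
    intro m
    exact hzt' m k
  have hXt : ∀ a (k : ℤ), t ^ k * X (ofAdd a) = X (ofAdd (T k * a)) * t ^ k := by
    intro a k
    refine L_ind (M := fun a => t ^ k * X (ofAdd a) = X (ofAdd (T k * a)) * t ^ k) a ?_ ?_ ?_
    · simp
    · intro n
      rw [hX, T_mul_T, hX, ← cj_cj]; group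
    · intro p q hp hq
      rw [ofAdd_add, map_mul X, ← mul_assoc, hp, mul_assoc, hq, mul_add, ofAdd_add, map_mul X]; group
  have hYt : ∀ a (k : ℤ), t ^ k * Y (ofAdd a) = Y (ofAdd (T k * a)) * t ^ k := by
    intro a k
    refine L_ind (M := fun a => t ^ k * Y (ofAdd a) = Y (ofAdd (T k * a)) * t ^ k) a ?_ ?_ ?_
    · simp
    · intro n
      rw [hY, T_mul_T, hY, ← cj_cj]; group
    · intro p q hp hq
      rw [ofAdd_add, map_mul Y, ← mul_assoc, hp, mul_assoc, hq, mul_add, ofAdd_add, map_mul Y]; group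
  have hXY1 : ∀ i b, cj t x i * Y (ofAdd b) = Y (ofAdd b) * Z (ofAdd (ph (T i) b)) * cj t x i := by
    intro i b
    refine L_ind (M := fun b => cj t x i * Y (ofAdd b) =
      Y (ofAdd b) * Z (ofAdd (ph (T i) b)) * cj t x i) b ?_ ?_ ?_
    · simp
    · intro n
      rw [hY, ph_TT, hZ, ← hcomm i n]; group
    · intro p q hp hq
      rw [ofAdd_add, map_mul, ph_add_right, ofAdd_add, map_mul]
      calc cj t x i * (Y (ofAdd p) * Y (ofAdd q))
          = (cj t x i * Y (ofAdd p)) * Y (ofAdd q) := by group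
        _ = Y (ofAdd p) * Z (ofAdd (ph (T i) p)) * (cj t x i * Y (ofAdd q)) := by
            rw [hp]; group
        _ = Y (ofAdd p) * (Z (ofAdd (ph (T i) p)) * Y (ofAdd q)) * Z (ofAdd (ph (T i) q)) *
              cj t x i := by rw [hq]; group
        _ = _ := by rw [hZY]; group
  have hXY : ∀ a b, X (ofAdd a) * Y (ofAdd b) =
      Y (ofAdd b) * X (ofAdd a) * Z (ofAdd (ph a b)) := by
    intro a b
    refine L_ind (M := fun a => X (ofAdd a) * Y (ofAdd b) =
      Y (ofAdd b) * X (ofAdd a) * Z (ofAdd (ph a b))) a ?_ ?_ ?_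
    · simp
    · intro n
      rw [hX, hXY1, mul_assoc, mul_assoc]
      congr 1
      rw [← hX]
      exact hZX _ _
    · intro p q hp hq
      rw [ofAdd_add, map_mul, ph_add_left, ofAdd_add, map_mul]
      calc X (ofAdd p) * X (ofAdd q) * Y (ofAdd b)
          = X (ofAdd p) * (X (ofAdd q) * Y (ofAdd b)) := by group
        _ = (X (ofAdd p) * Y (ofAdd b)) * X (ofAdd q) * Z (ofAdd (ph q b)) := by
            rw [hq]; group
        _ = Y (ofAdd b) * X (ofAdd p) * (Z (ofAdd (ph p b)) * X (ofAdd q)) *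
              Z (ofAdd (ph q b)) := by rw [hp]; group
        _ = _ := by rw [hZX]; group
  refine ⟨{ toFun := fun g => Y (ofAdd g.b) * X (ofAdd g.a) * Z (ofAdd g.c) * t ^ g.k
            map_one' := by simp
            map_mul' := ?_ }, ?_, ?_, ?_⟩
  · intro g h
    simp only [A.mul_a, A.mul_b, A.mul_c, A.mul_k, ofAdd_add, map_mul, zpow_add]
    set b2 := T g.k * h.b with hb2
    set a2 := T g.k * h.a with ha2
    have e1 : t ^ g.k * (Y (ofAdd h.b) * X (ofAdd h.a) * Z (ofAdd h.c) * t ^ h.k) =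
        Y (ofAdd b2) * X (ofAdd a2) * Z (ofAdd h.c) * t ^ g.k * t ^ h.k := by
      calc t ^ g.k * (Y (ofAdd h.b) * X (ofAdd h.a) * Z (ofAdd h.c) * t ^ h.k)
          = (t ^ g.k * Y (ofAdd h.b)) * X (ofAdd h.a) * Z (ofAdd h.c) * t ^ h.k := by group
        _ = Y (ofAdd b2) * (t ^ g.k * X (ofAdd h.a)) * Z (ofAdd h.c) * t ^ h.k := by
            rw [hYt, ← hb2]; group
        _ = Y (ofAdd b2) * X (ofAdd a2) * (t ^ g.k * Z (ofAdd h.c)) * t ^ h.k := by
            rw [hXt, ← ha2]; group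
        _ = _ := by rw [← hZt]; group
    symm
    calc Y (ofAdd g.b) * X (ofAdd g.a) * Z (ofAdd g.c) * t ^ g.k *
          (Y (ofAdd h.b) * X (ofAdd h.a) * Z (ofAdd h.c) * t ^ h.k)
        = Y (ofAdd g.b) * X (ofAdd g.a) * Z (ofAdd g.c) *
          (t ^ g.k * (Y (ofAdd h.b) * X (ofAdd h.a) * Z (ofAdd h.c) * t ^ h.k)) := by
          simp only [mul_assoc]
      _ = Y (ofAdd g.b) * X (ofAdd g.a) * (Z (ofAdd g.c) * Y (ofAdd b2)) * X (ofAdd a2) *
          Z (ofAdd h.c) * t ^ g.k * t ^ h.k := by rw [e1]; simp only [mul_assoc]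
      _ = Y (ofAdd g.b) * (X (ofAdd g.a) * Y (ofAdd b2)) * (Z (ofAdd g.c) * X (ofAdd a2)) *
          Z (ofAdd h.c) * t ^ g.k * t ^ h.k := by rw [hZY]; simp only [mul_assoc]
      _ = Y (ofAdd g.b) * Y (ofAdd b2) * X (ofAdd g.a) * (Z (ofAdd (ph g.a b2)) * X (ofAdd a2)) *
          Z (ofAdd g.c) * Z (ofAdd h.c) * t ^ g.k * t ^ h.k := by
          rw [hXY, hZX g.c a2]; simp only [mul_assoc]
      _ = Y (ofAdd g.b) * Y (ofAdd b2) * X (ofAdd g.a) * X (ofAdd a2) *
          (Z (ofAdd (ph g.a b2)) * (Z (ofAdd g.c) * Z (ofAdd h.c))) * t ^ g.k * t ^ h.k := by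
          rw [hZX]; simp only [mul_assoc]
      _ = _ := by
          have hcc : Z (ofAdd (ph g.a b2)) * (Z (ofAdd g.c) * Z (ofAdd h.c)) =
              (Z (ofAdd g.c) * Z (ofAdd h.c)) * Z (ofAdd (ph g.a b2)) := by
            have hZZ : ∀ c c', Z (ofAdd c) * Z (ofAdd c') = Z (ofAdd c') * Z (ofAdd c) := by
              intro c c'
              rw [← map_mul Z, ← map_mul Z, mul_comm]
            rw [← mul_assoc, hZZ, mul_assoc, hZZ (ph g.a b2), ← mul_assoc]
          rw [hcc]; simp only [mul_assoc]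
  · show Y (ofAdd (0 : L)) * X (ofAdd (1 : L)) * Z (ofAdd (0 : L)) * t ^ (0 : ℤ) = x
    have h := hX 0
    rw [T_zero, cj_zero] at h
    simp [h]
  · show Y (ofAdd (1 : L)) * X (ofAdd (0 : L)) * Z (ofAdd (0 : L)) * t ^ (0 : ℤ) = y
    have h := hY 0
    rw [T_zero, cj_zero] at h
    simp [h]
  · show Y (ofAdd (0 : L)) * X (ofAdd (0 : L)) * Z (ofAdd (0 : L)) * t ^ (1 : ℤ) = t
    simp

end ext

end Pool.Agent.H67R3.Cond
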