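import Mathlib

set_option autoImplicit false

namespace Pool.Agent.H67R3.CondDefs

/-- The set `𝒢_n` of normal subgroups of the free group of rank `n` (equivalently, of `n`-generated
marked groups). -/
def Marked (n : ℕ) : Type := {N : Subgroup (FreeGroup (Fin n)) // N.Normal}

open Classical in
/-- The topology on `𝒢_n` induced from the product topology on `2 ^ F_n`. -/
noncomputable instance (n : ℕ) : TopologicalSpace (Marked n) :=
  TopologicalSpace.induced (fun N => (fun w : FreeGroup (Fin n) => decide (w ∈ N.1)))
    (inferInstance : TopologicalSpace (FreeGroup (Fin n) → Bool))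

/-- The space `𝒢` of finitely generated marked groups, the topological disjoint union of the
spaces `𝒢_n`, `n ≥ 1`. -/
abbrev MarkedGroups : Type := Σ n : ℕ+, Marked n

/-- The isomorphism class `[G]` in `𝒢`: all `(n, N)` with `F_n / N` isomorphic to `G`, that is, such
that `N` is the kernel of a surjective homomorphism from `F_n` to `G`. -/
def isoClass (G : Type) [Group G] : Set MarkedGroups :=
  {x | ∃ π : FreeGroup (Fin x.1) →* G, Function.Surjective π ∧ π.ker = x.2.1}

/-- A finitely generated group is condensed if its isomorphism class, with the subspace topology,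
has no isolated points. -/
def Condensed (G : Type) [Group G] : Prop :=
  Group.FG G ∧ ∀ x : isoClass G, ¬ IsOpen ({x} : Set (isoClass G))

/-- The word length of `g` with respect to `S` (letters from `S` and their inverses). -/
noncomputable def wordLength {G : Type} [Group G] (S : Set G) (g : G) : ℕ :=
  sInf {k | ∃ l : List G, l.length = k ∧ (∀ s ∈ l, s ∈ S ∨ s⁻¹ ∈ S) ∧ l.prod = g}

/-- Quasi-isometry of finitely generated groups: for all finite generating sets `S` of `G` and `T`
of `H` there is a quasi-isometry between the corresponding word metrics. -/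
def QuasiIsometric (G H : Type) [Group G] [Group H] : Prop :=
  ∀ (S : Set G) (T : Set H), S.Finite → T.Finite →
    Subgroup.closure S = ⊤ → Subgroup.closure T = ⊤ →
    ∃ (f : G → H) (K C : ℕ),
      (∀ x y, wordLength T ((f x)⁻¹ * f y) ≤ K * wordLength S (x⁻¹ * y) + C) ∧
      (∀ x y, wordLength S (x⁻¹ * y) ≤ K * wordLength T ((f x)⁻¹ * f y) + C) ∧
      ∀ h, ∃ x, wordLength T (h⁻¹ * f x) ≤ C

end Pool.Agent.H67R3.CondDefs
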