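import Pool.Agent.H67R3.Cond2
import Pool.Agent.H67R3.CondDefs

set_option autoImplicit false

namespace Pool.Agent.H67R3.Cond

open LaurentPolynomial CondDefs

/-! ### topology -/

lemma isolated_of {G : Type} [Group G] (x : isoClass G) (W : Set (FreeGroup (Fin x.1.1)))
    (hW : W.Finite)
    (h : ∀ N' : Marked x.1.1, (⟨x.1.1, N'⟩ : MarkedGroups) ∈ isoClass G →
      (∀ w ∈ W, (w ∈ N'.1 ↔ w ∈ x.1.2.1)) → N' = x.1.2) :
    IsOpen ({x} : Set (isoClass G)) := by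
  classical
  rw [isOpen_induced_iff]
  refine ⟨Sigma.mk x.1.1 '' {N' : Marked x.1.1 | ∀ w ∈ W, (w ∈ N'.1 ↔ w ∈ x.1.2.1)}, ?_, ?_⟩
  · apply isOpenMap_sigmaMk
    have : {N' : Marked x.1.1 | ∀ w ∈ W, (w ∈ N'.1 ↔ w ∈ x.1.2.1)} =
        ⋂ w ∈ W, {N' : Marked x.1.1 | (w ∈ N'.1 ↔ w ∈ x.1.2.1)} := by
      ext N'; simp
    rw [this]
    apply hW.isOpen_biInter
    intro w _
    rw [isOpen_induced_iff]
    refine ⟨(fun f : FreeGroup (Fin x.1.1) → Bool => f w) ⁻¹' {decide (w ∈ x.1.2.1)}, ?_, ?_⟩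
    · exact (continuous_apply w).isOpen_preimage _ (isOpen_discrete _)
    · ext N'
      simp
  · ext y
    constructor
    · rintro ⟨N', hN', hy⟩
      have h1 : N' = x.1.2 := by
        apply h N' _ hN'
        rw [hy]; exact y.2
      apply Subtype.ext
      rw [← hy, h1]
    · rintro rfl
      exact ⟨y.1.2, fun w _ => Iff.rfl, rfl⟩

lemma not_isolated_of {G : Type} [Group G] (x : isoClass G)
    (h : ∀ W : Finset (FreeGroup (Fin x.1.1)), ∃ N' : Marked x.1.1,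
      (⟨x.1.1, N'⟩ : MarkedGroups) ∈ isoClass G ∧ (∀ w ∈ W, (w ∈ N'.1 ↔ w ∈ x.1.2.1)) ∧
      N' ≠ x.1.2) :
    ¬ IsOpen ({x} : Set (isoClass G)) := by
  classical
  intro hop
  rw [isOpen_induced_iff] at hop
  obtain ⟨U, hU, hUx⟩ := hop
  have h1 : IsOpen (Sigma.mk x.1.1 ⁻¹' U) := continuous_sigmaMk.isOpen_preimage U hU
  rw [isOpen_induced_iff] at h1
  obtain ⟨V, hV, hVU⟩ := h1
  rw [isOpen_pi_iff] at hV
  have hx : x.1.2 ∈ Sigma.mk x.1.1 ⁻¹' U := by
    have : x ∈ (Subtype.val ⁻¹' U : Set (isoClass G)) := by rw [hUx]; rfl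
    exact this
  have hx' := hx
  rw [← hVU] at hx'
  obtain ⟨I, u, hu1, hu2⟩ := hV _ hx'
  obtain ⟨N', hN1, hN2, hN3⟩ := h I
  have h3 : N' ∈ Sigma.mk x.1.1 ⁻¹' U := by
    rw [← hVU]
    apply hu2
    intro w hw
    have := (hu1 w hw).2
    have e : decide (w ∈ N'.1) = decide (w ∈ x.1.2.1) := by
      simp only [decide_eq_decide]
      exact hN2 w hw
    show decide (w ∈ N'.1) ∈ u w
    rw [e]; exact this
  have h4 : (⟨⟨x.1.1, N'⟩, hN1⟩ : isoClass G) ∈ (Subtype.val ⁻¹' U : Set (isoClass G)) := h3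
  rw [hUx] at h4
  have h5 := congrArg (fun z : isoClass G => z.1) h4
  apply hN3
  have h6 : (⟨x.1.1, N'⟩ : MarkedGroups) = x.1 := h5
  have h7 : (⟨x.1.1, N'⟩ : MarkedGroups) = ⟨x.1.1, x.1.2⟩ := h6
  exact eq_of_heq (Sigma.mk.inj h7).2

/-! ### the central subgroups -/

/-- the central subgroup spanned by the `T n`, `n ∈ S` -/
noncomputable def V (S : Set ℤ) : Subgroup A where
  carrier := {g | g.a = 0 ∧ g.b = 0 ∧ g.k = 0 ∧ ∀ n, g.c.coeff n ≠ 0 → n ∈ S}
  one_mem' := ⟨rfl, rfl, rfl, fun n h => absurd rfl h⟩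
  mul_mem' := by
    rintro g h ⟨g1, g2, g3, g4⟩ ⟨h1, h2, h3, h4⟩
    refine ⟨by simp [g1, h1], by simp [g2, h2], by simp [g3, h3], ?_⟩
    intro n hn
    have e : (g * h).c = g.c + h.c := by simp [g1]
    rw [e] at hn
    by_contra hnS
    have e1 : g.c.coeff n = 0 := by
      by_contra h5; exact hnS (g4 n h5)
    have e2 : h.c.coeff n = 0 := by
      by_contra h5; exact hnS (h4 n h5)
    apply hn
    show g.c.coeff n + h.c.coeff n = 0
    rw [e1, e2, add_zero]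
  inv_mem' := by
    rintro g ⟨g1, g2, g3, g4⟩
    refine ⟨by simp [g1], by simp [g2], by simp [g3], ?_⟩
    intro n hn
    apply g4
    have e : (g⁻¹).c = g.c := by simp [g1, L_neg]
    rwa [e] at hn

lemma mem_V {S : Set ℤ} {g : A} :
    g ∈ V S ↔ g.a = 0 ∧ g.b = 0 ∧ g.k = 0 ∧ ∀ n, g.c.coeff n ≠ 0 → n ∈ S := Iff.rfl

lemma V_eq_cen {S : Set ℤ} {g : A} (h : g ∈ V S) : g = cen g.c := by
  obtain ⟨h1, h2, h3, -⟩ := h
  ext1 <;> simp [cen, h1, h2, h3]

instance V_normal (S : Set ℤ) : (V S).Normal := ⟨by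
  intro v hv g
  obtain ⟨c, rfl⟩ : ∃ c, v = cen c := ⟨_, V_eq_cen hv⟩
  rw [← cen_comm, mul_inv_cancel_right]
  exact hv⟩

lemma cen_T_mem {S : Set ℤ} {n : ℤ} : cen (T n) ∈ V S ↔ n ∈ S := by
  rw [mem_V]
  constructor
  · rintro ⟨-, -, -, h⟩
    exact h n (by simp [cen])
  · intro h
    refine ⟨rfl, rfl, rfl, ?_⟩
    intro m hm
    have : (T n : L).coeff m ≠ 0 := hm
    rw [T_apply] at this
    split_ifs at this with h2
    · rwa [← h2]
    · exact absurd rfl this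

/-- the shift automorphisms -/
noncomputable def shift (u : ℤ) : A →* A where
  toFun g := ⟨g.a, T u * g.b, T u * g.c, g.k⟩
  map_one' := by ext1 <;> simp
  map_mul' := by
    intro g h
    ext1
    · simp
    · simp only [A.mul_b]; ring
    · show T u * (g.c + h.c + ph g.a (T g.k * h.b)) =
        T u * g.c + T u * h.c + ph g.a (T g.k * (T u * h.b))
      have e1 : (T g.k * (T u * h.b) : L) = T u * (T g.k * h.b) := by ring
      rw [e1, ph_mul_right g.a (T g.k * h.b) u]; ring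
    · simp

lemma shift_surj (u : ℤ) : Function.Surjective (shift u) := by
  intro g
  refine ⟨⟨g.a, T (-u) * g.b, T (-u) * g.c, g.k⟩, ?_⟩
  ext1
  · rfl
  · exact T_mul_T_neg u _
  · exact T_mul_T_neg u _
  · rfl

lemma coeff_T_mul (u : ℤ) (c : L) (n : ℤ) : (T u * c : L).coeff n = c.coeff (n - u) := by
  refine L_ind (M := fun c => (T u * c : L).coeff n = c.coeff (n - u)) c ?_ ?_ ?_
  · simp
  · intro m
    rw [T_mul_T, T_apply, T_apply]
    congr 1
    simp only [eq_iff_iff]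
    constructor <;> intro h <;> omega
  · intro p q hp hq
    rw [mul_add]
    show (T u * p : L).coeff n + (T u * q : L).coeff n = p.coeff (n - u) + q.coeff (n - u)
    rw [hp, hq]

lemma shift_mem (u : ℤ) (S : Set ℤ) (g : A) :
    shift u g ∈ V S ↔ g ∈ V {n | n + u ∈ S} := by
  rw [mem_V, mem_V]
  show g.a = 0 ∧ T u * g.b = 0 ∧ g.k = 0 ∧ (∀ n, (T u * g.c : L).coeff n ≠ 0 → n ∈ S) ↔ _
  have e : (T u * g.b : L) = 0 ↔ g.b = 0 := by
    constructor
    · intro h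
      have := T_neg_mul_T u g.b
      rw [h, mul_zero] at this
      exact this.symm
    · intro h; rw [h, mul_zero]
  rw [e]
  constructor
  · rintro ⟨h1, h2, h3, h4⟩
    refine ⟨h1, h2, h3, ?_⟩
    intro n hn
    apply h4 (n + u)
    rw [coeff_T_mul]; simpa using hn
  · rintro ⟨h1, h2, h3, h4⟩
    refine ⟨h1, h2, h3, ?_⟩
    intro n hn
    rw [coeff_T_mul] at hn
    have := h4 _ hn
    simpa using this

/-! ### lifting -/

lemma surj_of_mod (S : Set ℤ) (B : Subgroup A) (h : ∀ g, ∃ b ∈ B, ∃ v ∈ V S, g = b * v) :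
    B = ⊤ := by
  have hz : ∀ n, cen (T n) ∈ B := by
    intro n
    obtain ⟨b, hb, v, hv, e1⟩ := h ⟨1, 0, 0, 0⟩
    obtain ⟨b', hb', v', hv', e2⟩ := h ⟨0, T n, 0, 0⟩
    have h1 := comm0 ⟨1, 0, 0, 0⟩ ⟨0, T n, 0, 0⟩ rfl rfl
    have e : ph (1 : L) (T n) = T n := by simp [ph]
    simp only [e, ph_zero_left, add_zero] at h1
    rw [e1, e2, V_eq_cen hv, V_eq_cen hv'] at h1
    have h2 : b * cen v.c * (b' * cen v'.c) * (b * cen v.c)⁻¹ * (b' * cen v'.c)⁻¹ =
        b * b' * b⁻¹ * b'⁻¹ := by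
      have c1 := cen_comm v.c
      have c2 := cen_comm v'.c
      have s1 : b * cen v.c * (b' * cen v'.c) = cen v.c * cen v'.c * (b * b') := by
        rw [← c1 b, ← c2 b']
        calc cen v.c * b * (cen v'.c * b') = cen v.c * (b * cen v'.c) * b' := by
              simp only [mul_assoc]
          _ = _ := by rw [← c2 b]; simp only [mul_assoc]
      rw [s1, ← c1 b, ← c2 b']
      have s2 : (cen v.c)⁻¹ * (b')⁻¹ = (b')⁻¹ * (cen v.c)⁻¹ := by
        rw [← mul_inv_rev, ← mul_inv_rev, c1]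
      calc cen v.c * cen v'.c * (b * b') * (cen v.c * b)⁻¹ * (cen v'.c * b')⁻¹
          = cen v.c * cen v'.c * (b * b' * b⁻¹) * ((cen v.c)⁻¹ * (b')⁻¹) * (cen v'.c)⁻¹ := by group
        _ = cen v.c * cen v'.c * ((b * b' * b⁻¹ * b'⁻¹) * (cen v.c)⁻¹) * (cen v'.c)⁻¹ := by
            rw [s2]; group
        _ = cen v.c * cen v'.c * ((cen v.c)⁻¹ * (b * b' * b⁻¹ * b'⁻¹)) * (cen v'.c)⁻¹ := by
            have : (b * b' * b⁻¹ * b'⁻¹) * (cen v.c)⁻¹ = (cen v.c)⁻¹ * (b * b' * b⁻¹ * b'⁻¹) :=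
              (Commute.inv_left (c1 (b * b' * b⁻¹ * b'⁻¹))).eq.symm
            rw [this]
        _ = cen v.c * (cen v'.c * (cen v.c)⁻¹) * ((b * b' * b⁻¹ * b'⁻¹) * (cen v'.c)⁻¹) := by group
        _ = cen v.c * (cen v'.c * (cen v.c)⁻¹) * ((cen v'.c)⁻¹ * (b * b' * b⁻¹ * b'⁻¹)) := by
            have : (b * b' * b⁻¹ * b'⁻¹) * (cen v'.c)⁻¹ = (cen v'.c)⁻¹ * (b * b' * b⁻¹ * b'⁻¹) :=
              (Commute.inv_left (c2 (b * b' * b⁻¹ * b'⁻¹))).eq.symm
            rw [this]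
        _ = cen v.c * ((cen v.c)⁻¹ * cen v'.c) * ((cen v'.c)⁻¹ * (b * b' * b⁻¹ * b'⁻¹)) := by
            have : cen v'.c * (cen v.c)⁻¹ = (cen v.c)⁻¹ * cen v'.c :=
              (Commute.inv_left (c1 (cen v'.c))).eq.symm
            rw [this]
        _ = _ := by group
    rw [h2] at h1
    rw [← h1]
    exact B.mul_mem (B.mul_mem (B.mul_mem hb hb') (B.inv_mem hb)) (B.inv_mem hb')
  have hc : ∀ c, cen c ∈ B := by
    intro c
    refine L_ind (M := fun c => cen c ∈ B) c B.one_mem hz ?_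
    intro p q hp hq
    rw [← cen_mul]; exact B.mul_mem hp hq
  rw [eq_top_iff]
  intro g _
  obtain ⟨b, hb, v, hv, e1⟩ := h g
  rw [e1, V_eq_cen hv]
  exact B.mul_mem hb (hc _)

/-- lifting of surjections from free groups -/
lemma exists_lift {n : ℕ} (S : Set ℤ) (π : FreeGroup (Fin n) →* A ⧸ V S)
    (hπ : Function.Surjective π) :
    ∃ ψ : FreeGroup (Fin n) →* A, Function.Surjective ψ ∧
      ∀ w, π w = QuotientGroup.mk (ψ w) := by
  choose f hf using fun i => QuotientGroup.mk_surjective (π (FreeGroup.of i))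
  let ψ : FreeGroup (Fin n) →* A := FreeGroup.lift f
  have h1 : (QuotientGroup.mk' (V S)).comp ψ = π := by
    apply FreeGroup.ext_hom
    intro i
    simp only [MonoidHom.comp_apply, ψ, FreeGroup.lift_apply_of]
    exact hf i
  have h2 : ∀ w, π w = QuotientGroup.mk (ψ w) := fun w => by
    rw [← h1]; rfl
  refine ⟨ψ, ?_, h2⟩
  rw [← MonoidHom.range_eq_top]
  apply surj_of_mod S
  intro g
  obtain ⟨w, hw⟩ := hπ (QuotientGroup.mk g)
  refine ⟨ψ w, ⟨w, rfl⟩, (ψ w)⁻¹ * g, ?_, by group⟩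
  rw [h2 w] at hw
  exact QuotientGroup.eq.1 hw

/-! ### condensed groups -/

theorem fg_A : Group.FG A := by
  rw [Group.fg_iff]
  exact ⟨{xg, yg, tg}, closure_gen, by simp⟩

theorem condensed_of_recurrent (S : Set ℤ)
    (h : ∀ R : ℤ, ∃ u : ℤ, (∀ n, |n| ≤ R → (n + u ∈ S ↔ n ∈ S)) ∧ ∃ m, ¬ (m + u ∈ S ↔ m ∈ S)) :
    Condensed (A ⧸ V S) := by
  refine ⟨?_, ?_⟩
  · have := fg_A
    exact QuotientGroup.fg (V S)
  · intro x
    apply not_isolated_of
    intro W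
    obtain ⟨⟨n, N⟩, π, hπ, hker⟩ := x
    simp only at W hker ⊢
    obtain ⟨ψ, hψ, hψπ⟩ := exists_lift S π hπ
    obtain ⟨R, hR⟩ : ∃ R : ℤ, ∀ w ∈ W, ∀ m, (ψ w).c.coeff m ≠ 0 → |m| ≤ R := by
      classical
      let F : Finset ℤ := W.biUnion (fun w => (ψ w).c.coeff.support.image (fun m => |m|))
      refine ⟨∑ m ∈ F, |m|, ?_⟩
      intro w hw m hm
      have hmem : |m| ∈ F := by
        simp only [F, Finset.mem_biUnion, Finset.mem_image, Finsupp.mem_support_iff]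
        exact ⟨w, hw, m, hm, rfl⟩
      have := Finset.single_le_sum (f := fun m : ℤ => |m|) (fun i _ => abs_nonneg i) hmem
      simpa using this
    obtain ⟨u, hu1, m, hm⟩ := h R
    let π' : FreeGroup (Fin n) →* A ⧸ V S :=
      (QuotientGroup.mk' (V S)).comp ((shift u).comp ψ)
    have hmem' : ∀ w, w ∈ π'.ker ↔ ψ w ∈ V {n | n + u ∈ S} := by
      intro w
      rw [MonoidHom.mem_ker]
      show (QuotientGroup.mk (shift u (ψ w)) : A ⧸ V S) = 1 ↔ _
      rw [QuotientGroup.eq_one_iff, shift_mem]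
    have hmem : ∀ w, w ∈ N.1 ↔ ψ w ∈ V S := by
      intro w
      rw [← hker, MonoidHom.mem_ker, hψπ, QuotientGroup.eq_one_iff]
    refine ⟨⟨π'.ker, inferInstance⟩, ⟨π', ?_, rfl⟩, ?_, ?_⟩
    · exact (QuotientGroup.mk'_surjective _).comp ((shift_surj u).comp hψ)
    · intro w hw
      show w ∈ π'.ker ↔ w ∈ N.1
      rw [hmem', hmem, mem_V, mem_V]
      have e : (∀ n, (ψ w).c.coeff n ≠ 0 → n ∈ {n | n + u ∈ S}) ↔
          (∀ n, (ψ w).c.coeff n ≠ 0 → n ∈ S) := by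
        refine forall_congr' fun k => ?_
        constructor
        · intro h1 h2
          exact (hu1 k (hR w hw k h2)).1 (h1 h2)
        · intro h1 h2
          exact (hu1 k (hR w hw k h2)).2 (h1 h2)
      rw [e]
    · intro heq
      apply hm
      obtain ⟨w, hw⟩ := hψ (cen (T m))
      have h1 := hmem' w
      have h2 := hmem w
      rw [hw, cen_T_mem] at h1 h2
      have h3 : π'.ker = N.1 := congrArg Subtype.val heq
      rw [h3] at h1
      exact (h1.symm.trans h2)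

end Pool.Agent.H67R3.Cond
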