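import Pool.Agent.H67R3.Cond3

set_option autoImplicit false

namespace Pool.Agent.H67R3.Cond

open LaurentPolynomial CondDefs

/-! ### the set of integers with odd 2-adic valuation -/

def T0 : Set ℤ := {n | ∃ (k : ℕ) (m : ℤ), n = 2 ^ (2 * k + 1) * (2 * m + 1)}

lemma pow_uniq_aux (a d : ℕ) (m m' : ℤ)
    (h : (2 : ℤ) ^ a * (2 * m + 1) = 2 ^ (a + d) * (2 * m' + 1)) : d = 0 := by
  rw [pow_add, mul_assoc] at h
  have h2 : (2 * m + 1 : ℤ) = 2 ^ d * (2 * m' + 1) := by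
    have hne : (2 : ℤ) ^ a ≠ 0 := by positivity
    exact mul_left_cancel₀ hne h
  by_contra hd
  obtain ⟨e, rfl⟩ : ∃ e, d = e + 1 := ⟨d - 1, by omega⟩
  rw [pow_succ] at h2
  have h3 : (2 * m + 1 : ℤ) = 2 * (2 ^ e * (2 * m' + 1)) := by rw [h2]; ring
  omega

lemma pow_uniq (a b : ℕ) (m m' : ℤ) (h : (2 : ℤ) ^ a * (2 * m + 1) = 2 ^ b * (2 * m' + 1)) :
    a = b := by
  rcases le_total a b with hab | hab
  · obtain ⟨d, rfl⟩ := Nat.exists_eq_add_of_le hab
    have := pow_uniq_aux a d m m' h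
    omega
  · obtain ⟨d, rfl⟩ := Nat.exists_eq_add_of_le hab
    have := pow_uniq_aux b d m' m h.symm
    omega

lemma abs_two_pow_mul (a : ℕ) (m : ℤ) : (2 : ℤ) ^ a ≤ |2 ^ a * (2 * m + 1)| := by
  rw [abs_mul, abs_of_pos (by positivity : (0 : ℤ) < 2 ^ a)]
  have : 1 ≤ |2 * m + 1| := Int.one_le_abs (by omega)
  nlinarith [(by positivity : (0 : ℤ) < 2 ^ a)]

lemma shift_T0 (K : ℕ) (n : ℤ) (hn : |n| < 2 ^ (2 * K)) :
    n + 2 ^ (2 * K) ∈ T0 ↔ n ∈ T0 := by
  constructor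
  · rintro ⟨k, m, h⟩
    by_cases hk : k < K
    · refine ⟨k, m - 2 ^ (2 * K - 2 * k - 2), ?_⟩
      have e : (2 : ℤ) ^ (2 * K) = 2 ^ (2 * k + 1) * (2 * 2 ^ (2 * K - 2 * k - 2)) := by
        rw [← pow_succ', ← pow_add]; congr 1; omega
      rw [e] at h
      linear_combination h
    · exfalso
      obtain ⟨d, rfl⟩ : ∃ d, k = K + d := ⟨k - K, by omega⟩
      have e : (2 : ℤ) ^ (2 * (K + d) + 1) = 2 ^ (2 * K) * (2 * 2 ^ (2 * d)) := by
        rw [← pow_succ', ← pow_add]; congr 1; omega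
      have h2 : n = 2 ^ (2 * K) * (2 * (2 ^ (2 * d) * (2 * m + 1) - 1) + 1) := by
        rw [e] at h
        linear_combination h
      have := abs_two_pow_mul (2 * K) (2 ^ (2 * d) * (2 * m + 1) - 1)
      rw [← h2] at this
      omega
  · rintro ⟨k, m, h⟩
    have h1 := abs_two_pow_mul (2 * k + 1) m
    rw [← h] at h1
    have h2 : (2 : ℤ) ^ (2 * k + 1) < 2 ^ (2 * K) := lt_of_le_of_lt h1 hn
    have hk : 2 * k + 1 < 2 * K := (pow_lt_pow_iff_right₀ (by norm_num)).1 h2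
    refine ⟨k, m + 2 ^ (2 * K - 2 * k - 2), ?_⟩
    have e : (2 : ℤ) ^ (2 * K) = 2 ^ (2 * k + 1) * (2 * 2 ^ (2 * K - 2 * k - 2)) := by
      rw [← pow_succ', ← pow_add]; congr 1; omega
    rw [e, h]; ring

lemma T0_recurrent (R : ℤ) : ∃ u : ℤ, (∀ n, |n| ≤ R → (n + u ∈ T0 ↔ n ∈ T0)) ∧
    ∃ m, ¬ (m + u ∈ T0 ↔ m ∈ T0) := by
  obtain ⟨K, hK⟩ : ∃ K : ℕ, R < 2 ^ (2 * K) := by
    refine ⟨R.toNat, ?_⟩
    have h1 : R ≤ R.toNat := Int.self_le_toNat R
    have h2 : R.toNat < 2 ^ R.toNat := Nat.lt_two_pow_self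
    have h3 : (2 : ℕ) ^ R.toNat ≤ 2 ^ (2 * R.toNat) := Nat.pow_le_pow_right (by norm_num) (by omega)
    have h4 : ((R.toNat : ℕ) : ℤ) < ((2 ^ (2 * R.toNat) : ℕ) : ℤ) := by
      exact_mod_cast lt_of_lt_of_le h2 h3
    push_cast at h4
    linarith
  refine ⟨2 ^ (2 * K), ?_, 2 ^ (2 * K), ?_⟩
  · intro n hn
    exact shift_T0 K n (lt_of_le_of_lt hn hK)
  · intro h
    have h1 : (2 : ℤ) ^ (2 * K) + 2 ^ (2 * K) ∈ T0 := ⟨K, 0, by rw [pow_succ]; ring⟩
    obtain ⟨k, m, h2⟩ := h.1 h1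
    have h3 : (2 : ℤ) ^ (2 * K) * (2 * 0 + 1) = 2 ^ (2 * k + 1) * (2 * m + 1) := by
      rw [← h2]; ring
    have := pow_uniq _ _ _ _ h3
    omega

lemma T0_even {n : ℤ} (h : n ∈ T0) : n % 2 = 0 := by
  obtain ⟨k, m, h⟩ := h
  rw [pow_succ] at h
  have : n = 2 * (2 ^ (2 * k) * (2 * m + 1)) := by rw [h]; ring
  omega

lemma zero_notMem_T0 : (0 : ℤ) ∉ T0 := by
  rintro ⟨k, m, h⟩
  have h1 : (2 * m + 1 : ℤ) ≠ 0 := by omega
  have h2 : (2 : ℤ) ^ (2 * k + 1) ≠ 0 := by positivity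
  exact mul_ne_zero h2 h1 h.symm

def T1 : Set ℤ := insert 1 T0

lemma T1_odd {n : ℤ} (h : n ∈ T1) (h2 : n % 2 = 1) : n = 1 := by
  rcases h with h | h
  · exact h
  · have := T0_even h; omega

lemma zero_notMem_T1 : (0 : ℤ) ∉ T1 := by
  rintro (h | h)
  · omega
  · exact zero_notMem_T0 h

lemma one_notMem_T0 : (1 : ℤ) ∉ T0 := by
  intro h
  have := T0_even h
  omega

lemma two_mem_T1 : (2 : ℤ) ∈ T1 := Or.inr ⟨0, 0, by norm_num⟩
lemma six_mem_T1 : (6 : ℤ) ∈ T1 := Or.inr ⟨0, 1, by norm_num⟩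
lemma one_mem_T1 : (1 : ℤ) ∈ T1 := Or.inl rfl

lemma T1_no_three (D : ℤ) : ¬ (D + 1 ∈ T1 ∧ D + 2 ∈ T1 ∧ D + 3 ∈ T1) := by
  rintro ⟨h1, h2, h3⟩
  rcases Int.emod_two_eq_zero_or_one D with h | h
  · have e1 := T1_odd h1 (by omega)
    have e3 := T1_odd h3 (by omega)
    omega
  · have e2 := T1_odd h2 (by omega)
    have : D + 1 = 0 := by omega
    rw [this] at h1
    exact zero_notMem_T1 h1

lemma T1_pair {n : ℤ} (h1 : n ∈ T1) (h2 : n + 1 ∈ T1) : n = 1 := by
  rcases Int.emod_two_eq_zero_or_one n with h | h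
  · have e := T1_odd h2 (by omega)
    have : n = 0 := by omega
    rw [this] at h1
    exact absurd h1 zero_notMem_T1
  · exact T1_odd h1 h

theorem condensed_T0 : Condensed (A ⧸ V T0) := condensed_of_recurrent T0 T0_recurrent

/-! ### the quotient map -/

noncomputable def qmap : A ⧸ V T0 →* A ⧸ V T1 :=
  QuotientGroup.map (V T0) (V T1) (MonoidHom.id A) (by
    intro g hg
    obtain ⟨h1, h2, h3, h4⟩ := hg
    exact ⟨h1, h2, h3, fun n hn => Or.inr (h4 n hn)⟩)

lemma qmap_mk (g : A) : qmap (QuotientGroup.mk g) = QuotientGroup.mk g := rfl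

lemma qmap_surj : Function.Surjective qmap := by
  intro y
  obtain ⟨g, rfl⟩ := QuotientGroup.mk_surjective y
  exact ⟨QuotientGroup.mk g, rfl⟩

lemma qmap_ker : (qmap.ker : Set (A ⧸ V T0)) = {1, QuotientGroup.mk (cen (T 1))} := by
  ext y
  obtain ⟨g, rfl⟩ := QuotientGroup.mk_surjective y
  rw [SetLike.mem_coe, MonoidHom.mem_ker, qmap_mk, QuotientGroup.eq_one_iff]
  simp only [Set.mem_insert_iff, Set.mem_singleton_iff]
  constructor
  · intro hg
    obtain ⟨h1, h2, h3, h4⟩ := hg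
    have hcase : g.c.coeff 1 = 0 ∨ g.c.coeff 1 = 1 := by
      generalize g.c.coeff 1 = w
      revert w; decide
    rcases hcase with h5 | h5
    · left
      rw [QuotientGroup.eq_one_iff]
      refine ⟨h1, h2, h3, ?_⟩
      intro n hn
      rcases h4 n hn with h | h
      · rw [h] at hn; exact absurd h5 hn
      · exact h
    · right
      symm
      rw [QuotientGroup.eq]
      have e : (cen (T 1))⁻¹ * g = cen (T 1 + g.c) := by
        rw [V_eq_cen (S := T1) ⟨h1, h2, h3, h4⟩]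
        ext1 <;> simp [cen, L_neg]
      rw [e]
      refine ⟨rfl, rfl, rfl, ?_⟩
      intro n hn
      have hn' : (T 1 : L).coeff n + g.c.coeff n ≠ 0 := hn
      rw [T_apply] at hn'
      by_cases hn1 : 1 = n
      · exfalso
        rw [if_pos hn1, ← hn1, h5] at hn'
        exact hn' (by decide)
      · rw [if_neg hn1, zero_add] at hn'
        rcases h4 n hn' with h | h
        · exact absurd h.symm hn1
        · exact h
  · rintro (h | h)
    · rw [QuotientGroup.eq_one_iff] at h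
      obtain ⟨h1, h2, h3, h4⟩ := h
      exact ⟨h1, h2, h3, fun n hn => Or.inr (h4 n hn)⟩
    · have h' := h.symm
      rw [QuotientGroup.eq] at h'
      have h5 : (cen (T 1))⁻¹ * g ∈ V T1 := by
        obtain ⟨h1, h2, h3, h4⟩ := h'
        exact ⟨h1, h2, h3, fun n hn => Or.inr (h4 n hn)⟩
      have h6 : cen (T 1) ∈ V T1 := cen_T_mem.2 one_mem_T1
      have := (V T1).mul_mem h6 h5
      rwa [mul_inv_cancel_left] at this

lemma qmap_ker_card : Nat.card qmap.ker = 2 := by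
  have h : Nat.card qmap.ker = (qmap.ker : Set (A ⧸ V T0)).ncard := rfl
  rw [h, qmap_ker, Set.ncard_pair]
  intro h1
  have h2 := h1.symm
  rw [QuotientGroup.eq_one_iff, cen_T_mem] at h2
  exact one_notMem_T0 h2

lemma qmap_ker_central : qmap.ker ≤ Subgroup.center (A ⧸ V T0) := by
  intro y hy
  have hy' : y ∈ (qmap.ker : Set (A ⧸ V T0)) := hy
  rw [qmap_ker] at hy'
  rcases hy' with h | h
  · rw [h]; exact Subgroup.one_mem _
  · rw [h, Subgroup.mem_center_iff]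
    intro z
    obtain ⟨g, rfl⟩ := QuotientGroup.mk_surjective z
    show (QuotientGroup.mk (g * cen (T 1)) : A ⧸ V T0) = QuotientGroup.mk (cen (T 1) * g)
    rw [cen_comm]

/-! ### quasi-isometry -/

section QI
variable {G H : Type} [Group G] [Group H]

lemma wl_le {S : Set G} (l : List G) (h : ∀ s ∈ l, s ∈ S ∨ s⁻¹ ∈ S) :
    wordLength S l.prod ≤ l.length :=
  Nat.sInf_le ⟨l, rfl, h, rfl⟩

lemma wl_spec {S : Set G} (hS : Subgroup.closure S = ⊤) (g : G) :
    ∃ l : List G, l.length = wordLength S g ∧ (∀ s ∈ l, s ∈ S ∨ s⁻¹ ∈ S) ∧ l.prod = g := by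
  have : ({k | ∃ l : List G, l.length = k ∧ (∀ s ∈ l, s ∈ S ∨ s⁻¹ ∈ S) ∧ l.prod = g} :
      Set ℕ).Nonempty := by
    have hg : g ∈ Subgroup.closure S := by rw [hS]; trivial
    have hg' : g ∈ (Subgroup.closure S).toSubmonoid := hg
    rw [Subgroup.closure_toSubmonoid] at hg'
    obtain ⟨l, h1, h2⟩ := Submonoid.exists_list_of_mem_closure hg'
    refine ⟨l.length, l, rfl, ?_, h2⟩
    intro s hs
    rcases h1 s hs with h | h
    · exact Or.inl h
    · exact Or.inr h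
  exact Nat.sInf_mem this

lemma wl_one {S : Set G} : wordLength S (1 : G) = 0 := by
  have := wl_le (S := S) [] (by simp)
  simpa using this

lemma wl_mul {S : Set G} (hS : Subgroup.closure S = ⊤) (g h : G) :
    wordLength S (g * h) ≤ wordLength S g + wordLength S h := by
  obtain ⟨l, h1, h2, h3⟩ := wl_spec hS g
  obtain ⟨l', h1', h2', h3'⟩ := wl_spec hS h
  have := wl_le (S := S) (l ++ l') (by
    intro s hs
    rcases List.mem_append.1 hs with hs | hs
    · exact h2 s hs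
    · exact h2' s hs)
  rw [List.prod_append, h3, h3', List.length_append, h1, h1'] at this
  exact this

lemma finite_sym {S : Set G} (h : S.Finite) : {s | s ∈ S ∨ s⁻¹ ∈ S}.Finite := by
  have : {s | s ∈ S ∨ s⁻¹ ∈ S} = S ∪ (fun s => s⁻¹) ⁻¹' S := rfl
  rw [this]
  exact h.union (h.preimage inv_injective.injOn)

lemma exists_bound {α : Type} {s : Set α} (h : s.Finite) (f : α → ℕ) :
    ∃ K, ∀ a ∈ s, f a ≤ K := by
  obtain ⟨K, hK⟩ := (h.image f).bddAbove
  exact ⟨K, fun a ha => hK ⟨a, ha, rfl⟩⟩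

theorem qi_of_finite_kernel (φ : G →* H) (hφ : Function.Surjective φ)
    (hk : (φ.ker : Set G).Finite) : QuasiIsometric G H := by
  intro S T' hS hT hS1 hT1
  obtain ⟨K1, hK1⟩ := exists_bound (finite_sym hS) (fun s => wordLength T' (φ s))
  obtain ⟨K2, hK2⟩ := exists_bound (finite_sym hT) (fun t => wordLength S (Function.surjInv hφ t))
  obtain ⟨C, hC⟩ := exists_bound hk (fun k => wordLength S k)
  have h1 : ∀ l : List G, (∀ s ∈ l, s ∈ S ∨ s⁻¹ ∈ S) →
      wordLength T' (φ l.prod) ≤ K1 * l.length := by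
    intro l
    induction l with
    | nil => intro _; simp [wl_one]
    | cons s l ih =>
      intro hl
      have e1 := ih (fun s hs => hl s (by simp [hs]))
      have e2 := hK1 s (hl s (by simp))
      have e3 := wl_mul hT1 (φ s) (φ l.prod)
      rw [List.prod_cons, map_mul, List.length_cons]
      have : K1 * (l.length + 1) = K1 * l.length + K1 := by ring
      omega
  have h2 : ∀ l : List H, (∀ s ∈ l, s ∈ T' ∨ s⁻¹ ∈ T') →
      ∃ g, φ g = l.prod ∧ wordLength S g ≤ K2 * l.length := by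
    intro l
    induction l with
    | nil => intro _; exact ⟨1, by simp, by simp [wl_one]⟩
    | cons t l ih =>
      intro hl
      obtain ⟨g, hg1, hg2⟩ := ih (fun s hs => hl s (by simp [hs]))
      refine ⟨Function.surjInv hφ t * g, ?_, ?_⟩
      · rw [map_mul, Function.surjInv_eq hφ, hg1, List.prod_cons]
      · have e2 := hK2 t (hl t (by simp))
        have e3 := wl_mul hS1 (Function.surjInv hφ t) g
        rw [List.length_cons]
        have : K2 * (l.length + 1) = K2 * l.length + K2 := by ring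
        omega
  have h3 : ∀ g, wordLength T' (φ g) ≤ K1 * wordLength S g := by
    intro g
    obtain ⟨l, e1, e2, e3⟩ := wl_spec hS1 g
    rw [← e1]
    conv_lhs => rw [← e3]
    exact h1 l e2
  have h4 : ∀ g, wordLength S g ≤ K2 * wordLength T' (φ g) + C := by
    intro g
    obtain ⟨l, e1, e2, e3⟩ := wl_spec hT1 (φ g)
    obtain ⟨g', hg1, hg2⟩ := h2 l e2
    have hk' : g'⁻¹ * g ∈ (φ.ker : Set G) := by
      rw [SetLike.mem_coe, MonoidHom.mem_ker, map_mul, map_inv, hg1, e3]; group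
    have e4 := hC _ hk'
    have e5 := wl_mul hS1 g' (g'⁻¹ * g)
    rw [mul_inv_cancel_left] at e5
    rw [e1] at hg2
    omega
  refine ⟨φ, max K1 K2, C, ?_, ?_, ?_⟩
  · intro x y
    have e := h3 (x⁻¹ * y)
    rw [map_mul, map_inv] at e
    have : K1 * wordLength S (x⁻¹ * y) ≤ max K1 K2 * wordLength S (x⁻¹ * y) :=
      Nat.mul_le_mul_right _ (le_max_left _ _)
    omega
  · intro x y
    have e := h4 (x⁻¹ * y)
    rw [map_mul, map_inv] at e
    have : K2 * wordLength T' ((φ x)⁻¹ * φ y) ≤ max K1 K2 * wordLength T' ((φ x)⁻¹ * φ y) :=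
      Nat.mul_le_mul_right _ (le_max_right _ _)
    omega
  · intro h
    obtain ⟨x, rfl⟩ := hφ h
    exact ⟨x, by rw [inv_mul_cancel, wl_one]; omega⟩

end QI

lemma qi_main : QuasiIsometric (A ⧸ V T0) (A ⧸ V T1) :=
  qi_of_finite_kernel qmap qmap_surj (by rw [qmap_ker]; exact Set.toFinite _)

end Pool.Agent.H67R3.Cond
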