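import Pool.Agent.H67R3.Cond4

set_option autoImplicit false

namespace Pool.Agent.H67R3.Cond

open LaurentPolynomial CondDefs

/-! ### units of `L` -/

lemma unit_monomial (p q : L) (h : p * q = 1) : ∃ n, p = T n := by
  obtain ⟨n, p', hp⟩ := exists_T_pow p
  obtain ⟨m, q', hq⟩ := exists_T_pow q
  have h1 : Polynomial.toLaurent (p' * q') = Polynomial.toLaurent (Polynomial.X ^ (n + m)) := by
    rw [map_mul, hp, hq, Polynomial.toLaurent_X_pow]
    push_cast
    rw [T_add]
    linear_combination (T (n : ℤ) * T (m : ℤ)) * h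
  have h2 : p' * q' = Polynomial.X ^ (n + m) := Polynomial.toLaurent_injective h1
  have h3 : p' ∣ Polynomial.X ^ (n + m) := ⟨q', h2.symm⟩
  obtain ⟨i, -, hi⟩ := (dvd_prime_pow Polynomial.prime_X _).1 h3
  obtain ⟨u, hu⟩ := hi
  obtain ⟨r, hr1, hr2⟩ := Polynomial.isUnit_iff.1 u.isUnit
  have hr : r = 1 := by
    have h5 : ∀ r : ZMod 2, r ≠ 0 → r = 1 := by decide
    exact h5 r hr1.ne_zero
  rw [← hr2, hr, Polynomial.C_1, mul_one] at hu
  refine ⟨i - n, ?_⟩
  rw [hu, Polynomial.toLaurent_X_pow] at hp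
  have h5 : p = p * T (n : ℤ) * T (-(n : ℤ)) := by
    rw [mul_assoc, T_mul_T]; simp
  rw [h5, ← hp, T_mul_T]
  rfl

lemma exists_max (P : L) (hP : P ≠ 0) : ∃ D, P.coeff D ≠ 0 ∧ ∀ n, D < n → P.coeff n = 0 := by
  have hne : P.coeff.support.Nonempty := by
    rw [Finsupp.support_nonempty_iff]
    intro h
    apply hP
    apply LaurentPolynomial.ext
    intro a
    rw [h]; rfl
  refine ⟨P.coeff.support.max' hne, ?_, ?_⟩
  · exact Finsupp.mem_support_iff.1 (Finset.max'_mem _ hne)
  · intro n hn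
    by_contra h
    have := Finset.le_max' P.coeff.support n (Finsupp.mem_support_iff.2 h)
    omega

/-- no nonzero `P` has `(T j + T (-j)) * P` supported in `T1` for `j = 1, 2, 3` -/
lemma P_zero (P : L) (h : ∀ j : ℤ, j = 1 ∨ j = 2 ∨ j = 3 → ∀ n, (T j * P + T (-j) * P).coeff n ≠ 0 → n ∈ T1) :
    P = 0 := by
  by_contra hP
  obtain ⟨D, hD1, hD2⟩ := exists_max P hP
  have key : ∀ j : ℤ, j = 1 ∨ j = 2 ∨ j = 3 → D + j ∈ T1 := by
    intro j hj
    apply h j hj
    have e : (T j * P + T (-j) * P).coeff (D + j) =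
      (T j * P).coeff (D + j) + (T (-j) * P).coeff (D + j) := rfl
    rw [e, coeff_T_mul, coeff_T_mul]
    have e1 : D + j - j = D := by ring
    have e2 : P.coeff (D + j - -j) = 0 := hD2 _ (by rcases hj with h | h | h <;> omega)
    rw [e1, e2, add_zero]
    exact hD1
  exact T1_no_three D ⟨key 1 (by simp), key 2 (by simp), key 3 (by simp)⟩

/-! ### coordinates -/

lemma conj_coords (s x : A) (hx : x.k = 0) :
    (s * x * s⁻¹).a = T s.k * x.a ∧ (s * x * s⁻¹).b = T s.k * x.b ∧ (s * x * s⁻¹).k = 0 := by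
  refine ⟨?_, ?_, ?_⟩
  · simp only [A.mul_a, A.mul_k, A.inv_a, hx, add_zero, mul_neg, T_mul_T_neg]; ring
  · simp only [A.mul_b, A.mul_k, A.inv_b, hx, add_zero, mul_neg, T_mul_T_neg]; ring
  · simp [hx]

/-- the cursor as a homomorphism -/
noncomputable def kHom : A →* Multiplicative ℤ where
  toFun g := Multiplicative.ofAdd g.k
  map_one' := rfl
  map_mul' _ _ := rfl

lemma zpow_k (t : A) (n : ℤ) : (t ^ n).k = n * t.k := by
  have h := map_zpow kHom t n
  have h2 : (t ^ n).k = Multiplicative.toAdd (kHom t ^ n) := by rw [← h]; rfl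
  rw [h2, toAdd_zpow]
  rfl

lemma cj_coords (t x : A) (hx : x.k = 0) (j : ℤ) :
    (cj t x j).a = T (j * t.k) * x.a ∧ (cj t x j).b = T (j * t.k) * x.b ∧ (cj t x j).k = 0 := by
  have := conj_coords (t ^ j) x hx
  rw [zpow_k] at this
  exact this

lemma ph_T_left (u : ℤ) (a b : L) : ph (T u * a) b = T (-u) * ph a b := by
  unfold ph
  rw [map_mul, invert_T]; ring

lemma comm_cj (t x y : A) (hx : x.k = 0) (hy : y.k = 0) (j : ℤ) :
    x * cj t y j * x⁻¹ * (cj t y j)⁻¹ =
      cen (T (j * t.k) * ph x.a y.b + T (-(j * t.k)) * ph y.a x.b) := by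
  obtain ⟨h1, h2, h3⟩ := cj_coords t y hy j
  rw [comm0 x (cj t y j) hx h3, h1, h2, ph_mul_right, ph_T_left]

lemma ph_eq_zero {a b : L} (h : ph a b = 0) : a = 0 ∨ b = 0 := by
  unfold ph at h
  rcases mul_eq_zero.1 h with h | h
  · left
    have := congrArg invert h
    rw [map_zero] at this
    rw [← this]
    exact (involutive_invert a).symm
  · exact Or.inr h

/-! ### generation -/

lemma span_top_b (x y t : A) (hx : x.k = 0) (hy : y.k = 0) (ht : t.k * t.k = 1)
    (hgen : Subgroup.closure ({x, y, t} : Set A) = ⊤) (I : Ideal L) (hxI : x.b ∈ I)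
    (hyI : y.b ∈ I) : (1 : L) ∈ I := by
  have hv : ∀ k l : ℤ, (t ^ (t.k * (k + l))).b = (t ^ (t.k * k)).b + T k * (t ^ (t.k * l)).b := by
    intro k l
    rw [mul_add, zpow_add, A.mul_b, zpow_k]
    congr 3
    calc t.k * k * t.k = t.k * t.k * k := by ring
      _ = k := by rw [ht, one_mul]
  have hv0 : (t ^ (t.k * 0)).b = 0 := by simp
  have key : ∀ g ∈ Subgroup.closure ({x, y, t} : Set A), g.b - (t ^ (t.k * g.k)).b ∈ I := by
    intro g hg
    induction hg using Subgroup.closure_induction with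
    | mem g hg =>
      simp only [Set.mem_insert_iff, Set.mem_singleton_iff] at hg
      rcases hg with h | h | h
      · rw [h, hx, hv0, sub_zero]; exact hxI
      · rw [h, hy, hv0, sub_zero]; exact hyI
      · rw [h, ht, zpow_one, sub_self]; exact I.zero_mem
    | one =>
      rw [A.one_k, hv0, A.one_b, sub_zero]; exact I.zero_mem
    | mul g h _ _ ihg ihh =>
      rw [A.mul_k, hv, A.mul_b]
      have e : g.b + T g.k * h.b - ((t ^ (t.k * g.k)).b + T g.k * (t ^ (t.k * h.k)).b) =
          (g.b - (t ^ (t.k * g.k)).b) + T g.k * (h.b - (t ^ (t.k * h.k)).b) := by ring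
      rw [e]
      exact I.add_mem ihg (I.mul_mem_left _ ihh)
    | inv g _ ih =>
      have h1 := hv (-g.k) g.k
      rw [neg_add_cancel, hv0] at h1
      rw [A.inv_k, A.inv_b]
      have e : -(T (-g.k) * g.b) - (t ^ (t.k * -g.k)).b =
          -(T (-g.k) * (g.b - (t ^ (t.k * g.k)).b)) := by
        linear_combination h1
      rw [e]
      exact I.neg_mem (I.mul_mem_left _ ih)
  have h1 := key yg (by rw [hgen]; trivial)
  have e1 : yg.k = 0 := rfl
  have e2 : yg.b = 1 := rfl
  rw [e1, e2, hv0, sub_zero] at h1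
  exact h1

lemma span_top_a (x y t : A) (hx : x.k = 0) (hy : y.k = 0) (ht : t.k * t.k = 1)
    (hgen : Subgroup.closure ({x, y, t} : Set A) = ⊤) (I : Ideal L) (hxI : x.a ∈ I)
    (hyI : y.a ∈ I) : (1 : L) ∈ I := by
  have hv : ∀ k l : ℤ, (t ^ (t.k * (k + l))).a = (t ^ (t.k * k)).a + T k * (t ^ (t.k * l)).a := by
    intro k l
    rw [mul_add, zpow_add, A.mul_a, zpow_k]
    congr 3
    calc t.k * k * t.k = t.k * t.k * k := by ring
      _ = k := by rw [ht, one_mul]
  have hv0 : (t ^ (t.k * 0)).a = 0 := by simp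
  have key : ∀ g ∈ Subgroup.closure ({x, y, t} : Set A), g.a - (t ^ (t.k * g.k)).a ∈ I := by
    intro g hg
    induction hg using Subgroup.closure_induction with
    | mem g hg =>
      simp only [Set.mem_insert_iff, Set.mem_singleton_iff] at hg
      rcases hg with h | h | h
      · rw [h, hx, hv0, sub_zero]; exact hxI
      · rw [h, hy, hv0, sub_zero]; exact hyI
      · rw [h, ht, zpow_one, sub_self]; exact I.zero_mem
    | one =>
      rw [A.one_k, hv0, A.one_a, sub_zero]; exact I.zero_mem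
    | mul g h _ _ ihg ihh =>
      rw [A.mul_k, hv, A.mul_a]
      have e : g.a + T g.k * h.a - ((t ^ (t.k * g.k)).a + T g.k * (t ^ (t.k * h.k)).a) =
          (g.a - (t ^ (t.k * g.k)).a) + T g.k * (h.a - (t ^ (t.k * h.k)).a) := by ring
      rw [e]
      exact I.add_mem ihg (I.mul_mem_left _ ihh)
    | inv g _ ih =>
      have h1 := hv (-g.k) g.k
      rw [neg_add_cancel, hv0] at h1
      rw [A.inv_k, A.inv_a]
      have e : -(T (-g.k) * g.a) - (t ^ (t.k * -g.k)).a =
          -(T (-g.k) * (g.a - (t ^ (t.k * g.k)).a)) := by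
        linear_combination h1
      rw [e]
      exact I.neg_mem (I.mul_mem_left _ ih)
  have h1 := key xg (by rw [hgen]; trivial)
  have e1 : xg.k = 0 := rfl
  have e2 : xg.a = 1 := rfl
  rw [e1, e2, hv0, sub_zero] at h1
  exact h1

lemma unit_of_span {a b : L} (ha : a = 0) (h : ∀ I : Ideal L, a ∈ I → b ∈ I → (1 : L) ∈ I) :
    ∃ n, b = T n := by
  have h1 := h (Ideal.span {b}) (by rw [ha]; exact Ideal.zero_mem _)
    (Ideal.subset_span (Set.mem_singleton b))
  rw [Ideal.mem_span_singleton] at h1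
  obtain ⟨c, hc⟩ := h1
  exact unit_monomial b c hc.symm

lemma tk_sq (x y t : A) (hx : x.k = 0) (hy : y.k = 0)
    (hgen : Subgroup.closure ({x, y, t} : Set A) = ⊤) : t.k * t.k = 1 := by
  have key : ∀ g ∈ Subgroup.closure ({x, y, t} : Set A), t.k ∣ g.k := by
    intro g hg
    induction hg using Subgroup.closure_induction with
    | mem g hg =>
      simp only [Set.mem_insert_iff, Set.mem_singleton_iff] at hg
      rcases hg with h | h | h
      · rw [h, hx]; exact dvd_zero _
      · rw [h, hy]; exact dvd_zero _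
      · rw [h]
    | one => exact dvd_zero _
    | mul g h _ _ ihg ihh => exact dvd_add ihg ihh
    | inv g _ ih => exact (dvd_neg).2 ih
  have h1 : t.k ∣ 1 := key tg (by rw [hgen]; trivial)
  exact Int.isUnit_mul_self (isUnit_of_dvd_one h1)

/-! ### rigidity -/

lemma commutator_k (x y : A) (h : x * y ∈ V T1) : x.k + y.k = 0 := h.2.2.1

theorem rigid (x y t : A) (hgen : Subgroup.closure ({x, y, t} : Set A) = ⊤)
    (hx2 : x * x ∈ V T1) (hy2 : y * y ∈ V T1)
    (hxx : ∀ j : ℤ, j = 1 ∨ j = 2 ∨ j = 3 → x * cj t x j * x⁻¹ * (cj t x j)⁻¹ ∈ V T1)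
    (hyy : ∀ j : ℤ, j = 1 ∨ j = 2 ∨ j = 3 → y * cj t y j * y⁻¹ * (cj t y j)⁻¹ ∈ V T1)
    (hxy : ∀ j : ℤ, j = 1 ∨ j = 2 ∨ j = 6 → x * cj t y j * x⁻¹ * (cj t y j)⁻¹ ∈ V T1) :
    ∃ σ : A →* A, σ xg = x ∧ σ yg = y ∧ σ tg = t ∧ ∀ g, σ g ∈ V T1 ↔ g ∈ V T1 := by
  have hx : x.k = 0 := by have := commutator_k x x hx2; omega
  have hy : y.k = 0 := by have := commutator_k y y hy2; omega
  have ht := tk_sq x y t hx hy hgen
  have ht' : t.k = 1 ∨ t.k = -1 := Int.isUnit_iff.1 (IsUnit.of_mul_eq_one _ ht)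
  -- self-pairings vanish
  have self : ∀ z : A, z.k = 0 →
      (∀ j : ℤ, j = 1 ∨ j = 2 ∨ j = 3 → z * cj t z j * z⁻¹ * (cj t z j)⁻¹ ∈ V T1) →
      ph z.a z.b = 0 := by
    intro z hz hzz
    apply P_zero
    intro j hj n hn
    have h1 := hzz j hj
    rw [comm_cj t z z hz hz] at h1
    obtain ⟨-, -, -, h2⟩ := h1
    apply h2 n
    show (T (j * t.k) * ph z.a z.b + T (-(j * t.k)) * ph z.a z.b).coeff n ≠ 0
    rcases ht' with h | h
    · rw [h, mul_one]; exact hn
    · rw [h, mul_neg_one, neg_neg, add_comm]; exact hn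
  have hPx := self x hx hxx
  have hPy := self y hy hyy
  -- squares
  have sq : ∀ z : A, z.k = 0 → ph z.a z.b = 0 → z * z = 1 := by
    intro z hz hP
    ext1
    · simp only [A.mul_a, hz, T_zero, one_mul, L_add_self, A.one_a]
    · simp only [A.mul_b, hz, T_zero, one_mul, L_add_self, A.one_b]
    · simp only [A.mul_c, hz, T_zero, one_mul, L_add_self, A.one_c, hP, add_zero]
    · simp [hz]
  have comm : ∀ z : A, z.k = 0 → ph z.a z.b = 0 → ∀ i, z * cj t z i = cj t z i * z := by
    intro z hz hP i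
    have h1 := comm_cj t z z hz hz i
    rw [hP, mul_zero, mul_zero, add_zero, cen_zero] at h1
    have h2 : z * cj t z i = (z * cj t z i * z⁻¹ * (cj t z i)⁻¹) * (cj t z i * z) := by group
    rw [h1, one_mul] at h2
    exact h2
  -- monomials
  have mono : ∃ u τ : ℤ, (τ = 1 ∨ τ = -1) ∧
      ∀ j, x * cj t y j * x⁻¹ * (cj t y j)⁻¹ = cen (T (u + τ * j)) := by
    have genb := fun I h1 h2 => span_top_b x y t hx hy ht hgen I h1 h2
    have gena := fun I h1 h2 => span_top_a x y t hx hy ht hgen I h1 h2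
    have genb' : ∀ I : Ideal L, y.b ∈ I → x.b ∈ I → (1 : L) ∈ I := fun I h1 h2 => genb I h2 h1
    have gena' : ∀ I : Ideal L, y.a ∈ I → x.a ∈ I → (1 : L) ∈ I := fun I h1 h2 => gena I h2 h1
    have hne : ∀ n : ℤ, (T n : L) ≠ 0 := fun n => (isUnit_T n).ne_zero
    rcases ph_eq_zero hPx with hxa | hxb
    · -- x.a = 0
      obtain ⟨p, hp⟩ := unit_of_span hxa gena
      have hyb : y.b = 0 := by
        rcases ph_eq_zero hPy with h | h
        · rw [h] at hp; exact absurd hp.symm (hne p)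
        · exact h
      obtain ⟨q, hq⟩ := unit_of_span hyb genb'
      refine ⟨q - p, -t.k, ?_, ?_⟩
      · rcases ht' with h | h <;> rw [h] <;> simp
      · intro j
        rw [comm_cj t x y hx hy, hxa, hyb, hp, hq, ph_zero_left, mul_zero, zero_add, ph_TT, T_mul_T]
        congr 2
        ring
    · obtain ⟨q, hq⟩ := unit_of_span hxb genb
      have hya : y.a = 0 := by
        rcases ph_eq_zero hPy with h | h
        · exact h
        · rw [h] at hq; exact absurd hq.symm (hne q)
      obtain ⟨p, hp⟩ := unit_of_span hya gena'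
      refine ⟨q - p, t.k, ht', ?_⟩
      intro j
      rw [comm_cj t x y hx hy, hxb, hya, hp, hq, ph_zero_left, mul_zero, add_zero, ph_TT, T_mul_T]
      congr 2
      ring
  obtain ⟨u, τ, hτ, hu⟩ := mono
  have hzc : ∀ m (w : A), (x * cj t y m * x⁻¹ * (cj t y m)⁻¹) * w =
      w * (x * cj t y m * x⁻¹ * (cj t y m)⁻¹) := by
    intro m w
    rw [hu, cen_comm]
  obtain ⟨σ, hσx, hσy, hσt⟩ := exists_sigma x y t (sq x hx hPx) (sq y hy hPy)
    (comm x hx hPx) (comm y hy hPy) (fun m => hzc m x) (fun m => hzc m y) (fun m => hzc m t)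
  refine ⟨σ, hσx, hσy, hσt, ?_⟩
  -- the action on the centre
  have hstd : ∀ j : ℤ, xg * cj tg yg j * xg⁻¹ * (cj tg yg j)⁻¹ = cen (T j) := by
    intro j
    rw [comm_cj tg xg yg rfl rfl]
    have e1 : ph xg.a yg.b = 1 := by simp [ph, xg, yg]
    have e2 : ph yg.a xg.b = 0 := by simp [ph, xg, yg]
    have e3 : tg.k = 1 := rfl
    rw [e1, e2, e3]; simp
  have hσcj : ∀ j, σ (cj tg yg j) = cj t y j := by
    intro j
    unfold cj
    rw [map_mul, map_mul, map_inv, map_zpow, hσy, hσt]
  have hσT : ∀ j, σ (cen (T j)) = cen (T (u + τ * j)) := by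
    intro j
    rw [← hstd, ← hu j]
    simp only [map_mul, map_inv, hσcj, hσx]
  have hm : ∀ j : ℤ, j = 1 ∨ j = 2 ∨ j = 6 → u + τ * j ∈ T1 := by
    intro j hj
    have := hxy j hj
    rw [hu j, cen_T_mem] at this
    exact this
  have hut : u = 0 ∧ τ = 1 := by
    have m1 := hm 1 (by simp)
    have m2 := hm 2 (by simp)
    have m6 := hm 6 (by simp)
    rcases hτ with h | h
    · rw [h] at m1 m2
      have e : u + 1 * 2 = (u + 1 * 1) + 1 := by ring
      rw [e] at m2
      have := T1_pair m1 m2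
      exact ⟨by omega, h⟩
    · rw [h] at m1 m2 m6
      have e : u + -1 * 1 = (u + -1 * 2) + 1 := by ring
      rw [e] at m1
      have h3 := T1_pair m2 m1
      have h4 : u + -1 * 6 = -3 := by omega
      rw [h4] at m6
      have := T1_odd m6 (by norm_num)
      omega
  have hσc : ∀ c, σ (cen c) = cen c := by
    intro c
    refine L_ind (M := fun c => σ (cen c) = cen c) c ?_ ?_ ?_
    · rw [cen_zero, map_one]
    · intro n
      rw [hσT, hut.1, hut.2]
      congr 2
      ring
    · intro p q hp hq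
      rw [← cen_mul, map_mul, hp, hq]
  -- the kernel of σ is trivial
  have hσk : ∀ g, (σ g).k = t.k * g.k := by
    intro g
    have hg : g ∈ Subgroup.closure ({xg, yg, tg} : Set A) := by rw [closure_gen]; trivial
    induction hg using Subgroup.closure_induction with
    | mem g hg =>
      simp only [Set.mem_insert_iff, Set.mem_singleton_iff] at hg
      rcases hg with h | h | h
      · rw [h, hσx, hx]; simp [xg]
      · rw [h, hσy, hy]; simp [yg]
      · rw [h, hσt]; simp [tg]
    | one => simp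
    | mul g h _ _ ihg ihh => rw [map_mul, A.mul_k, A.mul_k, ihg, ihh]; ring
    | inv g _ ih => rw [map_inv, A.inv_k, A.inv_k, ih]; ring
  have hker : ∀ g, σ g = 1 → g = 1 := by
    intro g hg
    have hgk : g.k = 0 := by
      have := hσk g
      rw [hg, A.one_k] at this
      rcases mul_eq_zero.1 this.symm with h | h
      · rw [h] at ht; omega
      · exact h
    have hz : ∀ h : A, h.k = 0 → ph g.a h.b + ph h.a g.b = 0 := by
      intro h hh
      have h1 := comm0 g h hgk hh
      have h2 := congrArg σ h1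
      rw [hσc] at h2
      simp only [map_mul, map_inv, hg, one_mul, inv_one, mul_one, mul_inv_cancel] at h2
      rw [← cen_zero] at h2
      exact (cen_inj h2).symm
    have ha : g.a = 0 := by
      have := hz yg rfl
      have e1 : yg.b = 1 := rfl
      have e2 : yg.a = 0 := rfl
      rw [e1, e2, ph_zero_left, add_zero] at this
      rcases ph_eq_zero this with h | h
      · exact h
      · exact absurd h one_ne_zero
    have hb : g.b = 0 := by
      have := hz xg rfl
      have e1 : xg.b = 0 := rfl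
      have e2 : xg.a = 1 := rfl
      rw [e1, e2, ph_zero_right, zero_add] at this
      rcases ph_eq_zero this with h | h
      · exact absurd h one_ne_zero
      · exact h
    have hgc : g = cen g.c := by
      ext1 <;> simp [cen, ha, hb, hgk]
    rw [hgc, hσc] at hg
    rw [hgc]; exact hg
  intro g
  constructor
  · intro hg
    have h1 : σ g = cen (σ g).c := V_eq_cen hg
    have h2 : σ (g * (cen (σ g).c)⁻¹) = 1 := by
      rw [map_mul, map_inv, hσc, ← h1, mul_inv_cancel]
    have h3 := hker _ h2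
    have h4 : g = cen (σ g).c := by
      have := mul_inv_eq_one.1 h3
      exact this
    rw [h4, ← h1]; exact hg
  · intro hg
    have h1 : g = cen g.c := V_eq_cen hg
    have h2 : σ g = g := by
      rw [h1, hσc]
    rw [h2]; exact hg

/-! ### isolation of the standard marking -/

/-- the standard marking map -/
noncomputable def psi : FreeGroup (Fin 3) →* A := FreeGroup.lift ![xg, yg, tg]

lemma psi_0 : psi (FreeGroup.of 0) = xg := by simp [psi]
lemma psi_1 : psi (FreeGroup.of 1) = yg := by simp [psi]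
lemma psi_2 : psi (FreeGroup.of 2) = tg := by simp [psi]

lemma closure_of_surj (ψ : FreeGroup (Fin 3) →* A) (h : Function.Surjective ψ) :
    Subgroup.closure ({ψ (FreeGroup.of 0), ψ (FreeGroup.of 1), ψ (FreeGroup.of 2)} : Set A) = ⊤ := by
  have h1 := FreeGroup.closure_range_of (Fin 3)
  have h2 := congrArg (Subgroup.map ψ) h1
  rw [MonoidHom.map_closure, ← MonoidHom.range_eq_map, MonoidHom.range_eq_top.2 h] at h2
  rw [← h2]
  congr 1
  ext g
  simp only [Set.mem_insert_iff, Set.mem_singleton_iff, Set.mem_image, Set.mem_range]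
  constructor
  · rintro (h | h | h)
    · exact ⟨_, ⟨0, rfl⟩, h.symm⟩
    · exact ⟨_, ⟨1, rfl⟩, h.symm⟩
    · exact ⟨_, ⟨2, rfl⟩, h.symm⟩
  · rintro ⟨_, ⟨i, rfl⟩, rfl⟩
    fin_cases i <;> simp

lemma psi_surj : Function.Surjective psi := by
  rw [← MonoidHom.range_eq_top, eq_top_iff, ← closure_gen, Subgroup.closure_le]
  intro g hg
  simp only [Set.mem_insert_iff, Set.mem_singleton_iff] at hg
  rcases hg with h | h | h
  · exact ⟨_, by rw [h]; exact psi_0⟩
  · exact ⟨_, by rw [h]; exact psi_1⟩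
  · exact ⟨_, by rw [h]; exact psi_2⟩

/-- commutator words -/
noncomputable def cw (i j : Fin 3) (m : ℤ) : FreeGroup (Fin 3) :=
  FreeGroup.of i * cj (FreeGroup.of 2) (FreeGroup.of j) m * (FreeGroup.of i)⁻¹ *
    (cj (FreeGroup.of 2) (FreeGroup.of j) m)⁻¹

lemma map_cw {P : Type*} [Group P] (ψ : FreeGroup (Fin 3) →* P) (i j : Fin 3) (m : ℤ) :
    ψ (cw i j m) = ψ (FreeGroup.of i) * cj (ψ (FreeGroup.of 2)) (ψ (FreeGroup.of j)) m *
      (ψ (FreeGroup.of i))⁻¹ * (cj (ψ (FreeGroup.of 2)) (ψ (FreeGroup.of j)) m)⁻¹ := by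
  unfold cw cj
  simp only [map_mul, map_inv, map_zpow]

noncomputable def words : Set (FreeGroup (Fin 3)) :=
  {FreeGroup.of 0 * FreeGroup.of 0, FreeGroup.of 1 * FreeGroup.of 1,
    cw 0 0 1, cw 0 0 2, cw 0 0 3, cw 1 1 1, cw 1 1 2, cw 1 1 3, cw 0 1 1, cw 0 1 2, cw 0 1 6}

lemma words_std : ∀ w ∈ words, psi w ∈ V T1 := by
  have hx : xg.k = 0 := rfl
  have hy : yg.k = 0 := rfl
  have ht : tg.k = 1 := rfl
  have hxx : ∀ j, psi (cw 0 0 j) ∈ V T1 := by
    intro j
    rw [map_cw, psi_0, psi_2, comm_cj tg xg xg rfl rfl]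
    have e : xg.b = 0 := rfl
    rw [e, ph_zero_right, mul_zero, mul_zero, add_zero, cen_zero]
    exact (V T1).one_mem
  have hyy : ∀ j, psi (cw 1 1 j) ∈ V T1 := by
    intro j
    rw [map_cw, psi_1, psi_2, comm_cj tg yg yg rfl rfl]
    have e : yg.a = 0 := rfl
    rw [e, ph_zero_left, mul_zero, mul_zero, add_zero, cen_zero]
    exact (V T1).one_mem
  have hxy : ∀ j, psi (cw 0 1 j) = cen (T j) := by
    intro j
    rw [map_cw, psi_0, psi_1, psi_2, comm_cj tg xg yg rfl rfl]
    have e1 : ph xg.a yg.b = 1 := by simp [ph, xg, yg]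
    have e2 : ph yg.a xg.b = 0 := by simp [ph, xg, yg]
    rw [e1, e2, ht]; simp
  have h0 : xg * xg = 1 := by
    ext1 <;> simp [xg, L_add_self]
  have h1 : yg * yg = 1 := by
    ext1 <;> simp [yg, L_add_self]
  intro w hw
  simp only [words, Set.mem_insert_iff, Set.mem_singleton_iff] at hw
  rcases hw with h | h | h | h | h | h | h | h | h | h | h
  · rw [h, map_mul, psi_0, h0]; exact (V T1).one_mem
  · rw [h, map_mul, psi_1, h1]; exact (V T1).one_mem
  · rw [h]; exact hxx _
  · rw [h]; exact hxx _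
  · rw [h]; exact hxx _
  · rw [h]; exact hyy _
  · rw [h]; exact hyy _
  · rw [h]; exact hyy _
  · rw [h, hxy, cen_T_mem]; exact one_mem_T1
  · rw [h, hxy, cen_T_mem]; exact two_mem_T1
  · rw [h, hxy, cen_T_mem]; exact six_mem_T1

lemma words_finite : words.Finite := by
  unfold words
  exact Set.toFinite _

theorem rigid_marking (π' : FreeGroup (Fin 3) →* A ⧸ V T1) (hπ' : Function.Surjective π')
    (h : ∀ w ∈ words, π' w = 1) : ∀ w, π' w = 1 ↔ psi w ∈ V T1 := by
  obtain ⟨ψ, hψ, hψπ⟩ := exists_lift T1 π' hπ'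
  have hw' : ∀ w ∈ words, ψ w ∈ V T1 := by
    intro w hw
    have := h w hw
    rwa [hψπ, QuotientGroup.eq_one_iff] at this
  obtain ⟨σ, h1, h2, h3, h4⟩ := rigid (ψ (FreeGroup.of 0)) (ψ (FreeGroup.of 1))
    (ψ (FreeGroup.of 2)) (closure_of_surj ψ hψ)
    (by rw [← map_mul]; exact hw' _ (by simp [words]))
    (by rw [← map_mul]; exact hw' _ (by simp [words]))
    (by
      intro j hj
      rw [← map_cw]
      rcases hj with h | h | h <;> rw [h] <;> exact hw' _ (by simp [words]))
    (by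
      intro j hj
      rw [← map_cw]
      rcases hj with h | h | h <;> rw [h] <;> exact hw' _ (by simp [words]))
    (by
      intro j hj
      rw [← map_cw]
      rcases hj with h | h | h <;> rw [h] <;> exact hw' _ (by simp [words]))
  have h5 : ψ = σ.comp psi := by
    apply FreeGroup.ext_hom
    intro i
    fin_cases i
    · show ψ (FreeGroup.of 0) = σ (psi (FreeGroup.of 0))
      rw [psi_0, h1]
    · show ψ (FreeGroup.of 1) = σ (psi (FreeGroup.of 1))
      rw [psi_1, h2]
    · show ψ (FreeGroup.of 2) = σ (psi (FreeGroup.of 2))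
      rw [psi_2, h3]
  intro w
  rw [hψπ, QuotientGroup.eq_one_iff, h5]
  show σ (psi w) ∈ V T1 ↔ psi w ∈ V T1
  rw [h4]

theorem not_condensed_T1 : ¬ Condensed (A ⧸ V T1) := by
  rintro ⟨-, hC⟩
  let π : FreeGroup (Fin 3) →* A ⧸ V T1 := (QuotientGroup.mk' (V T1)).comp psi
  have hπ : Function.Surjective π := (QuotientGroup.mk'_surjective _).comp psi_surj
  have hstd : ∀ w, w ∈ π.ker ↔ psi w ∈ V T1 := by
    intro w
    rw [MonoidHom.mem_ker]
    show (QuotientGroup.mk (psi w) : A ⧸ V T1) = 1 ↔ _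
    rw [QuotientGroup.eq_one_iff]
  let x : isoClass (A ⧸ V T1) := ⟨⟨3, ⟨π.ker, MonoidHom.normal_ker π⟩⟩, ⟨π, hπ, rfl⟩⟩
  apply hC x
  refine isolated_of x words words_finite ?_
  rintro N' ⟨π', hπ', hker'⟩ hW
  have key : ∀ (M : Subgroup (FreeGroup (Fin 3))) (π'' : FreeGroup (Fin 3) →* A ⧸ V T1),
      Function.Surjective π'' → π''.ker = M → (∀ w ∈ words, (w ∈ M ↔ w ∈ π.ker)) →
      M = π.ker := by
    intro M π'' hs hk hw
    have h1 := rigid_marking π'' hs (by
      intro w hww
      rw [← MonoidHom.mem_ker, hk, hw w hww, hstd]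
      exact words_std w hww)
    ext w
    rw [hstd, ← h1, ← hk, MonoidHom.mem_ker]
  apply Subtype.ext
  exact key N'.1 π' hπ' hker' hW

end Pool.Agent.H67R3.Cond
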