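import Mathlib

set_option autoImplicit false

namespace Pool.Agent.H67R3.Ecl

/-- the group `ℤ × D_∞`, written as `(ℤ × ℤ) ⋊ {±1}` with the sign acting on the second
coordinate -/
@[ext]
structure G1 where
  m : ℤ
  n : ℤ
  s : ℤˣ
deriving DecidableEq

namespace G1

instance : Mul G1 := ⟨fun a b => ⟨a.m + b.m, a.n + a.s * b.n, a.s * b.s⟩⟩
instance : One G1 := ⟨⟨0, 0, 1⟩⟩
instance : Inv G1 := ⟨fun a => ⟨-a.m, -(a.s * a.n), a.s⟩⟩

@[simp] lemma mul_m (a b : G1) : (a * b).m = a.m + b.m := rfl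
@[simp] lemma mul_n (a b : G1) : (a * b).n = a.n + a.s * b.n := rfl
@[simp] lemma mul_s (a b : G1) : (a * b).s = a.s * b.s := rfl
@[simp] lemma one_m : (1 : G1).m = 0 := rfl
@[simp] lemma one_n : (1 : G1).n = 0 := rfl
@[simp] lemma one_s : (1 : G1).s = 1 := rfl
@[simp] lemma inv_m (a : G1) : (a⁻¹).m = -a.m := rfl
@[simp] lemma inv_n (a : G1) : (a⁻¹).n = -(a.s * a.n) := rfl
@[simp] lemma inv_s (a : G1) : (a⁻¹).s = a.s := rfl

instance : Group G1 := Group.ofLeftAxioms
  (by
    intro a b c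
    ext
    · simp [add_assoc]
    · simp; ring
    · simp [mul_assoc])
  (by intro a; ext <;> simp)
  (by
    intro a
    ext
    · simp
    · simp
    · simp)

end G1

/-- the seven generators `p, q, r, p⁻¹, q⁻¹, r⁻¹, t` -/
def val : Fin 7 → G1 :=
  ![⟨1, 1, 1⟩, ⟨1, 0, 1⟩, ⟨0, 1, 1⟩, ⟨-1, -1, 1⟩, ⟨-1, 0, 1⟩, ⟨0, -1, 1⟩, ⟨0, 0, -1⟩]

lemma val_inj : Function.Injective val := by decide

/-- evaluation of words -/
def ev (u : List (Fin 7)) : G1 := (u.map val).prod

@[simp] lemma ev_nil : ev [] = 1 := rfl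
@[simp] lemma ev_cons (a : Fin 7) (u : List (Fin 7)) : ev (a :: u) = val a * ev u := by
  simp [ev]
@[simp] lemma ev_append (u v : List (Fin 7)) : ev (u ++ v) = ev u * ev v := by
  simp [ev]

/-- number of letters `t` -/
def T (u : List (Fin 7)) : ℕ := u.count 6

@[simp] lemma T_nil : T [] = 0 := rfl
lemma T_cons (a : Fin 7) (u : List (Fin 7)) : T (a :: u) = T u + if a = 6 then 1 else 0 := by
  unfold T
  rw [List.count_cons]
  congr 1
  simp
@[simp] lemma T_append (u v : List (Fin 7)) : T (u ++ v) = T u + T v := by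
  simp [T]

/-- sign -/
def sg (σ : Bool) : ℤ := if σ then -1 else 1
def pl (σ : Bool) : Fin 7 := if σ then 3 else 0
def ql (σ : Bool) : Fin 7 := if σ then 4 else 1
def rl (σ : Bool) : Fin 7 := if σ then 5 else 2

lemma val_s (a : Fin 7) : (val a).s = if a = 6 then -1 else 1 := by
  revert a; decide

lemma ev_s (u : List (Fin 7)) : (ev u).s = (-1) ^ T u := by
  induction u with
  | nil => simp
  | cons a u ih =>
    rw [ev_cons, G1.mul_s, ih, val_s, T_cons]
    split_ifs with h
    · rw [pow_succ]; simp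
    · simp

lemma units_abs (s : ℤˣ) (x : ℤ) : |(s : ℤ) * x| = |x| := by
  rcases Int.units_eq_one_or s with h | h <;> simp [h]

lemma val_n_abs (a : Fin 7) : |(val a).n| + (if a = 6 then 1 else 0) ≤ 1 := by
  revert a; decide

lemma abs_n_le (u : List (Fin 7)) : |(ev u).n| + (T u : ℤ) ≤ u.length := by
  induction u with
  | nil => simp
  | cons a u ih =>
    rw [ev_cons, G1.mul_n, T_cons, List.length_cons]
    have h1 := abs_add_le (val a).n ((val a).s * (ev u).n)
    rw [units_abs] at h1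
    have h2 := val_n_abs a
    push_cast
    linarith

lemma val_m_le (σ : Bool) (a : Fin 7) : sg σ * (val a).m + (if a = 6 then 1 else 0) ≤ 1 := by
  revert a σ; decide

lemma m_le (σ : Bool) (u : List (Fin 7)) : sg σ * (ev u).m + (T u : ℤ) ≤ u.length := by
  induction u with
  | nil => simp
  | cons a u ih =>
    rw [ev_cons, G1.mul_m, T_cons, List.length_cons]
    have h2 := val_m_le σ a
    push_cast
    linarith

lemma abs_m_le (u : List (Fin 7)) : |(ev u).m| + (T u : ℤ) ≤ u.length := by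
  have h1 := m_le false u
  have h2 := m_le true u
  simp only [sg] at h1 h2
  rcases abs_cases (ev u).m with h | h <;> simp at h1 h2 <;> linarith

lemma val_m_eq (σ : Bool) (a : Fin 7) (h : sg σ * (val a).m + (if a = 6 then 1 else 0) = 1) :
    a = pl σ ∨ a = ql σ ∨ a = 6 := by
  revert a σ; decide

lemma m_eq_letters (σ : Bool) (u : List (Fin 7)) (h : sg σ * (ev u).m + (T u : ℤ) = u.length) :
    ∀ a ∈ u, a = pl σ ∨ a = ql σ ∨ a = 6 := by
  induction u with
  | nil => simp
  | cons a u ih =>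
    rw [ev_cons, G1.mul_m, T_cons, List.length_cons] at h
    have h2 := val_m_le σ a
    have h3 := m_le σ u
    push_cast at h
    have h4 : sg σ * (ev u).m + (T u : ℤ) = u.length := by linarith
    have h5 : sg σ * (val a).m + (if a = 6 then 1 else 0) = 1 := by linarith
    intro b hb
    rcases List.mem_cons.1 hb with rfl | hb
    · exact val_m_eq σ _ h5
    · exact ih h4 b hb

lemma val_n_eq (σ : Bool) (a : Fin 7) (h : sg σ * (val a).n = 1) :
    a = pl σ ∨ a = rl σ := by
  revert a σ; decide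

lemma val_n_le (σ : Bool) (a : Fin 7) : sg σ * (val a).n ≤ 1 := by
  revert a σ; decide

lemma sg_mul_le (σ : Bool) (x : ℤ) : sg σ * x ≤ |x| := by
  cases σ
  · simp only [sg]; simpa using le_abs_self x
  · simp only [sg]; simpa using neg_le_abs x

lemma n_eq_letters (σ : Bool) (u : List (Fin 7)) (h : sg σ * (ev u).n = u.length) :
    ∀ a ∈ u, a = pl σ ∨ a = rl σ := by
  induction u with
  | nil => simp
  | cons a u ih =>
    have h0 := abs_n_le (a :: u)
    have hT : T (a :: u) = 0 := by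
      have : sg σ * (ev (a :: u)).n ≤ |(ev (a :: u)).n| := sg_mul_le σ _
      omega
    rw [T_cons] at hT
    have ha : a ≠ 6 := by
      intro ha; simp [ha] at hT
    have hs : (val a).s = 1 := by rw [val_s, if_neg ha]
    rw [ev_cons, G1.mul_n, hs, List.length_cons] at h
    have h1 := abs_n_le u
    have h2 := val_n_le σ a
    have h3 : sg σ * (ev u).n ≤ |(ev u).n| := sg_mul_le σ _
    push_cast at h
    have h4 : sg σ * (ev u).n = u.length := by
      have h6 : (0 : ℤ) ≤ T u := by positivity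
      linarith
    have h5 : sg σ * (val a).n = 1 := by linarith
    intro b hb
    rcases List.mem_cons.1 hb with rfl | hb
    · exact val_n_eq σ _ h5
    · exact ih h4 b hb

lemma val_diff (a : Fin 7) (h : a ≠ 6) : |(val a).m - (val a).n| ≤ 1 := by
  revert a; decide

lemma diff_le (u : List (Fin 7)) (h : T u = 0) : |(ev u).m - (ev u).n| ≤ u.length := by
  induction u with
  | nil => simp
  | cons a u ih =>
    rw [T_cons] at h
    have ha : a ≠ 6 := by
      intro ha; simp [ha] at h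
    have hu : T u = 0 := by omega
    have hs : (val a).s = 1 := by rw [val_s, if_neg ha]
    rw [ev_cons, G1.mul_n, G1.mul_m, hs, List.length_cons]
    have h1 := ih hu
    have h2 := val_diff a ha
    have h3 := abs_add_le ((val a).m - (val a).n) ((ev u).m - (ev u).n)
    have e : (val a).m + (ev u).m - ((val a).n + ((1 : ℤˣ) : ℤ) * (ev u).n) =
      ((val a).m - (val a).n) + ((ev u).m - (ev u).n) := by
      push_cast; ring
    rw [e]
    push_cast
    linarith

/-! ### conjugacy -/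

lemma conj_iff (g h : G1) (hc : IsConj g h) :
    h.m = g.m ∧ h.s = g.s ∧ (g.s = 1 → (h.n = g.n ∨ h.n = -g.n)) ∧
      (g.s = -1 → ∃ b, h.n = g.n + 2 * b) := by
  obtain ⟨c, hc⟩ := isConj_iff.1 hc
  subst hc
  refine ⟨by simp, ?_, ?_, ?_⟩
  · rcases Int.units_eq_one_or c.s with h | h <;> simp [h]
  · intro hs
    rcases Int.units_eq_one_or c.s with h | h <;> simp [hs, h]
  · intro hs
    rcases Int.units_eq_one_or c.s with h | h
    · refine ⟨c.n, ?_⟩
      simp [hs, h]; ring
    · refine ⟨c.n - g.n, ?_⟩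
      simp [hs, h]; ring

lemma conj_of_neg (m n : ℤ) : IsConj (⟨m, n, 1⟩ : G1) ⟨m, -n, 1⟩ := by
  rw [isConj_iff]
  refine ⟨⟨0, 0, -1⟩, ?_⟩
  ext <;> simp

lemma conj_of_two (m n b : ℤ) : IsConj (⟨m, n, -1⟩ : G1) ⟨m, n + 2 * b, -1⟩ := by
  rw [isConj_iff]
  refine ⟨⟨0, b, 1⟩, ?_⟩
  ext
  · simp
  · simp; ring
  · simp

/-! ### words -/

lemma ev_replicate_p (σ : Bool) (i : ℕ) :
    ev (List.replicate i (pl σ)) = ⟨sg σ * i, sg σ * i, 1⟩ := by
  induction i with
  | zero => ext <;> simp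
  | succ i ih =>
    rw [List.replicate_succ, ev_cons, ih]
    cases σ <;> ext <;> simp [val, pl, sg] <;> ring

lemma ev_replicate_q (σ : Bool) (i : ℕ) :
    ev (List.replicate i (ql σ)) = ⟨sg σ * i, 0, 1⟩ := by
  induction i with
  | zero => ext <;> simp
  | succ i ih =>
    rw [List.replicate_succ, ev_cons, ih]
    cases σ <;> ext <;> simp [val, ql, sg] <;> ring

lemma ev_replicate_r (σ : Bool) (i : ℕ) :
    ev (List.replicate i (rl σ)) = ⟨0, sg σ * i, 1⟩ := by
  induction i with
  | zero => ext <;> simp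
  | succ i ih =>
    rw [List.replicate_succ, ev_cons, ih]
    cases σ <;> ext <;> simp [val, rl, sg] <;> ring

/-- words `p^i q^j` -/
def w1 (σ : Bool) (i j : ℕ) : List (Fin 7) := List.replicate i (pl σ) ++ List.replicate j (ql σ)
/-- words `p^i r^j` -/
def w2 (σ : Bool) (i j : ℕ) : List (Fin 7) := List.replicate i (pl σ) ++ List.replicate j (rl σ)
/-- words `p^i q^δ t p^j` -/
def w3 (σ : Bool) (i : ℕ) (δ : Bool) (j : ℕ) : List (Fin 7) :=
  List.replicate i (pl σ) ++ ((if δ then [ql σ] else []) ++ 6 :: List.replicate j (pl σ))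
/-- words `r t` -/
def w4 (σ : Bool) : List (Fin 7) := [rl σ, 6]

lemma ev_w1 (σ : Bool) (i j : ℕ) : ev (w1 σ i j) = ⟨sg σ * (i + j), sg σ * i, 1⟩ := by
  rw [w1, ev_append, ev_replicate_p, ev_replicate_q]
  ext <;> simp; ring

lemma ev_w2 (σ : Bool) (i j : ℕ) : ev (w2 σ i j) = ⟨sg σ * i, sg σ * (i + j), 1⟩ := by
  rw [w2, ev_append, ev_replicate_p, ev_replicate_r]
  ext <;> simp; ring

lemma val_six : val 6 = ⟨0, 0, -1⟩ := rfl

lemma ev_w3 (σ : Bool) (i : ℕ) (δ : Bool) (j : ℕ) :
    ev (w3 σ i δ j) = ⟨sg σ * (i + (if δ then 1 else 0) + j), sg σ * (i - j), -1⟩ := by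
  rw [w3, ev_append, ev_append, ev_cons, ev_replicate_p, ev_replicate_p, val_six]
  cases δ
  · ext
    · simp; ring
    · simp; ring
    · simp
  · cases σ
    · ext
      · simp [val, ql, sg]; ring
      · simp [val, ql, sg]; ring
      · simp [val, ql]
    · ext
      · simp [val, ql, sg]; ring
      · simp [val, ql, sg]; ring
      · simp [val, ql]

lemma ev_w4 (σ : Bool) : ev (w4 σ) = ⟨0, sg σ, -1⟩ := by
  revert σ; decide

lemma length_w1 (σ : Bool) (i j : ℕ) : (w1 σ i j).length = i + j := by simp [w1]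
lemma length_w2 (σ : Bool) (i j : ℕ) : (w2 σ i j).length = i + j := by simp [w2]
lemma length_w3 (σ : Bool) (i : ℕ) (δ : Bool) (j : ℕ) :
    (w3 σ i δ j).length = i + (if δ then 1 else 0) + j + 1 := by
  cases δ <;> simp [w3] <;> omega

end Pool.Agent.H67R3.Ecl
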