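import Pool.Agent.H67R3.Ecl1

set_option autoImplicit false

namespace Pool.Agent.H67R3.Ecl

/-- shortlex minimality -/
def SM {A G : Type*} [Group G] (v : A → G) (r : A → A → Prop) (w : List A) : Prop :=
  ∀ w' : List A, (w'.map v).prod = (w.map v).prod →
    w.length < w'.length ∨ (w.length = w'.length ∧ (w = w' ∨ List.Lex r w w'))

/-- minimality up to conjugacy -/
def CM {A G : Type*} [Group G] (v : A → G) (w : List A) : Prop :=
  ∀ w' : List A, IsConj (w.map v).prod (w'.map v).prod → w.length ≤ w'.length

/-- comparison criterion -/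
lemma lexCrit {A : Type*} [DecidableEq A] (r : A → A → Prop) :
    ∀ (y u : List A), y.length = u.length →
    (∀ s a y' b u', y = s ++ a :: y' → u = s ++ b :: u' → a ≠ b → r a b) →
    y = u ∨ List.Lex r y u
  | [], [], _, _ => Or.inl rfl
  | [], b :: u, h, _ => by simp at h
  | a :: y, [], h, _ => by simp at h
  | a :: y, b :: u, h, H => by
    by_cases hab : a = b
    · subst hab
      rcases lexCrit r y u (by simpa using h)
        (fun s c y' d u' h1 h2 h3 => H (a :: s) c y' d u' (by rw [h1]; rfl) (by rw [h2]; rfl) h3)
        with h1 | h1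
      · left; rw [h1]
      · right; exact List.Lex.cons h1
    · right
      exact List.Lex.rel (H [] a y b u rfl rfl hab)

lemma lex_irrefl {A : Type*} (r : A → A → Prop) (hr : ∀ a, ¬ r a a) (y : List A) :
    ¬ List.Lex r y y := by
  induction y with
  | nil => intro h; cases h
  | cons a y ih =>
    intro h
    cases h with
    | cons h => exact ih h
    | rel h => exact hr _ h

lemma lex_asymm {A : Type*} (r : A → A → Prop) (hr : ∀ a, ¬ r a a)
    (hr2 : ∀ a b, r a b → ¬ r b a) :
    ∀ (y u : List A), List.Lex r y u → ¬ List.Lex r u y := by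
  intro y
  induction y with
  | nil => intro u _ h; cases h
  | cons a y ih =>
    intro u h1 h2
    cases h1 with
    | cons h1 =>
      cases h2 with
      | cons h2 => exact ih _ h1 h2
      | rel h2 => exact hr _ h2
    | rel h1 =>
      cases h2 with
      | cons h2 => exact hr _ h1
      | rel h2 => exact hr2 _ _ h1 h2

/-- two shortlex minimal words for the same element coincide -/
lemma SM_unique {w w' : List (Fin 7)} (h : SM val (· < ·) w) (h' : SM val (· < ·) w')
    (e : ev w = ev w') : w = w' := by
  rcases h w' e.symm with h1 | ⟨h1, h1' | h1'⟩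
  · rcases h' w e with h2 | ⟨h2, _⟩ <;> omega
  · exact h1'
  · rcases h' w e with h2 | ⟨h2, h2' | h2'⟩
    · omega
    · exact h2'.symm
    · exact absurd h2' (lex_asymm (· < ·) (fun a => lt_irrefl a) (fun a b h => lt_asymm h) _ _ h1')

lemma prefix_replicate_append {A : Type*} {a c : A} {i : ℕ} {v s y' : List A}
    (h : List.replicate i a ++ v = s ++ c :: y') :
    (∃ k, k < i ∧ s = List.replicate k a ∧ c = a) ∨
    (∃ s', s = List.replicate i a ++ s' ∧ v = s' ++ c :: y') := by
  induction i generalizing s with
  | zero => right; exact ⟨s, by simp, by simpa using h⟩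
  | succ i ih =>
    cases s with
    | nil =>
      left
      simp only [List.replicate_succ, List.cons_append, List.nil_append, List.cons.injEq] at h
      exact ⟨0, by omega, by simp, h.1.symm⟩
    | cons b s =>
      simp only [List.replicate_succ, List.cons_append, List.cons.injEq] at h
      rcases ih h.2 with ⟨k, hk, hs, hc⟩ | ⟨s', hs, hv⟩
      · left
        exact ⟨k + 1, by omega, by rw [hs, ← h.1, List.replicate_succ], hc⟩
      · right
        exact ⟨s', by rw [hs, ← h.1, List.replicate_succ]; rfl, hv⟩

lemma replicate_split {A : Type*} {a c : A} {i : ℕ} {s y' : List A}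
    (h : List.replicate i a = s ++ c :: y') : ∃ k, k < i ∧ s = List.replicate k a ∧ c = a := by
  have h' : List.replicate i a ++ [] = s ++ c :: y' := by simpa using h
  rcases prefix_replicate_append h' with h | ⟨s', _, h2⟩
  · exact h
  · simp at h2

lemma pl_lt_ql (σ : Bool) : pl σ < ql σ := by revert σ; decide
lemma pl_lt_rl (σ : Bool) : pl σ < rl σ := by revert σ; decide
lemma pl_lt_six (σ : Bool) : pl σ < 6 := by revert σ; decide
lemma ql_lt_six (σ : Bool) : ql σ < 6 := by revert σ; decide
lemma rl_lt_six (σ : Bool) : rl σ < 6 := by revert σ; decide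

lemma val_pl (σ : Bool) : val (pl σ) = ⟨sg σ, sg σ, 1⟩ := by revert σ; decide
lemma val_ql (σ : Bool) : val (ql σ) = ⟨sg σ, 0, 1⟩ := by revert σ; decide
lemma val_rl (σ : Bool) : val (rl σ) = ⟨0, sg σ, 1⟩ := by revert σ; decide

lemma sg_sq (σ : Bool) : sg σ * sg σ = 1 := by cases σ <;> simp [sg]

lemma abs_sg_mul (σ : Bool) (x : ℤ) : |sg σ * x| = |x| := by
  cases σ <;> simp [sg]

/-- words `p^i q^j` are shortlex minimal -/
lemma SM_w1 (σ : Bool) (i j : ℕ) : SM val (· < ·) (w1 σ i j) := by
  intro w' hw'
  change ev w' = ev (w1 σ i j) at hw'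
  rw [ev_w1] at hw'
  have h1 := m_le σ w'
  have hm : sg σ * (ev w').m = i + j := by
    rw [hw']; simp only; rw [← mul_assoc, sg_sq, one_mul]
  rw [hm] at h1
  rw [length_w1]
  by_cases hlt : i + j < w'.length
  · left; exact hlt
  right
  have hlen : w'.length = i + j := by
    have : (0 : ℤ) ≤ T w' := by positivity
    omega
  refine ⟨hlen.symm, ?_⟩
  have hT : T w' = 0 := by omega
  have hlet := m_eq_letters σ w' (by rw [hm, hT, hlen]; push_cast; ring)
  have hlet' : ∀ a ∈ w', a = pl σ ∨ a = ql σ := by
    intro a ha
    rcases hlet a ha with h | h | h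
    · exact Or.inl h
    · exact Or.inr h
    · exfalso
      subst h
      unfold T at hT
      rw [List.count_eq_zero] at hT
      exact hT ha
  apply lexCrit
  · rw [length_w1, hlen]
  · intro s a y' b u' h1 h2 hab
    have hb : b = pl σ ∨ b = ql σ := hlet' b (by rw [h2]; simp)
    rcases prefix_replicate_append h1 with ⟨k, hk, hs, ha⟩ | ⟨s', hs, h3⟩
    · subst ha
      rcases hb with hb | hb
      · exact absurd hb.symm hab
      · rw [hb]; exact pl_lt_ql σ
    · obtain ⟨k, hk, hs', ha⟩ := replicate_split h3
      rcases hb with hb | hb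
      · exfalso
        have e : ev w' = ev (List.replicate i (pl σ)) * (ev (List.replicate k (ql σ)) *
            (val b * ev u')) := by
          rw [h2, hs, hs']; simp [mul_assoc]
        rw [ev_replicate_p, ev_replicate_q, hb, val_pl] at e
        have e2 := congrArg G1.n e
        rw [hw'] at e2
        simp at e2
        have hu : sg σ * (ev u').n ≥ 0 := by
          have hu' : ∀ a ∈ u', a = pl σ ∨ a = ql σ := fun a ha => hlet' a (by rw [h2]; simp [ha])
          clear * - hu'
          induction u' with
          | nil => simp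
          | cons c u ih =>
            have h1 := ih (fun a ha => hu' a (by simp [ha]))
            rcases hu' c (by simp) with h | h
            · rw [h, ev_cons, val_pl]; simp [mul_add, sg_sq]; linarith
            · rw [h, ev_cons, val_ql]; simp; exact h1
        have e3 : sg σ * (sg σ + (ev u').n) = 0 := by rw [e2]; ring
        rw [mul_add, sg_sq] at e3
        linarith
      · exact absurd (ha.trans hb.symm) hab

/-- words `p^i r^j` are shortlex minimal -/
lemma SM_w2 (σ : Bool) (i j : ℕ) : SM val (· < ·) (w2 σ i j) := by
  intro w' hw'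
  change ev w' = ev (w2 σ i j) at hw'
  rw [ev_w2] at hw'
  have h1 := abs_n_le w'
  have hn : sg σ * (ev w').n = i + j := by
    rw [hw']; simp only; rw [← mul_assoc, sg_sq, one_mul]
  have hn' : |(ev w').n| = i + j := by
    rw [← abs_sg_mul σ, hn]; exact abs_of_nonneg (by positivity)
  rw [hn'] at h1
  rw [length_w2]
  by_cases hlt : i + j < w'.length
  · left; exact hlt
  right
  have hlen : w'.length = i + j := by
    have : (0 : ℤ) ≤ T w' := by positivity
    omega
  refine ⟨hlen.symm, ?_⟩
  have hlet' := n_eq_letters σ w' (by rw [hn, hlen]; push_cast; ring)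
  apply lexCrit
  · rw [length_w2, hlen]
  · intro s a y' b u' h1 h2 hab
    have hb : b = pl σ ∨ b = rl σ := hlet' b (by rw [h2]; simp)
    rcases prefix_replicate_append h1 with ⟨k, hk, hs, ha⟩ | ⟨s', hs, h3⟩
    · subst ha
      rcases hb with hb | hb
      · exact absurd hb.symm hab
      · rw [hb]; exact pl_lt_rl σ
    · obtain ⟨k, hk, hs', ha⟩ := replicate_split h3
      rcases hb with hb | hb
      · exfalso
        have e : ev w' = ev (List.replicate i (pl σ)) * (ev (List.replicate k (rl σ)) *
            (val b * ev u')) := by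
          rw [h2, hs, hs']; simp [mul_assoc]
        rw [ev_replicate_p, ev_replicate_r, hb, val_pl] at e
        have e2 := congrArg G1.m e
        rw [hw'] at e2
        simp at e2
        have hu : sg σ * (ev u').m ≥ 0 := by
          have hu' : ∀ a ∈ u', a = pl σ ∨ a = rl σ := fun a ha => hlet' a (by rw [h2]; simp [ha])
          clear * - hu'
          induction u' with
          | nil => simp
          | cons c u ih =>
            have h1 := ih (fun a ha => hu' a (by simp [ha]))
            rcases hu' c (by simp) with h | h
            · rw [h, ev_cons, val_pl]; simp [mul_add, sg_sq]; linarith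
            · rw [h, ev_cons, val_rl]; simp; exact h1
        have e3 : sg σ * (sg σ + (ev u').m) = 0 := by rw [e2]; ring
        rw [mul_add, sg_sq] at e3
        linarith
      · exact absurd (ha.trans hb.symm) hab

end Pool.Agent.H67R3.Ecl
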