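import Pool.Agent.H67R3.Ecl2

set_option autoImplicit false

namespace Pool.Agent.H67R3.Ecl

lemma T_odd {u : List (Fin 7)} (h : (ev u).s = -1) : 1 ≤ T u := by
  rw [ev_s] at h
  by_contra h2
  have : T u = 0 := by omega
  rw [this] at h
  exact absurd h (by decide)

lemma T_even {u : List (Fin 7)} (h : (ev u).s = 1) : T u = 0 ∨ 2 ≤ T u := by
  rw [ev_s] at h
  by_cases h2 : T u = 1
  · rw [h2] at h
    exact absurd h (by decide)
  · omega

lemma T_replicate_p (σ : Bool) (i : ℕ) : T (List.replicate i (pl σ)) = 0 := by
  unfold T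
  rw [List.count_eq_zero]
  intro h
  have h2 := List.eq_of_mem_replicate h
  exact (pl_lt_six σ).ne h2.symm

lemma key_count (σ : Bool) {w' v u' : List (Fin 7)} {b : Fin 7} {x : ℤ} {i : ℕ}
    (h : w' = v ++ b :: u') (hv : ev v = ⟨x, sg σ * i, 1⟩) (hTv : T v = 0) (hb : b ≠ 6)
    (hT : T w' = 1) :
    (i : ℤ) + sg σ * (val b).n + 1 ≤ sg σ * (ev w').n + u'.length := by
  have hTu : T u' = 1 := by
    rw [h, T_append, T_cons, if_neg hb, hTv] at hT
    omega
  have h1 := abs_n_le u'
  rw [hTu] at h1
  have h2 : (ev w').n = sg σ * i + ((val b).n + (ev u').n) := by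
    rw [h, ev_append, hv, ev_cons]
    simp [val_s, hb]
  have h3 : -(sg σ * (ev u').n) ≤ |(ev u').n| := by
    rw [← abs_sg_mul σ]; exact neg_le_abs _
  rw [h2, mul_add, mul_add, ← mul_assoc, sg_sq, one_mul]
  push_cast at h1
  linarith

/-- words `p^i q^δ t p^j` are shortlex minimal -/
lemma SM_w3 (σ : Bool) (i : ℕ) (δ : Bool) (j : ℕ) : SM val (· < ·) (w3 σ i δ j) := by
  intro w' hw'
  change ev w' = ev (w3 σ i δ j) at hw'
  rw [ev_w3] at hw'
  have h1 := m_le σ w'
  have hm : sg σ * (ev w').m = i + (if δ then 1 else 0) + j := by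
    rw [hw']; simp only; rw [← mul_assoc, sg_sq, one_mul]
  have hn : sg σ * (ev w').n = i - j := by
    rw [hw']; simp only; rw [← mul_assoc, sg_sq, one_mul]
  have hT1 : 1 ≤ T w' := T_odd (by rw [hw'])
  rw [hm] at h1
  have hl := length_w3 σ i δ j
  by_cases hlt : (w3 σ i δ j).length < w'.length
  · left; exact hlt
  right
  have hlen : w'.length = (w3 σ i δ j).length := by
    cases δ <;> simp at * <;> omega
  have hT : T w' = 1 := by
    cases δ <;> simp at * <;> omega
  refine ⟨hlen.symm, ?_⟩
  have hlet := m_eq_letters σ w' (by rw [hm, hT, hlen, hl]; cases δ <;> simp)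
  apply lexCrit
  · exact hlen.symm
  · intro s a y' b u' h1 h2 hab
    have hb := hlet b (by rw [h2]; simp)
    have hlen2 : w'.length = s.length + (u'.length + 1) := by
      rw [h2]; simp
    unfold w3 at h1
    rcases prefix_replicate_append h1 with ⟨k, hk, hs, ha⟩ | ⟨s', hs, h3⟩
    · subst ha
      rcases hb with hb | hb | hb
      · exact absurd hb.symm hab
      · rw [hb]; exact pl_lt_ql σ
      · rw [hb]; exact pl_lt_six σ
    · cases δ with
      | false =>
        simp only [Bool.false_eq_true, if_false, List.nil_append] at h3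
        cases s' with
        | nil =>
          simp only [List.nil_append, List.cons.injEq] at h3
          have hb6 : b ≠ 6 := by rw [h3.1]; exact hab.symm
          exfalso
          have hv : ev s = ⟨sg σ * i, sg σ * i, 1⟩ := by
            rw [hs, List.append_nil, ev_replicate_p]
          have hc := key_count σ h2 hv (by rw [hs, List.append_nil, T_replicate_p]) hb6 hT
          have hsl : s.length = i := by rw [hs]; simp
          rw [hn] at hc
          simp at hl
          have hbn : 0 ≤ sg σ * (val b).n := by
            rcases hb with hb | hb | hb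
            · rw [hb, val_pl]; simp [sg_sq]
            · rw [hb, val_ql]; simp
            · exact absurd hb hb6
          omega
        | cons c s' =>
          simp only [List.cons_append, List.cons.injEq] at h3
          obtain ⟨k, hk, hs', ha⟩ := replicate_split h3.2
          rw [ha]
          rcases hb with hb | hb | hb
          · exact absurd (ha.trans hb.symm) hab
          · rw [hb]; exact pl_lt_ql σ
          · rw [hb]; exact pl_lt_six σ
      | true =>
        simp only [if_true, List.cons_append, List.nil_append] at h3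
        simp at hl
        cases s' with
        | nil =>
          simp only [List.nil_append, List.cons.injEq] at h3
          rcases hb with hb | hb | hb
          · exfalso
            have hb6 : b ≠ 6 := by rw [hb]; exact (pl_lt_six σ).ne
            have hv : ev s = ⟨sg σ * i, sg σ * i, 1⟩ := by
              rw [hs, List.append_nil, ev_replicate_p]
            have hc := key_count σ h2 hv (by rw [hs, List.append_nil, T_replicate_p]) hb6 hT
            have hsl : s.length = i := by rw [hs]; simp
            rw [hn] at hc
            have hbn : sg σ * (val b).n = 1 := by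
              rw [hb, val_pl]; simp [sg_sq]
            omega
          · exact absurd (h3.1.symm.trans hb.symm) hab
          · rw [hb, ← h3.1]; exact ql_lt_six σ
        | cons c s' =>
          simp only [List.cons_append, List.cons.injEq] at h3
          cases s' with
          | nil =>
            simp only [List.nil_append, List.cons.injEq] at h3
            have hb6 : b ≠ 6 := by rw [h3.2.1]; exact hab.symm
            exfalso
            have hv : ev s = ⟨sg σ * (i + 1), sg σ * i, 1⟩ := by
              rw [hs, ← h3.1, ev_append, ev_replicate_p, ev_cons, val_ql]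
              ext <;> simp; ring
            have hTs : T s = 0 := by
              rw [hs, ← h3.1, T_append, T_replicate_p, T_cons, if_neg (ql_lt_six σ).ne]
              rfl
            have hc := key_count σ h2 hv hTs hb6 hT
            have hsl : s.length = i + 1 := by rw [hs]; simp
            rw [hn] at hc
            have hbn : 0 ≤ sg σ * (val b).n := by
              rcases hb with hb | hb | hb
              · rw [hb, val_pl]; simp [sg_sq]
              · rw [hb, val_ql]; simp
              · exact absurd hb hb6
            omega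
          | cons d s' =>
            simp only [List.cons_append, List.cons.injEq] at h3
            obtain ⟨k, hk, hs', ha⟩ := replicate_split h3.2.2
            rw [ha]
            rcases hb with hb | hb | hb
            · exact absurd (ha.trans hb.symm) hab
            · rw [hb]; exact pl_lt_ql σ
            · rw [hb]; exact pl_lt_six σ

lemma w4_aux : ∀ (σ : Bool) (a b : Fin 7), val a * val b = ⟨0, sg σ, -1⟩ →
    (a = rl σ ∧ b = 6) ∨ a = 6 := by decide

lemma SM_w4 (σ : Bool) : SM val (· < ·) (w4 σ) := by
  intro w' hw'
  change ev w' = ev (w4 σ) at hw'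
  rw [ev_w4] at hw'
  have h1 := abs_n_le w'
  have hT1 : 1 ≤ T w' := T_odd (by rw [hw'])
  have hn : |(ev w').n| = 1 := by rw [hw']; cases σ <;> simp [sg]
  rw [hn] at h1
  have hl : (w4 σ).length = 2 := rfl
  rw [hl]
  by_cases hlt : 2 < w'.length
  · left; exact hlt
  right
  have hlen : w'.length = 2 := by omega
  refine ⟨hlen.symm, ?_⟩
  match w', hlen with
  | [a, b], _ =>
    have h2 : val a * val b = ⟨0, sg σ, -1⟩ := by
      rw [← hw']; simp
    rcases w4_aux σ a b h2 with ⟨h3, h4⟩ | h3
    · left; rw [h3, h4]; rfl
    · right; rw [h3]; exact List.Lex.rel (rl_lt_six σ)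

lemma CM_iff {w : List (Fin 7)} : CM val w ↔ ∀ w', IsConj (ev w) (ev w') →
    w.length ≤ w'.length := Iff.rfl

lemma CM_w1 (σ : Bool) (i j : ℕ) : CM val (w1 σ i j) := by
  rw [CM_iff]
  intro w' h
  have h1 := (conj_iff _ _ h).1
  rw [ev_w1] at h1
  have h2 := abs_m_le w'
  rw [h1, length_w1, abs_sg_mul] at *
  have : |(i : ℤ) + j| = i + j := abs_of_nonneg (by positivity)
  rw [this] at h2
  have : (0 : ℤ) ≤ T w' := by positivity
  omega

lemma CM_w2 (σ : Bool) (i j : ℕ) : CM val (w2 σ i j) := by
  rw [CM_iff]
  intro w' h
  obtain ⟨-, -, h1, -⟩ := conj_iff _ _ h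
  rw [ev_w2] at h1
  have h2 := abs_n_le w'
  have h3 : |(ev w').n| = i + j := by
    rcases h1 rfl with h1 | h1
    · rw [h1]; simp only; rw [abs_sg_mul]; exact abs_of_nonneg (by positivity)
    · rw [h1]; simp only; rw [abs_neg, abs_sg_mul]; exact abs_of_nonneg (by positivity)
  rw [h3] at h2
  rw [length_w2]
  have : (0 : ℤ) ≤ T w' := by positivity
  omega

lemma CM_w3 (σ : Bool) (i : ℕ) (δ : Bool) (j : ℕ) : CM val (w3 σ i δ j) := by
  rw [CM_iff]
  intro w' h
  obtain ⟨h1, h2, -, -⟩ := conj_iff _ _ h
  rw [ev_w3] at h1 h2
  have h3 := m_le σ w'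
  have hT1 : 1 ≤ T w' := T_odd h2
  rw [h1] at h3
  simp only at h3
  rw [← mul_assoc, sg_sq, one_mul] at h3
  have hl := length_w3 σ i δ j
  cases δ <;> simp at * <;> omega

lemma CM_w4 (σ : Bool) : CM val (w4 σ) := by
  rw [CM_iff]
  intro w' h
  obtain ⟨h1, h2, -, h3⟩ := conj_iff _ _ h
  rw [ev_w4] at h1 h2 h3
  obtain ⟨b, hb⟩ := h3 rfl
  have hT1 : 1 ≤ T w' := T_odd h2
  have h4 := abs_n_le w'
  have h5 : 1 ≤ |(ev w').n| := by
    apply Int.one_le_abs
    rw [hb]; cases σ <;> simp [sg] <;> omega
  have hl : (w4 σ).length = 2 := rfl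
  omega

end Pool.Agent.H67R3.Ecl
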