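import Pool.Agent.H67R3.Ecl3

set_option autoImplicit false

namespace Pool.Agent.H67R3.Ecl

/-- the language of the factor -/
def LL : Set (List (Fin 7)) :=
  {w | (∃ σ i j, w = w1 σ i j) ∨ (∃ σ i j, w = w2 σ i j) ∨ (∃ σ i δ j, w = w3 σ i δ j) ∨
    (∃ σ, w = w4 σ)}

lemma exists_sg (m : ℤ) : ∃ (σ : Bool) (a : ℕ), m = sg σ * a := by
  rcases le_total 0 m with h | h
  · exact ⟨false, m.toNat, by simp [sg, h]⟩
  · exact ⟨true, (-m).toNat, by simp [sg, h]⟩

lemma exists_w12 (σ : Bool) (a b : ℕ) : ∃ w, w ∈ LL ∧ SM val (· < ·) w ∧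
    ev w = ⟨sg σ * a, sg σ * b, 1⟩ ∧ w.length = max a b := by
  rcases le_total b a with h | h
  · refine ⟨w1 σ b (a - b), Or.inl ⟨_, _, _, rfl⟩, SM_w1 _ _ _, ?_, ?_⟩
    · rw [ev_w1]; ext <;> simp [Nat.cast_sub h]
    · rw [length_w1]; omega
  · refine ⟨w2 σ a (b - a), Or.inr (Or.inl ⟨_, _, _, rfl⟩), SM_w2 _ _ _, ?_, ?_⟩
    · rw [ev_w2]; ext <;> simp [Nat.cast_sub h]
    · rw [length_w2]; omega

lemma exists_w3 (σ : Bool) (a : ℕ) (n : ℤ) (h : |n| ≤ a) : ∃ w, w ∈ LL ∧ SM val (· < ·) w ∧
    ev w = ⟨sg σ * a, n, -1⟩ ∧ w.length = a + 1 := by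
  have hn : |sg σ * n| ≤ a := by rw [abs_sg_mul]; exact h
  set n' := sg σ * n with hn'
  have hnn : n = sg σ * n' := by rw [hn', ← mul_assoc, sg_sq, one_mul]
  rw [abs_le] at hn
  obtain ⟨i, hi⟩ : ∃ i : ℕ, (i : ℤ) = (a + n') / 2 := ⟨((a + n') / 2).toNat, by omega⟩
  obtain ⟨j, hj⟩ : ∃ j : ℕ, (j : ℤ) = (a - n') / 2 := ⟨((a - n') / 2).toNat, by omega⟩
  refine ⟨w3 σ i (decide ((a + n') % 2 = 1)) j, Or.inr (Or.inr (Or.inl ⟨_, _, _, _, rfl⟩)),
    SM_w3 _ _ _ _, ?_, ?_⟩
  · rw [ev_w3]
    have e1 : (i : ℤ) - j = n' := by omega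
    have e2 : (i : ℤ) + (if (decide ((a + n') % 2 = 1)) = true then 1 else 0) + j = a := by
      by_cases hp : (a + n') % 2 = 1
      · simp only [hp, decide_true, if_true]; omega
      · simp only [hp, decide_false]; simp; omega
    rw [e1, e2, ← hnn]
  · rw [length_w3]
    by_cases hp : (a + n') % 2 = 1
    · simp only [hp, decide_true, if_true]; omega
    · simp only [hp, decide_false]; simp; omega

lemma classify (w : List (Fin 7)) (h1 : SM val (· < ·) w) (h2 : CM val w) : w ∈ LL := by
  rw [CM_iff] at h2
  rcases Int.units_eq_one_or (ev w).s with hs | hs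
  · obtain ⟨σ, a, ha⟩ := exists_sg (ev w).m
    obtain ⟨τ, b, hb⟩ := exists_sg (ev w).n
    by_cases hab : σ = τ ∨ a = 0 ∨ b = 0
    · have : ∃ ρ, ev w = ⟨sg ρ * a, sg ρ * b, 1⟩ := by
        rcases hab with h | h | h
        · exact ⟨σ, by ext <;> simp [ha, hb, hs, h]⟩
        · exact ⟨τ, by ext <;> simp [ha, hb, hs, h]⟩
        · exact ⟨σ, by ext <;> simp [ha, hb, hs, h]⟩
      obtain ⟨ρ, hρ⟩ := this
      obtain ⟨w', hw', hSM, hev, -⟩ := exists_w12 ρ a b
      rw [SM_unique h1 hSM (hρ.trans hev.symm)]
      exact hw'
    · exfalso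
      push Not at hab
      obtain ⟨hστ, ha0, hb0⟩ := hab
      have hτ : sg τ = -sg σ := by
        cases σ <;> cases τ <;> simp [sg] at *
      obtain ⟨w', hw', hSM, hev, hlen⟩ := exists_w12 σ a b
      have hconj : IsConj (ev w) (ev w') := by
        have e : ev w = ⟨sg σ * a, -(sg σ * b), 1⟩ := by
          ext <;> simp [ha, hb, hs, hτ]
        rw [e, hev]
        have := conj_of_neg (sg σ * a) (-(sg σ * b))
        rwa [neg_neg] at this
      have hle := h2 w' hconj
      rw [hlen] at hle
      have hm := abs_m_le w
      have hn := abs_n_le w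
      rw [ha, abs_sg_mul] at hm
      rw [hb, abs_sg_mul] at hn
      have e1 : |(a : ℤ)| = a := abs_of_nonneg (by positivity)
      have e2 : |(b : ℤ)| = b := abs_of_nonneg (by positivity)
      rw [e1] at hm
      rw [e2] at hn
      rcases T_even hs with hT | hT
      · have hd := diff_le w hT
        rw [ha, hb, hτ] at hd
        have e3 : sg σ * (a : ℤ) - -sg σ * b = sg σ * (a + b) := by ring
        rw [e3, abs_sg_mul, abs_of_nonneg (by positivity)] at hd
        omega
      · omega
  · obtain ⟨σ, a, ha⟩ := exists_sg (ev w).m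
    by_cases hn : |(ev w).n| ≤ a
    · obtain ⟨w', hw', hSM, hev, -⟩ := exists_w3 σ a (ev w).n hn
      rw [SM_unique h1 hSM (by rw [hev]; ext <;> simp [ha, hs])]
      exact hw'
    · push Not at hn
      have hT := T_odd hs
      have hlen := abs_n_le w
      by_cases h3 : a = 0 ∧ |(ev w).n| = 1
      · obtain ⟨τ, b, hb⟩ := exists_sg (ev w).n
        have hb1 : b = 1 := by
          have := h3.2
          rw [hb, abs_sg_mul] at this
          have e2 : |(b : ℤ)| = b := abs_of_nonneg (by positivity)
          omega
        subst hb1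
        rw [SM_unique h1 (SM_w4 τ) (by rw [ev_w4]; ext <;> simp [ha, hb, hs, h3.1])]
        exact Or.inr (Or.inr (Or.inr ⟨_, rfl⟩))
      · exfalso
        have hconj : ∀ n0, (∃ c, n0 = (ev w).n + 2 * c) →
            IsConj (ev w) ⟨sg σ * a, n0, -1⟩ := by
          rintro n0 ⟨c, rfl⟩
          have e : ev w = ⟨sg σ * a, (ev w).n, -1⟩ := by ext <;> simp [ha, hs]
          rw [e]
          exact conj_of_two _ _ _
        by_cases ha0 : 1 ≤ a
        · obtain ⟨w', -, -, hev, hl⟩ := exists_w3 σ a ((ev w).n % 2) (by
            rw [abs_le]; omega)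
          have := h2 w' (by
            rw [hev]
            exact hconj _ ⟨-((ev w).n / 2), by omega⟩)
          omega
        · have ha1 : a = 0 := by omega
          subst ha1
          rcases Int.emod_two_eq_zero_or_one (ev w).n with h4 | h4
          · have := h2 (w3 false 0 false 0) (by
              rw [ev_w3]
              have := hconj 0 ⟨-((ev w).n / 2), by omega⟩
              simpa using this)
            rw [length_w3] at this
            simp at this
            omega
          · have := h2 (w4 false) (by
              rw [ev_w4]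
              have := hconj 1 ⟨-((ev w).n / 2), by omega⟩
              simpa [sg] using this)
            have hl : (w4 false).length = 2 := rfl
            have h5 : |(ev w).n| ≠ 1 := fun h => h3 ⟨rfl, h⟩
            omega

lemma mem_LL_iff (w : List (Fin 7)) : w ∈ LL ↔ (SM val (· < ·) w ∧ CM val w) := by
  constructor
  · rintro (⟨σ, i, j, rfl⟩ | ⟨σ, i, j, rfl⟩ | ⟨σ, i, δ, j, rfl⟩ | ⟨σ, rfl⟩)
    · exact ⟨SM_w1 _ _ _, CM_w1 _ _ _⟩
    · exact ⟨SM_w2 _ _ _, CM_w2 _ _ _⟩
    · exact ⟨SM_w3 _ _ _ _, CM_w3 _ _ _ _⟩
    · exact ⟨SM_w4 _, CM_w4 _⟩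
  · rintro ⟨h1, h2⟩
    exact classify w h1 h2

/-! ### automata -/

/-- automaton for `a^i b^j` -/
def A1 (a b : Fin 7) : DFA (Fin 7) (Fin 3) where
  step s x := if s = 0 then (if x = a then 0 else if x = b then 1 else 2)
    else if s = 1 then (if x = b then 1 else 2) else 2
  start := 0
  accept := {0, 1}

lemma A1_dead (a b : Fin 7) (w : List (Fin 7)) : (A1 a b).evalFrom 2 w = 2 := by
  induction w with
  | nil => rfl
  | cons x w ih => rw [DFA.evalFrom_cons]; exact ih

lemma A1_one (a b : Fin 7) (w : List (Fin 7)) :
    (A1 a b).evalFrom 1 w ∈ (A1 a b).accept ↔ ∃ j, w = List.replicate j b := by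
  induction w with
  | nil => exact ⟨fun _ => ⟨0, rfl⟩, fun _ => by simp [A1]⟩
  | cons x w ih =>
    rw [DFA.evalFrom_cons]
    by_cases hx : x = b
    · have : (A1 a b).step 1 x = 1 := by simp [A1, hx]
      rw [this, ih]
      constructor
      · rintro ⟨j, rfl⟩; exact ⟨j + 1, by rw [List.replicate_succ, hx]⟩
      · rintro ⟨j, hj⟩
        cases j with
        | zero => simp at hj
        | succ j =>
          rw [List.replicate_succ, List.cons.injEq] at hj
          exact ⟨j, hj.2⟩
    · have : (A1 a b).step 1 x = 2 := by simp [A1, hx]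
      rw [this, A1_dead]
      constructor
      · intro h; simp [A1] at h
      · rintro ⟨j, hj⟩
        cases j with
        | zero => simp at hj
        | succ j =>
          rw [List.replicate_succ, List.cons.injEq] at hj
          exact absurd hj.1 hx

lemma A1_zero (a b : Fin 7) (hab : a ≠ b) (w : List (Fin 7)) :
    (A1 a b).evalFrom 0 w ∈ (A1 a b).accept ↔
      ∃ i j, w = List.replicate i a ++ List.replicate j b := by
  induction w with
  | nil => exact ⟨fun _ => ⟨0, 0, rfl⟩, fun _ => by simp [A1]⟩
  | cons x w ih =>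
    rw [DFA.evalFrom_cons]
    by_cases hx : x = a
    · have : (A1 a b).step 0 x = 0 := by simp [A1, hx]
      rw [this, ih]
      constructor
      · rintro ⟨i, j, rfl⟩; exact ⟨i + 1, j, by rw [List.replicate_succ, hx]; rfl⟩
      · rintro ⟨i, j, hj⟩
        cases i with
        | zero =>
          cases j with
          | zero => simp at hj
          | succ j =>
            simp only [List.replicate_succ, List.replicate_zero, List.nil_append,
              List.cons.injEq] at hj
            exact absurd (hx.symm.trans hj.1) hab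
        | succ i =>
          simp only [List.replicate_succ, List.cons_append, List.cons.injEq] at hj
          exact ⟨i, j, hj.2⟩
    · by_cases hb : x = b
      · have : (A1 a b).step 0 x = 1 := by simp [A1, hb, hab.symm]
        rw [this, A1_one]
        constructor
        · rintro ⟨j, rfl⟩; exact ⟨0, j + 1, by rw [List.replicate_succ, hb]; rfl⟩
        · rintro ⟨i, j, hj⟩
          cases i with
          | zero =>
            cases j with
            | zero => simp at hj
            | succ j =>
              simp only [List.replicate_succ, List.replicate_zero, List.nil_append,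
                List.cons.injEq] at hj
              exact ⟨j, hj.2⟩
          | succ i =>
            simp only [List.replicate_succ, List.cons_append, List.cons.injEq] at hj
            exact absurd hj.1 hx
      · have : (A1 a b).step 0 x = 2 := by simp [A1, hx, hb]
        rw [this, A1_dead]
        constructor
        · intro h; simp [A1] at h
        · rintro ⟨i, j, hj⟩
          cases i with
          | zero =>
            cases j with
            | zero => simp at hj
            | succ j =>
              simp only [List.replicate_succ, List.replicate_zero, List.nil_append,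
                List.cons.injEq] at hj
              exact absurd hj.1 hb
          | succ i =>
            simp only [List.replicate_succ, List.cons_append, List.cons.injEq] at hj
            exact absurd hj.1 hx

lemma reg1 (a b : Fin 7) (hab : a ≠ b) : Language.IsRegular
    ({w | ∃ i j, w = List.replicate i a ++ List.replicate j b} : Language (Fin 7)) := by
  refine ⟨Fin 3, inferInstance, A1 a b, ?_⟩
  ext w
  exact A1_zero a b hab w

/-- automaton for `a^i b^δ c a^j` -/
def A2 (a b c : Fin 7) : DFA (Fin 7) (Fin 4) where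
  step s x := if s = 0 then (if x = a then 0 else if x = b then 1 else if x = c then 2 else 3)
    else if s = 1 then (if x = c then 2 else 3)
    else if s = 2 then (if x = a then 2 else 3) else 3
  start := 0
  accept := {2}

lemma A2_dead (a b c : Fin 7) (w : List (Fin 7)) : (A2 a b c).evalFrom 3 w = 3 := by
  induction w with
  | nil => rfl
  | cons x w ih => rw [DFA.evalFrom_cons]; exact ih

lemma A2_two (a b c : Fin 7) (w : List (Fin 7)) :
    (A2 a b c).evalFrom 2 w ∈ (A2 a b c).accept ↔ ∃ j, w = List.replicate j a := by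
  induction w with
  | nil => exact ⟨fun _ => ⟨0, rfl⟩, fun _ => by simp [A2]⟩
  | cons x w ih =>
    rw [DFA.evalFrom_cons]
    by_cases hx : x = a
    · have : (A2 a b c).step 2 x = 2 := by simp [A2, hx]
      rw [this, ih]
      constructor
      · rintro ⟨j, rfl⟩; exact ⟨j + 1, by rw [List.replicate_succ, hx]⟩
      · rintro ⟨j, hj⟩
        cases j with
        | zero => simp at hj
        | succ j =>
          rw [List.replicate_succ, List.cons.injEq] at hj
          exact ⟨j, hj.2⟩
    · have : (A2 a b c).step 2 x = 3 := by simp [A2, hx]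
      rw [this, A2_dead]
      constructor
      · intro h; simp [A2] at h
      · rintro ⟨j, hj⟩
        cases j with
        | zero => simp at hj
        | succ j =>
          rw [List.replicate_succ, List.cons.injEq] at hj
          exact absurd hj.1 hx

lemma A2_one (a b c : Fin 7) (w : List (Fin 7)) :
    (A2 a b c).evalFrom 1 w ∈ (A2 a b c).accept ↔ ∃ j, w = c :: List.replicate j a := by
  cases w with
  | nil =>
    constructor
    · intro h; simp [A2] at h
    · rintro ⟨j, hj⟩; simp at hj
  | cons x w =>
    rw [DFA.evalFrom_cons]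
    by_cases hx : x = c
    · have : (A2 a b c).step 1 x = 2 := by simp [A2, hx]
      rw [this, A2_two]
      constructor
      · rintro ⟨j, rfl⟩; exact ⟨j, by rw [hx]⟩
      · rintro ⟨j, hj⟩
        rw [List.cons.injEq] at hj
        exact ⟨j, hj.2⟩
    · have : (A2 a b c).step 1 x = 3 := by simp [A2, hx]
      rw [this, A2_dead]
      constructor
      · intro h; simp [A2] at h
      · rintro ⟨j, hj⟩
        rw [List.cons.injEq] at hj
        exact absurd hj.1 hx

lemma A2_zero (a b c : Fin 7) (hab : a ≠ b) (hac : a ≠ c) (hbc : b ≠ c) (w : List (Fin 7)) :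
    (A2 a b c).evalFrom 0 w ∈ (A2 a b c).accept ↔
      ∃ (i : ℕ) (δ : Bool) (j : ℕ), w = List.replicate i a ++
        ((if δ then [b] else []) ++ c :: List.replicate j a) := by
  induction w with
  | nil =>
    constructor
    · intro h; simp [A2] at h
    · rintro ⟨i, δ, j, hj⟩; simp at hj
  | cons x w ih =>
    rw [DFA.evalFrom_cons]
    by_cases hx : x = a
    · have : (A2 a b c).step 0 x = 0 := by simp [A2, hx]
      rw [this, ih]
      constructor
      · rintro ⟨i, δ, j, rfl⟩; exact ⟨i + 1, δ, j, by rw [List.replicate_succ, hx]; rfl⟩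
      · rintro ⟨i, δ, j, hj⟩
        cases i with
        | zero =>
          exfalso
          cases δ
          · simp at hj
            exact hac (hx.symm.trans hj.1)
          · simp at hj
            exact hab (hx.symm.trans hj.1)
        | succ i =>
          simp only [List.replicate_succ, List.cons_append, List.cons.injEq] at hj
          exact ⟨i, δ, j, hj.2⟩
    · by_cases hb : x = b
      · have : (A2 a b c).step 0 x = 1 := by simp [A2, hb, hab.symm]
        rw [this, A2_one]
        constructor
        · rintro ⟨j, rfl⟩; exact ⟨0, true, j, by simp [hb]⟩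
        · rintro ⟨i, δ, j, hj⟩
          cases i with
          | zero =>
            cases δ
            · simp at hj
              exact absurd (hb.symm.trans hj.1) hbc
            · simp at hj
              exact ⟨j, hj.2⟩
          | succ i =>
            simp only [List.replicate_succ, List.cons_append, List.cons.injEq] at hj
            exact absurd hj.1 hx
      · by_cases hc : x = c
        · have : (A2 a b c).step 0 x = 2 := by simp [A2, hc, hac.symm, hbc.symm]
          rw [this, A2_two]
          constructor
          · rintro ⟨j, rfl⟩; exact ⟨0, false, j, by simp [hc]⟩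
          · rintro ⟨i, δ, j, hj⟩
            cases i with
            | zero =>
              cases δ
              · simp at hj
                exact ⟨j, hj.2⟩
              · simp at hj
                exact absurd hj.1 hb
            | succ i =>
              simp only [List.replicate_succ, List.cons_append, List.cons.injEq] at hj
              exact absurd hj.1 hx
        · have : (A2 a b c).step 0 x = 3 := by simp [A2, hx, hb, hc]
          rw [this, A2_dead]
          constructor
          · intro h; simp [A2] at h
          · rintro ⟨i, δ, j, hj⟩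
            cases i with
            | zero =>
              cases δ
              · simp at hj
                exact absurd hj.1 hc
              · simp at hj
                exact absurd hj.1 hb
            | succ i =>
              simp only [List.replicate_succ, List.cons_append, List.cons.injEq] at hj
              exact absurd hj.1 hx

lemma reg2 (a b c : Fin 7) (hab : a ≠ b) (hac : a ≠ c) (hbc : b ≠ c) : Language.IsRegular
    ({w | ∃ (i : ℕ) (δ : Bool) (j : ℕ), w = List.replicate i a ++
        ((if δ then [b] else []) ++ c :: List.replicate j a)} : Language (Fin 7)) := by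
  refine ⟨Fin 4, inferInstance, A2 a b c, ?_⟩
  ext w
  exact A2_zero a b c hab hac hbc w

/-- automaton for the two words `a c` and `b c` -/
def A3 (a b c : Fin 7) : DFA (Fin 7) (Fin 4) where
  step s x := if s = 0 then (if x = a ∨ x = b then 1 else 3)
    else if s = 1 then (if x = c then 2 else 3) else 3
  start := 0
  accept := {2}

lemma A3_dead (a b c : Fin 7) (w : List (Fin 7)) : (A3 a b c).evalFrom 3 w = 3 := by
  induction w with
  | nil => rfl
  | cons x w ih => rw [DFA.evalFrom_cons]; exact ih

lemma reg3 (a b c : Fin 7) : Language.IsRegular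
    ({w | w = [a, c] ∨ w = [b, c]} : Language (Fin 7)) := by
  refine ⟨Fin 4, inferInstance, A3 a b c, ?_⟩
  ext w
  show (A3 a b c).evalFrom 0 w ∈ (A3 a b c).accept ↔ (w = [a, c] ∨ w = [b, c])
  match w with
  | [] => simp [A3]
  | [x] =>
    rw [DFA.evalFrom_singleton]
    by_cases h : x = a ∨ x = b
    · simp [A3, h]
    · simp [A3, h]
  | [x, y] =>
    rw [DFA.evalFrom_cons, DFA.evalFrom_singleton]
    by_cases h : x = a ∨ x = b
    · by_cases h2 : y = c
      · simp [A3, h, h2]
      · simp [A3, h, h2]
    · simp only [not_or] at h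
      by_cases h2 : y = c
      · simp [A3, h, h2]
      · simp [A3, h, h2]
  | x :: y :: z :: w =>
    have : (A3 a b c).evalFrom 0 (x :: y :: z :: w) = 3 := by
      rw [DFA.evalFrom_cons, DFA.evalFrom_cons, DFA.evalFrom_cons]
      have h3 : (A3 a b c).step ((A3 a b c).step ((A3 a b c).step 0 x) y) z = 3 := by
        by_cases h : x = a ∨ x = b
        · by_cases h2 : y = c
          · simp [A3, h, h2]
          · simp [A3, h, h2]
        · simp [A3, h]
      rw [h3, A3_dead]
    rw [this]
    simp [A3]

lemma LL_regular : Language.IsRegular (LL : Language (Fin 7)) := by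
  have h := ((((((reg1 0 1 (by decide)).add (reg1 0 2 (by decide))).add
    (reg1 3 4 (by decide))).add (reg1 3 5 (by decide))).add
    (reg2 0 1 6 (by decide) (by decide) (by decide))).add
    (reg2 3 4 6 (by decide) (by decide) (by decide))).add (reg3 2 5 6)
  refine Eq.mp (congrArg Language.IsRegular ?_) h
  symm
  ext w
  constructor
  · rintro (⟨σ, i, j, rfl⟩ | ⟨σ, i, j, rfl⟩ | ⟨σ, i, δ, j, rfl⟩ | ⟨σ, rfl⟩)
    · cases σ
      · exact Or.inl (Or.inl (Or.inl (Or.inl (Or.inl (Or.inl ⟨i, j, rfl⟩)))))
      · exact Or.inl (Or.inl (Or.inl (Or.inl (Or.inr ⟨i, j, rfl⟩))))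
    · cases σ
      · exact Or.inl (Or.inl (Or.inl (Or.inl (Or.inl (Or.inr ⟨i, j, rfl⟩)))))
      · exact Or.inl (Or.inl (Or.inl (Or.inr ⟨i, j, rfl⟩)))
    · cases σ
      · exact Or.inl (Or.inl (Or.inr ⟨i, δ, j, rfl⟩))
      · exact Or.inl (Or.inr ⟨i, δ, j, rfl⟩)
    · cases σ
      · exact Or.inr (Or.inl rfl)
      · exact Or.inr (Or.inr rfl)
  · rintro ((((((⟨i, j, rfl⟩ | ⟨i, j, rfl⟩) | ⟨i, j, rfl⟩) | ⟨i, j, rfl⟩) | ⟨i, δ, j, rfl⟩) |
      ⟨i, δ, j, rfl⟩) | (rfl | rfl))
    · exact Or.inl ⟨false, i, j, rfl⟩
    · exact Or.inr (Or.inl ⟨false, i, j, rfl⟩)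
    · exact Or.inl ⟨true, i, j, rfl⟩
    · exact Or.inr (Or.inl ⟨true, i, j, rfl⟩)
    · exact Or.inr (Or.inr (Or.inl ⟨false, i, δ, j, rfl⟩))
    · exact Or.inr (Or.inr (Or.inl ⟨true, i, δ, j, rfl⟩))
    · exact Or.inr (Or.inr (Or.inr ⟨false, rfl⟩))
    · exact Or.inr (Or.inr (Or.inr ⟨true, rfl⟩))

end Pool.Agent.H67R3.Ecl
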