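import Pool.Agent.H67R3.Ecl4

set_option autoImplicit false

namespace Pool.Agent.H67R3.Ecl

/-! ### the finite generating set as a `Finset` -/

def X0 : Finset G1 := Finset.univ.image val

abbrev S0 := {x : G1 // x ∈ X0}

def toS (a : Fin 7) : S0 := ⟨val a, by simp [X0]⟩

lemma toS_bij : Function.Bijective toS := by
  constructor
  · intro a b h
    exact val_inj (congrArg Subtype.val h)
  · rintro ⟨x, hx⟩
    simp only [X0, Finset.mem_image, Finset.mem_univ, true_and] at hx
    obtain ⟨a, ha⟩ := hx
    exact ⟨a, Subtype.ext ha⟩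

noncomputable def e : Fin 7 ≃ S0 := Equiv.ofBijective toS toS_bij

lemma e_val (a : Fin 7) : (e a).1 = val a := rfl

lemma val_e_symm (x : S0) : val (e.symm x) = x.1 := by
  rw [← e_val, Equiv.apply_symm_apply]

def rr (a b : S0) : Prop := e.symm a < e.symm b

lemma rr_e (a b : Fin 7) : rr (e a) (e b) ↔ a < b := by
  unfold rr
  rw [Equiv.symm_apply_apply, Equiv.symm_apply_apply]

instance rr_sto : IsStrictTotalOrder S0 rr :=
  RelEmbedding.isStrictTotalOrder (⟨e.symm.toEmbedding, Iff.rfl⟩ : rr ↪r ((· < ·) : Fin 7 → Fin 7 → Prop))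

lemma X0_inv : ∀ x ∈ X0, x⁻¹ ∈ X0 := by decide

lemma ev_mem (w : List (Fin 7)) : ev w ∈ Subgroup.closure (X0 : Set G1) := by
  induction w with
  | nil => exact Subgroup.one_mem _
  | cons a w ih =>
    rw [ev_cons]
    exact Subgroup.mul_mem _ (Subgroup.subset_closure (by simp [X0])) ih

lemma exists_ev (g : G1) : ∃ w, ev w = g := by
  obtain ⟨σ, a, ha⟩ := exists_sg g.m
  obtain ⟨τ, b, hb⟩ := exists_sg g.n
  rcases Int.units_eq_one_or g.s with hs | hs
  · refine ⟨List.replicate a (ql σ) ++ List.replicate b (rl τ), ?_⟩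
    rw [ev_append, ev_replicate_q, ev_replicate_r]
    ext <;> simp [ha, hb, hs]
  · refine ⟨List.replicate a (ql σ) ++ (List.replicate b (rl τ) ++ [6]), ?_⟩
    rw [ev_append, ev_append, ev_replicate_q, ev_replicate_r]
    ext <;> simp [ha, hb, hs, val_six]

lemma X0_closure : Subgroup.closure (X0 : Set G1) = ⊤ := by
  rw [eq_top_iff]
  intro g _
  obtain ⟨w, rfl⟩ := exists_ev g
  exact ev_mem w

/-! ### transfer of the conditions -/

lemma lex_map {A B : Type*} (f : A → B) (hf : Function.Injective f) (r : B → B → Prop)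
    (l l' : List A) :
    List.Lex r (l.map f) (l'.map f) ↔ List.Lex (fun a b => r (f a) (f b)) l l' := by
  constructor
  · intro h
    induction l generalizing l' with
    | nil =>
      cases l' with
      | nil => cases h
      | cons b l' => exact List.Lex.nil
    | cons a l ih =>
      cases l' with
      | nil => cases h
      | cons b l' =>
        simp only [List.map_cons] at h
        rw [List.cons_lex_cons_iff] at h
        rcases h with h | ⟨h1, h2⟩
        · exact List.Lex.rel h
        · rw [hf h1]; exact List.Lex.cons (ih _ h2)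
  · intro h
    induction h with
    | nil => exact List.Lex.nil
    | cons _ ih => exact List.Lex.cons ih
    | rel h => exact List.Lex.rel h

lemma SM_map {A B G : Type*} [Group G] (f : A ≃ B) (v : B → G) (r : B → B → Prop) (w : List A) :
    SM (fun a => v (f a)) (fun a b => r (f a) (f b)) w ↔ SM v r (w.map f) := by
  have hm : ∀ l : List A, (l.map f).map v = l.map (fun a => v (f a)) := by
    intro l; rw [List.map_map]; rfl
  have hi := List.map_injective_iff.2 f.injective
  constructor
  · intro h w' hw'
    obtain ⟨w'', rfl⟩ : ∃ w'' : List A, w' = w''.map f := ⟨w'.map f.symm, by simp⟩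
    rw [hm, hm] at hw'
    have := h _ hw'
    rw [lex_map f f.injective]
    simpa [hi.eq_iff] using this
  · intro h w' hw'
    have := h (w'.map f) (by rw [hm, hm]; exact hw')
    rw [lex_map f f.injective] at this
    simpa [hi.eq_iff] using this

lemma CM_map {A B G : Type*} [Group G] (f : A ≃ B) (v : B → G) (w : List A) :
    CM (fun a => v (f a)) w ↔ CM v (w.map f) := by
  have hm : ∀ l : List A, (l.map f).map v = l.map (fun a => v (f a)) := by
    intro l; rw [List.map_map]; rfl
  constructor
  · intro h w' hw'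
    have hw'' : w' = (w'.map f.symm).map f := by simp
    rw [hw'', hm, hm] at hw'
    have := h _ hw'
    rw [hw'']
    simpa using this
  · intro h w' hw'
    have := h (w'.map f) (by rw [hm, hm]; exact hw')
    simpa using this

lemma factor_regular : ∃ (σ : Type), Finite σ ∧ ∃ (M : DFA S0 σ), ∀ w : List S0,
    w ∈ M.accepts ↔ (SM Subtype.val rr w ∧ CM (fun x : S0 => x.1) w) := by
  obtain ⟨σ, hσ, M, hM⟩ := LL_regular
  refine ⟨σ, inferInstance, M.comap e.symm, ?_⟩
  intro w
  rw [DFA.accepts_comap]
  show w.map e.symm ∈ M.accepts ↔ _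
  rw [hM]
  have h1 := SM_map e.symm val (· < ·) w
  have h2 := CM_map e.symm val w
  simp only [val_e_symm] at h1 h2
  have h3 := mem_LL_iff (w.map e.symm)
  rw [← h1, ← h2] at h3
  exact h3

end Pool.Agent.H67R3.Ecl
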