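import Pool.Agent.H67R3.Ecl5

set_option autoImplicit false

namespace Pool.Agent.H67R3.Ecl

/-! ### the critical words of the factor -/

/-- the word `p^e t p^(e+3) t` -/
def yw (e : ℕ) : List (Fin 7) := List.replicate e 0 ++ (6 :: (List.replicate (e + 3) 0 ++ [6]))

lemma length_yw (e : ℕ) : (yw e).length = 2 * e + 5 := by simp [yw]; omega

lemma ev_yw (e : ℕ) : ev (yw e) = ⟨2 * e + 3, -3, 1⟩ := by
  have h := ev_replicate_p false
  simp only [pl, sg, Bool.false_eq_true, if_false, one_mul] at h
  rw [yw, ev_append, ev_cons, ev_append, h, h, val_six]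
  ext
  · simp [val_six]; ring
  · simp [val_six]
  · simp [val_six]

lemma yw_len_le (e : ℕ) (u : List (Fin 7)) (h : ev u = ⟨2 * e + 3, -3, 1⟩) :
    2 * e + 5 ≤ u.length ∧ (u.length = 2 * e + 5 → T u = 2) := by
  have h1 := m_le false u
  have hm : (ev u).m = 2 * e + 3 := by rw [h]
  rw [hm] at h1
  simp only [sg, Bool.false_eq_true, if_false, one_mul] at h1
  rcases T_even (u := u) (by rw [h]) with hT | hT
  · have h2 := diff_le u hT
    rw [h] at h2
    simp only at h2
    rw [abs_of_nonneg (by omega)] at h2
    constructor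
    · omega
    · intro h3; omega
  · constructor
    · omega
    · intro h3; omega

lemma yw_min (e : ℕ) (u : List (Fin 7)) (h : ev u = ev (yw e)) (hl : u.length = 2 * e + 5) :
    yw e = u ∨ List.Lex (· < ·) (yw e) u := by
  rw [ev_yw] at h
  have hT := (yw_len_le e u h).2 hl
  have hlet := m_eq_letters false u (by
    rw [h, hT, hl]; simp [sg]; ring)
  have hlet' : ∀ a ∈ u, a = 0 ∨ a = 1 ∨ a = 6 := by
    intro a ha
    have := hlet a ha
    simpa [pl, ql] using this
  apply lexCrit
  · rw [length_yw, hl]
  · intro s a y' b u' h1 h2 hab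
    have hb := hlet' b (by rw [h2]; simp)
    have hlen2 : u.length = s.length + (u'.length + 1) := by rw [h2]; simp
    unfold yw at h1
    have hlt : ∀ b : Fin 7, b = 0 ∨ b = 1 ∨ b = 6 → b ≠ 0 → (0 : Fin 7) < b := by decide
    rcases prefix_replicate_append h1 with ⟨k, hk, hs, ha⟩ | ⟨s', hs, h3⟩
    · subst ha
      exact hlt b hb hab.symm
    · cases s' with
      | nil =>
        simp only [List.nil_append, List.cons.injEq] at h3
        exfalso
        have hb6 : b ≠ 6 := by rw [h3.1]; exact hab.symm
        have hs0 : s = List.replicate e 0 := by rw [hs]; simp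
        have hTs : T s = 0 := by
          rw [hs0]; exact T_replicate_p false e
        have hTu : T u' = 2 := by
          rw [h2, T_append, T_cons, hTs, if_neg hb6] at hT
          omega
        have h4 := abs_n_le u'
        rw [hTu] at h4
        have hev : ev s = ⟨e, e, 1⟩ := by
          have h := ev_replicate_p false e
          simp only [pl, sg, Bool.false_eq_true, if_false, one_mul] at h
          rw [hs0, h]
        have h5 : (ev u).n = e + ((val b).n + (ev u').n) := by
          rw [h2, ev_append, hev, ev_cons]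
          simp [val_s, hb6]
        rw [h] at h5
        simp only at h5
        have hbn : 0 ≤ (val b).n := by
          rcases hb with hb | hb | hb
          · rw [hb]; decide
          · rw [hb]; decide
          · exact absurd hb hb6
        have hsl : s.length = e := by rw [hs0]; simp
        have h6 := neg_le_abs (ev u').n
        push_cast at h4
        omega
      | cons c s' =>
        simp only [List.cons_append, List.cons.injEq] at h3
        rcases prefix_replicate_append h3.2 with ⟨k, hk, hs2, ha⟩ | ⟨s'', hs2, h4⟩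
        · rw [ha]; rw [ha] at hab
          exact hlt b hb hab.symm
        · exfalso
          cases s'' with
          | cons d s'' => simp at h4
          | nil =>
            simp only [List.nil_append, List.cons.injEq] at h4
            have hsl : s.length = 2 * e + 4 := by
              rw [hs, hs2]; simp; omega
            have hu' : u' = [] := by
              apply List.eq_nil_of_length_eq_zero
              omega
            have hy : ev (yw e) = ev s * val a := by
              have : yw e = s ++ [a] := by
                unfold yw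
                rw [h1, ← h4.2]
              rw [this]; simp
            rw [h2, hu', ← ev_yw, hy] at h
            simp only [ev_append, ev_cons, ev_nil, mul_one, mul_left_cancel_iff,
              mul_right_inj] at h
            exact hab (val_inj h.symm)

/-! ### homomorphisms of the factor -/

lemma neg_one_ne : (-1 : ℤˣ) ≠ 1 := by decide

/-- selector -/
def sel {K : Type*} [Group K] (τ : K) (s : ℤˣ) : K := if s = 1 then 1 else τ

lemma sel_one {K : Type*} [Group K] (τ : K) : sel τ 1 = 1 := if_pos rfl
lemma sel_neg {K : Type*} [Group K] (τ : K) : sel τ (-1) = τ := if_neg neg_one_ne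

lemma sel_neg_mul {K : Type*} [Group K] (τ : K) (h3 : τ * τ = 1) (s : ℤˣ) :
    sel τ (-1 * s) = τ * sel τ s := by
  rcases Int.units_eq_one_or s with hb | hb
  · rw [hb, mul_one, sel_neg, sel_one, mul_one]
  · rw [hb, sel_neg, h3]; exact sel_one τ

/-- a homomorphism of the factor given by images of the basic generators -/
def homG {K : Type*} [Group K] (z ρ τ : K) (h1 : Commute z ρ) (h2 : Commute z τ) (h3 : τ * τ = 1)
    (h4 : τ * ρ * τ⁻¹ = ρ⁻¹) : G1 →* K where
  toFun g := z ^ g.m * ρ ^ g.n * sel τ g.s
  map_one' := by simp [sel_one]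
  map_mul' := by
    intro a b
    have hρ : ∀ k : ℤ, τ * ρ ^ k = ρ ^ (-k) * τ := by
      intro k
      have h5 : τ * ρ ^ k * τ⁻¹ = ρ ^ (-k) := by
        rw [← conj_zpow, h4, inv_zpow, zpow_neg]
      rw [← h5]; simp
    have hz : ∀ k l : ℤ, ρ ^ k * z ^ l = z ^ l * ρ ^ k := by
      intro k l
      exact ((h1.zpow_left l).zpow_right k).eq.symm
    have hzt : ∀ l : ℤ, τ * z ^ l = z ^ l * τ := by
      intro l
      exact (h2.zpow_left l).eq.symm
    simp only [G1.mul_m, G1.mul_n, G1.mul_s]
    rcases Int.units_eq_one_or a.s with ha | ha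
    · rw [ha, one_mul, sel_one, mul_one]
      simp only [Units.val_one, one_mul]
      rw [zpow_add, zpow_add]
      calc z ^ a.m * z ^ b.m * (ρ ^ a.n * ρ ^ b.n) * sel τ b.s
          = z ^ a.m * (z ^ b.m * ρ ^ a.n) * ρ ^ b.n * sel τ b.s := by
            simp only [mul_assoc]
        _ = z ^ a.m * (ρ ^ a.n * z ^ b.m) * ρ ^ b.n * sel τ b.s := by
            rw [hz]
        _ = _ := by simp only [mul_assoc]
    · rw [ha, sel_neg, sel_neg_mul τ h3]
      simp only [Units.val_neg, Units.val_one]
      rw [zpow_add, zpow_add, neg_one_mul]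
      calc z ^ a.m * z ^ b.m * (ρ ^ a.n * ρ ^ (-b.n)) * (τ * sel τ b.s)
          = z ^ a.m * (z ^ b.m * ρ ^ a.n) * (ρ ^ (-b.n) * τ) * sel τ b.s := by
            simp only [mul_assoc]
        _ = z ^ a.m * (ρ ^ a.n * z ^ b.m) * (τ * ρ ^ b.n) * sel τ b.s := by
            rw [hz, hρ]
        _ = z ^ a.m * ρ ^ a.n * (z ^ b.m * τ) * ρ ^ b.n * sel τ b.s := by
            simp only [mul_assoc]
        _ = z ^ a.m * ρ ^ a.n * (τ * z ^ b.m) * ρ ^ b.n * sel τ b.s := by
            rw [hzt]
        _ = _ := by simp only [mul_assoc]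

/-- a homomorphism of the factor through the sign -/
def homS {K : Type*} [Group K] (x : K) (hx : x * x = 1) : G1 →* K where
  toFun g := sel x g.s
  map_one' := sel_one x
  map_mul' := by
    intro a b
    rw [G1.mul_s]
    rcases Int.units_eq_one_or a.s with ha | ha
    · rw [ha, one_mul, sel_one, one_mul]
    · rw [ha, sel_neg, sel_neg_mul x hx]

/-! ### permutation model -/

def pz : Equiv.Perm (Fin 7) where
  toFun := ![0, 1, 2, 3, 5, 6, 4]
  invFun := ![0, 1, 2, 3, 6, 4, 5]
  left_inv := by decide
  right_inv := by decide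
def ptau : Equiv.Perm (Fin 7) where
  toFun := ![0, 1, 3, 2, 4, 5, 6]
  invFun := ![0, 1, 3, 2, 4, 5, 6]
  left_inv := by decide
  right_inv := by decide
def prho : Equiv.Perm (Fin 7) where
  toFun := ![2, 3, 1, 0, 4, 5, 6]
  invFun := ![3, 2, 0, 1, 4, 5, 6]
  left_inv := by decide
  right_inv := by decide
def px : Equiv.Perm (Fin 7) where
  toFun := ![0, 4, 2, 5, 1, 3, 6]
  invFun := ![0, 4, 2, 5, 1, 3, 6]
  left_inv := by decide
  right_inv := by decide

def kap0 : G1 →* Equiv.Perm (Fin 7) :=
  homG pz prho ptau (by show pz * prho = prho * pz; decide) (by show pz * ptau = ptau * pz; decide)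
    (by decide) (by decide)

def kap1 : G1 →* Equiv.Perm (Fin 7) := homS px (by decide)

lemma pz3 : pz ^ 3 = 1 := by decide

set_option maxRecDepth 20000 in
lemma kap_a : (pz * prho ^ 3 * px) ^ 10 = 1 := by decide
set_option maxRecDepth 20000 in
lemma kap_b : (pz * (prho ^ 3)⁻¹ * px) ^ 10 ≠ 1 := by decide

end Pool.Agent.H67R3.Ecl
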