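import Pool.Agent.H67R3.Ecl6

set_option autoImplicit false

namespace Pool.Agent.H67R3.Ecl

open Monoid

/-! ### the free product of two copies -/

abbrev CP := CoprodI (fun _ : Fin 2 => G1)

abbrev Al := Σ _ : Fin 2, S0

/-- inclusion of the `i`-th copy -/
abbrev inc (i : Fin 2) : G1 →* CP := CoprodI.of (M := fun _ : Fin 2 => G1) (i := i)

/-- evaluation of letters -/
def psi (s : Al) : CP := inc s.1 s.2.1

noncomputable def io (i : Fin 2) (a : Fin 7) : Al := ⟨i, e a⟩

lemma psi_io (i : Fin 2) (a : Fin 7) : psi (io i a) = inc i (val a) := rfl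

lemma io_surj (s : Al) : ∃ i a, s = io i a := ⟨s.1, e.symm s.2, by
  rcases s with ⟨i, x⟩
  simp [io]⟩

lemma prod_io (i : Fin 2) (u : List (Fin 7)) : ((u.map (io i)).map psi).prod = inc i (ev u) := by
  induction u with
  | nil => simp
  | cons a u ih => rw [List.map_cons, List.map_cons, List.prod_cons, ih, psi_io, ev_cons, map_mul]

/-- letters of the `i`-th copy -/
noncomputable def cc (i : Fin 2) : List Al → List (Fin 7)
  | [] => []
  | s :: w => if s.1 = i then e.symm s.2 :: cc i w else cc i w

lemma cc_length (w : List Al) : w.length = (cc 0 w).length + (cc 1 w).length := by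
  induction w with
  | nil => rfl
  | cons s w ih =>
    rcases s with ⟨i, x⟩
    fin_cases i
    · simp [cc, ih]; omega
    · simp [cc, ih]; omega

/-- retraction onto the `i`-th copy -/
def rho (i : Fin 2) : CP →* G1 :=
  CoprodI.lift (fun j => if j = i then MonoidHom.id G1 else 1)

lemma rho_inc_self (i : Fin 2) (g : G1) : rho i (inc i g) = g := by
  simp [rho, inc]

lemma rho_inc_ne (i j : Fin 2) (h : j ≠ i) (g : G1) : rho i (inc j g) = 1 := by
  simp [rho, inc, h]

lemma rho_prod (i : Fin 2) (w : List Al) : rho i (w.map psi).prod = ev (cc i w) := by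
  induction w with
  | nil => simp [cc]
  | cons s w ih =>
    rw [List.map_cons, List.prod_cons, map_mul, ih]
    rcases s with ⟨j, x⟩
    by_cases h : j = i
    · subst h
      simp only [cc, if_true, ev_cons, psi]
      rw [rho_inc_self, val_e_symm]
    · simp only [cc, h, if_false, psi]
      rw [rho_inc_ne i j h, one_mul]

lemma cc_zero {w : List Al} (h : (cc 1 w).length = 0) : ∃ u, w = u.map (io 0) ∧ cc 0 w = u := by
  induction w with
  | nil => exact ⟨[], rfl, rfl⟩
  | cons s w ih =>
    rcases s with ⟨j, x⟩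
    fin_cases j
    · simp [cc] at h
      obtain ⟨u, hu, hc⟩ := ih (by simpa using h)
      refine ⟨e.symm x :: u, ?_, ?_⟩
      · rw [List.map_cons, ← hu]; simp [io]
      · simp [cc, hc]
    · simp [cc] at h

lemma cc_one {w : List Al} (h : (cc 1 w).length = 1) :
    ∃ u v x, w = u.map (io 0) ++ io 1 x :: v.map (io 0) ∧ cc 0 w = u ++ v ∧ cc 1 w = [x] := by
  induction w with
  | nil => simp [cc] at h
  | cons s w ih =>
    rcases s with ⟨j, x⟩
    fin_cases j
    · simp [cc] at h
      obtain ⟨u, v, y, hu, hc, hd⟩ := ih h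
      refine ⟨e.symm x :: u, v, y, ?_, ?_, ?_⟩
      · rw [hu]; simp [io]
      · simp [cc, hc]
      · simp [cc, hd]
    · simp [cc] at h
      obtain ⟨u, hu, hc⟩ := cc_zero (w := w) (by simp [h])
      refine ⟨[], u, e.symm x, ?_, ?_, ?_⟩
      · rw [hu]; simp [io]
      · simp [cc, hc]
      · simp [cc, h]

/-! ### separating homomorphisms -/

/-- the swap -/
def swp : Equiv.Perm (G1 × Bool) where
  toFun p := (p.1, !p.2)
  invFun p := (p.1, !p.2)
  left_inv p := by simp
  right_inv p := by simp

/-- left translation on the first copy -/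
def ltr : G1 →* Equiv.Perm (G1 × Bool) where
  toFun g :=
    { toFun := fun p => (if p.2 = true then g * p.1 else p.1, p.2)
      invFun := fun p => (if p.2 = true then g⁻¹ * p.1 else p.1, p.2)
      left_inv := by rintro ⟨a, b⟩; cases b <;> simp
      right_inv := by rintro ⟨a, b⟩; cases b <;> simp }
  map_one' := by
    refine Equiv.ext ?_
    rintro ⟨a, b⟩; cases b <;> simp
  map_mul' := by
    intro g h
    refine Equiv.ext ?_
    rintro ⟨a, b⟩; cases b <;> simp [mul_assoc]

def lam : CP →* Equiv.Perm (G1 × Bool) :=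
  CoprodI.lift (fun j => if j = 0 then ltr else homS swp (by
    refine Equiv.ext ?_
    rintro ⟨a, b⟩; simp [swp]))

lemma lam_inc0 (g : G1) : lam (inc 0 g) = ltr g := by simp [lam, inc]
lemma lam_inc1 (g : G1) : lam (inc 1 g) = sel swp g.s := by
  simp [lam, inc, homS]

lemma val6_s : (val 6).s = -1 := rfl

lemma commute_trivial (g : G1) (h : inc 1 (val 6) * inc 0 g = inc 0 g * inc 1 (val 6)) : g = 1 := by
  have h2 := congrArg lam h
  rw [map_mul, map_mul, lam_inc0, lam_inc1, val6_s, sel_neg] at h2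
  have h3 := congrArg (fun p : Equiv.Perm (G1 × Bool) => (p (1, true)).1) h2
  simpa [swp, ltr] using h3

def kap : CP →* Equiv.Perm (Fin 7) :=
  CoprodI.lift (fun j => if j = 0 then kap0 else kap1)

lemma kap_inc0 (g : G1) : kap (inc 0 g) = pz ^ g.m * prho ^ g.n * sel ptau g.s := by
  simp [kap, inc, kap0, homG]
lemma kap_inc1 (g : G1) : kap (inc 1 g) = sel px g.s := by
  simp [kap, inc, kap1, homS]

lemma not_conj (k : ℕ) : ¬ IsConj (inc 0 ⟨2 * (3 * k + 2 : ℕ) + 3, -3, 1⟩ * inc 1 (val 6))
    (inc 0 ⟨2 * (3 * k + 2 : ℕ) + 3, 3, 1⟩ * inc 1 (val 6)) := by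
  intro h
  have h2 := kap.map_isConj h
  simp only [map_mul, kap_inc0, kap_inc1, val6_s, sel_neg, sel_one, mul_one] at h2
  have hz : pz ^ ((2 : ℤ) * (3 * k + 2 : ℕ) + 3) = pz := by
    have : (2 : ℤ) * (3 * k + 2 : ℕ) + 3 = 3 * (2 * k + 2) + 1 := by push_cast; ring
    rw [this, zpow_add, zpow_mul]
    have h3 : pz ^ (3 : ℤ) = 1 := by exact_mod_cast pz3
    rw [h3, one_zpow, one_mul, zpow_one]
  rw [hz] at h2
  have e1 : prho ^ (-3 : ℤ) = (prho ^ 3)⁻¹ := by
    rw [zpow_neg]; rfl
  have e2 : prho ^ (3 : ℤ) = prho ^ 3 := by norm_cast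
  rw [e1, e2] at h2
  obtain ⟨c, hc⟩ := isConj_iff.1 h2.symm
  apply kap_b
  rw [← hc, conj_pow, kap_a, mul_one, mul_inv_cancel]

/-! ### critical words of the free product -/

noncomputable def WW (k : ℕ) : List Al := (yw k).map (io 0) ++ [io 1 6]

lemma WW_length (k : ℕ) : (WW k).length = 2 * k + 6 := by
  simp [WW, length_yw]

lemma WW_prod (k : ℕ) : ((WW k).map psi).prod = inc 0 (ev (yw k)) * inc 1 (val 6) := by
  rw [WW, List.map_append, List.prod_append, prod_io]
  simp [psi_io]

lemma cc_append (i : Fin 2) (u v : List Al) : cc i (u ++ v) = cc i u ++ cc i v := by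
  induction u with
  | nil => rfl
  | cons s u ih =>
    rw [List.cons_append]
    by_cases h : s.1 = i
    · simp [cc, h, ih]
    · simp [cc, h, ih]

lemma ev_ne_nil {u : List (Fin 7)} (h : (ev u).s = -1) : 1 ≤ u.length := by
  rcases u with _ | ⟨a, u⟩
  · exact absurd h (by decide)
  · simp

/-- shortlex minimality of the critical words -/
lemma WW_SM (k : ℕ) (R : Al → Al → Prop) (hR : ∀ a b : Fin 7, R (io 0 a) (io 0 b) ↔ a < b)
    (w' : List Al) (h : (w'.map psi).prod = ((WW k).map psi).prod) :
    (WW k).length < w'.length ∨ ((WW k).length = w'.length ∧ (WW k = w' ∨ List.Lex R (WW k) w')) := by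
  rw [WW_prod] at h
  have h0 : ev (cc 0 w') = ev (yw k) := by
    rw [← rho_prod, h, map_mul, rho_inc_self, rho_inc_ne 0 1 (by decide), mul_one]
  have h1 : ev (cc 1 w') = val 6 := by
    rw [← rho_prod, h, map_mul, rho_inc_self, rho_inc_ne 1 0 (by decide), one_mul]
  have hl := cc_length w'
  have hl0 := (yw_len_le k (cc 0 w') (by rw [h0, ev_yw])).1
  have hl1 := ev_ne_nil (u := cc 1 w') (by rw [h1]; rfl)
  rw [WW_length]
  by_cases hlt : 2 * k + 6 < w'.length
  · left; exact hlt
  right
  have hl0' : (cc 0 w').length = 2 * k + 5 := by omega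
  have hl1' : (cc 1 w').length = 1 := by omega
  refine ⟨by omega, ?_⟩
  obtain ⟨u, v, x, hw, hc, hd⟩ := cc_one hl1'
  have hx : x = 6 := by
    rw [hd] at h1
    simp at h1
    exact val_inj h1
  subst hx
  rw [hc, ev_append] at h0
  have hv : ev v = 1 := by
    apply commute_trivial
    have h2 : inc 0 (ev u) * (inc 1 (val 6) * inc 0 (ev v)) =
        inc 0 (ev u) * (inc 0 (ev v) * inc 1 (val 6)) := by
      have h3 : (w'.map psi).prod = inc 0 (ev u) * (inc 1 (val 6) * inc 0 (ev v)) := by
        rw [hw, List.map_append, List.prod_append, prod_io, List.map_cons, List.prod_cons,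
          prod_io, psi_io]
      rw [← h3, h, ← h0, map_mul, mul_assoc]
    exact mul_left_cancel h2
  rw [hv, mul_one] at h0
  have hu := (yw_len_le k u (by rw [h0, ev_yw])).1
  have hlen : u.length + v.length = 2 * k + 5 := by
    rw [← hl0', hc, List.length_append]
  have hv0 : v = [] := List.eq_nil_of_length_eq_zero (by omega)
  subst hv0
  have hu5 : u.length = 2 * k + 5 := by simpa using hlen
  have hfin : w' = u.map (io 0) ++ [io 1 6] := by rw [hw]; simp
  rw [hfin]
  rcases yw_min k u h0 hu5 with h4 | h4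
  · left; rw [WW, h4]
  · right
    unfold WW
    have hgen : ∀ (a b : List (Fin 7)), a.length = b.length → List.Lex (· < ·) a b →
        List.Lex R (a.map (io 0) ++ [io 1 6]) (b.map (io 0) ++ [io 1 6]) := by
      intro a b hab hlex
      induction hlex with
      | nil => simp at hab
      | cons _ ih => exact List.Lex.cons (ih (by simpa using hab))
      | rel h => exact List.Lex.rel ((hR _ _).2 h)
    exact hgen _ _ (by rw [length_yw, hu5]) h4

lemma two_letters : ∀ a b : Fin 7, (val a * val b).m = 0 → (val a * val b).s = -1 →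
    (val a * val b).n ≠ 0 := by decide

lemma conj_six_aux : ∀ x : Fin 7, (val x).s = (val 6).s → x = 6 := by decide

lemma conj_six {x : Fin 7} (h : IsConj (val 6) (val x)) : x = 6 :=
  conj_six_aux x (conj_iff _ _ h).2.1

/-- conjugacy minimality of the critical words -/
lemma WW_CM (k : ℕ) (w' : List Al)
    (h : IsConj ((WW (3 * k + 2)).map psi).prod (w'.map psi).prod) :
    (WW (3 * k + 2)).length ≤ w'.length := by
  rw [WW_prod] at h
  have h0 : IsConj (ev (yw (3 * k + 2))) (ev (cc 0 w')) := by
    have := (rho 0).map_isConj h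
    rwa [rho_prod, map_mul, rho_inc_self, rho_inc_ne 0 1 (by decide), mul_one] at this
  have h1 : IsConj (val 6) (ev (cc 1 w')) := by
    have := (rho 1).map_isConj h
    rwa [rho_prod, map_mul, rho_inc_self, rho_inc_ne 1 0 (by decide), one_mul] at this
  have hl := cc_length w'
  rw [WW_length]
  have hm := (conj_iff _ _ h0).1
  rw [ev_yw] at hm
  have hm2 := m_le false (cc 0 w')
  rw [hm] at hm2
  simp only [sg, Bool.false_eq_true, if_false, one_mul] at hm2
  obtain ⟨g1, g2, -, g4⟩ := conj_iff _ _ h1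
  obtain ⟨b, hb⟩ := g4 rfl
  have hl1 := ev_ne_nil (u := cc 1 w') (by rw [g2]; rfl)
  have hT0 : (0 : ℤ) ≤ T (cc 0 w') := by positivity
  have hl2 : (cc 1 w').length ≠ 2 := by
    intro h2
    match hcc : cc 1 w', h2 with
    | [x, y], _ =>
      rw [hcc] at g1 g2 hb
      have hT := T_odd g2
      have hn := abs_n_le [x, y]
      have e1 : ev [x, y] = val x * val y := by simp
      rw [e1] at g1 g2 hb hn
      have h5 := two_letters x y (by rw [g1]; rfl) (by rw [g2]; rfl)
      have h6 : 1 ≤ |(val x * val y).n| := Int.one_le_abs h5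
      have h7 : |(val x * val y).n| = 1 := by
        have : (([x, y] : List (Fin 7)).length : ℤ) = 2 := rfl
        omega
      have h8 : (val 6).n = 0 := rfl
      rw [h8] at hb
      rcases abs_eq (by norm_num) |>.1 h7 with h9 | h9 <;> omega
  by_cases hl3 : 3 ≤ (cc 1 w').length
  · omega
  have hl1' : (cc 1 w').length = 1 := by omega
  obtain ⟨u, v, x, hw, hc, hd⟩ := cc_one hl1'
  have hx : x = 6 := by
    apply conj_six
    rw [hd] at h1
    simpa using h1
  subst hx
  -- cyclic rotation
  have h2 : IsConj (w'.map psi).prod (inc 0 (ev (v ++ u)) * inc 1 (val 6)) := by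
    rw [isConj_iff]
    refine ⟨inc 0 (ev v), ?_⟩
    rw [hw, List.map_append, List.prod_append, prod_io, List.map_cons, List.prod_cons,
          prod_io, psi_io, ev_append, map_mul]
    group
  have h3 := h.trans h2
  have h4 : IsConj (ev (yw (3 * k + 2))) (ev (v ++ u)) := by
    have := (rho 0).map_isConj h3
    rwa [map_mul, map_mul, rho_inc_self, rho_inc_self, rho_inc_ne 0 1 (by decide), mul_one,
      mul_one] at this
  have hlen : (v ++ u).length = (cc 0 w').length := by
    rw [hc]; simp; omega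
  obtain ⟨q1, q2, q3, -⟩ := conj_iff _ _ h4
  rw [ev_yw] at q1 q2 q3
  rcases q3 rfl with q3 | q3
  · have : ev (v ++ u) = ⟨2 * (3 * k + 2 : ℕ) + 3, -3, 1⟩ := by
      ext
      · rw [q1]
      · rw [q3]
      · rw [q2]
    have := (yw_len_le _ _ this).1
    omega
  · exfalso
    have : ev (v ++ u) = ⟨2 * (3 * k + 2 : ℕ) + 3, 3, 1⟩ := by
      ext
      · rw [q1]
      · rw [q3]; rfl
      · rw [q2]
    rw [this, ev_yw] at h3
    exact not_conj k h3

end Pool.Agent.H67R3.Ecl
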