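import Mathlib

set_option autoImplicit false

namespace Pool.Agent.H67R3.Grig

/-- An action of the group `⟨a,b,c,d | a²,b²,c²,d²,bcd⟩` on a type, by four involutions. -/
structure KS (Z : Type) where
  g : Fin 4 → Z → Z
  inv : ∀ i, Function.Involutive (g i)
  rel : ∀ z, g 1 (g 2 (g 3 z)) = z

/-- The permutation action of the free group of rank four. -/
def act {Z : Type} (K : KS Z) : FreeGroup (Fin 4) →* Equiv.Perm Z :=
  FreeGroup.lift (fun i => (K.inv i).toPerm (K.g i))

lemma act_of {Z : Type} (K : KS Z) (i : Fin 4) (z : Z) : act K (FreeGroup.of i) z = K.g i z := by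
  simp [act]

lemma act_mk {Z : Type} (K : KS Z) (L : List (Fin 4 × Bool)) (z : Z) :
    act K (FreeGroup.mk L) z = (L.map Prod.fst).foldr K.g z := by
  induction L with
  | nil => simp [act, FreeGroup.lift_mk]
  | cons p L ih =>
    have h : FreeGroup.mk (p :: L) = FreeGroup.mk [p] * FreeGroup.mk L := by
      rw [FreeGroup.mul_mk]; rfl
    rw [h, map_mul, Equiv.Perm.mul_apply, ih]
    rcases p with ⟨i, b⟩
    cases b
    · simp only [act, FreeGroup.lift_mk, List.map_cons, List.map_nil, cond_false,
        List.prod_cons, List.prod_nil, mul_one, List.foldr_cons]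
      rfl
    · simp only [act, FreeGroup.lift_mk, List.map_cons, List.map_nil, cond_true,
        List.prod_cons, List.prod_nil, mul_one, List.foldr_cons]
      rfl

/-- word of generators of an element of the free group -/
def wd (w : FreeGroup (Fin 4)) : List (Fin 4) := (FreeGroup.toWord w).map Prod.fst

lemma act_eq {Z : Type} (K : KS Z) (w : FreeGroup (Fin 4)) (z : Z) :
    act K w z = (wd w).foldr K.g z := by
  conv_lhs => rw [← FreeGroup.mk_toWord (x := w)]
  exact act_mk K _ z

/-- element of the free group from a positive word -/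
def fw (l : List (Fin 4)) : FreeGroup (Fin 4) := FreeGroup.mk (l.map (fun i => (i, true)))

lemma act_fw {Z : Type} (K : KS Z) (l : List (Fin 4)) (z : Z) : act K (fw l) z = l.foldr K.g z := by
  rw [fw, act_mk]
  congr 1
  simp [List.map_map, Function.comp_def]

/-! Klein four relations -/
lemma KS.r12 {Z : Type} (K : KS Z) (z : Z) : K.g 1 (K.g 2 z) = K.g 3 z := by
  have h := K.rel (K.g 3 z)
  rwa [K.inv 3 z] at h
lemma KS.r23 {Z : Type} (K : KS Z) (z : Z) : K.g 2 (K.g 3 z) = K.g 1 z := by
  have h := congrArg (K.g 1) (K.rel z)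
  rwa [K.inv 1] at h
lemma KS.r31 {Z : Type} (K : KS Z) (z : Z) : K.g 3 (K.g 1 z) = K.g 2 z := by
  have h := K.r12 (K.g 2 (K.g 1 z))
  have h2 := K.r12 z
  have h3 := K.r23 (K.g 1 z)
  rw [K.inv 1] at h3
  have h4 := congrArg (K.g 2) h3
  rwa [K.inv 2] at h4
lemma KS.r21 {Z : Type} (K : KS Z) (z : Z) : K.g 2 (K.g 1 z) = K.g 3 z := by
  have h := K.r12 (K.g 2 (K.g 1 z))
  rw [K.inv 2, K.inv 1] at h
  have h2 := congrArg (K.g 3) h
  rw [K.inv 3] at h2
  exact h2.symm
lemma KS.r32 {Z : Type} (K : KS Z) (z : Z) : K.g 3 (K.g 2 z) = K.g 1 z := by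
  have h := K.r23 (K.g 3 (K.g 2 z))
  rw [K.inv 3, K.inv 2] at h
  have h2 := congrArg (K.g 1) h
  rw [K.inv 1] at h2
  exact h2.symm
lemma KS.r13 {Z : Type} (K : KS Z) (z : Z) : K.g 1 (K.g 3 z) = K.g 2 z := by
  have h := K.r31 (K.g 1 (K.g 3 z))
  rw [K.inv 1, K.inv 3] at h
  have h2 := congrArg (K.g 2) h
  rw [K.inv 2] at h2
  exact h2.symm

/-- third letter of the Klein four group -/
def third (x y : Fin 4) : Fin 4 :=
  if x.val + y.val = 3 then 3 else if x.val + y.val = 4 then 2 else 1

/-- multiplication of a reduced word by a letter -/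
def push (x : Fin 4) : List (Fin 4) → List (Fin 4)
  | [] => [x]
  | y :: w => if x = y then w else if x = 0 ∨ y = 0 then x :: y :: w else third x y :: w

/-- normal form in the free product of a group of order two and a Klein four group -/
def red (w : List (Fin 4)) : List (Fin 4) := w.foldr push []

lemma third_spec {Z : Type} (K : KS Z) (x y : Fin 4) (hxy : x ≠ y) (hx : x ≠ 0) (hy : y ≠ 0) (z : Z) :
    K.g (third x y) z = K.g x (K.g y z) := by
  fin_cases x <;> fin_cases y <;> simp [third] at * <;>
    first
      | exact (K.r12 z).symm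
      | exact (K.r21 z).symm
      | exact (K.r13 z).symm
      | exact (K.r31 z).symm
      | exact (K.r23 z).symm
      | exact (K.r32 z).symm

lemma foldr_push {Z : Type} (K : KS Z) (x : Fin 4) (w : List (Fin 4)) (z : Z) :
    (push x w).foldr K.g z = K.g x (w.foldr K.g z) := by
  cases w with
  | nil => rfl
  | cons y w =>
    simp only [push]
    split_ifs with h1 h2
    · subst h1; simp only [List.foldr_cons]; rw [K.inv x]
    · rfl
    · push Not at h2
      simp only [List.foldr_cons]
      exact third_spec K x y h1 h2.1 h2.2 _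

lemma foldr_red {Z : Type} (K : KS Z) (w : List (Fin 4)) (z : Z) :
    (red w).foldr K.g z = w.foldr K.g z := by
  induction w with
  | nil => rfl
  | cons x w ih =>
    show (push x (red w)).foldr K.g z = _
    rw [foldr_push, ih]; rfl

/-- alternating words -/
def Alt : List (Fin 4) → Prop
  | [] => True
  | [_] => True
  | x :: y :: w => (x = 0 ↔ y ≠ 0) ∧ Alt (y :: w)

lemma Alt.tail {x : Fin 4} {w : List (Fin 4)} (h : Alt (x :: w)) : Alt w := by
  cases w with
  | nil => trivial
  | cons y w => exact h.2

lemma Alt.change {x y : Fin 4} {w : List (Fin 4)} (h : Alt (x :: w)) (hxy : x = 0 ↔ y = 0) :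
    Alt (y :: w) := by
  cases w with
  | nil => trivial
  | cons z w =>
    refine ⟨?_, h.2⟩
    rw [← hxy]; exact h.1

lemma third_ne (x y : Fin 4) : third x y ≠ 0 := by
  revert x y; decide

lemma alt_push (x : Fin 4) (w : List (Fin 4)) (h : Alt w) : Alt (push x w) := by
  cases w with
  | nil => trivial
  | cons y w =>
    simp only [push]
    split_ifs with h1 h2
    · exact h.tail
    · refine ⟨?_, h⟩
      rcases h2 with h2 | h2
      · subst h2
        simp only [true_iff]
        exact fun h => h1 h.symm
      · subst h2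
        simp only [ne_eq, not_true_eq_false, iff_false]
        exact h1
    · push Not at h2
      refine h.change ?_
      constructor
      · intro h'; exact absurd h' h2.2
      · intro h'; exact absurd h' (third_ne x y)

lemma alt_red (w : List (Fin 4)) : Alt (red w) := by
  induction w with
  | nil => trivial
  | cons x w ih => exact alt_push x _ ih

lemma length_push_le (x : Fin 4) (w : List (Fin 4)) : (push x w).length ≤ w.length + 1 := by
  cases w with
  | nil => simp [push]
  | cons y w =>
    simp only [push]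
    split_ifs <;> simp <;> omega

lemma length_red_le (w : List (Fin 4)) : (red w).length ≤ w.length := by
  induction w with
  | nil => simp [red]
  | cons x w ih =>
    have := length_push_le x (red w)
    show (push x (red w)).length ≤ _
    simp only [List.length_cons]; omega

/-- number of nonzero letters -/
def nz (w : List (Fin 4)) : ℕ := (w.filter (fun x => x ≠ 0)).length

lemma nz_cons (x : Fin 4) (w : List (Fin 4)) : nz (x :: w) = (if x = 0 then 0 else 1) + nz w := by
  unfold nz
  by_cases h : x = 0 <;> simp [h]; omega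

lemma two_nz_le : ∀ (w : List (Fin 4)), Alt w →
    2 * nz w ≤ w.length + 1 ∧ (∀ t, w = 0 :: t → 2 * nz w ≤ w.length)
  | [], _ => by simp [nz]
  | [x], _ => by
    constructor
    · rw [nz_cons]; simp [nz]; split_ifs <;> omega
    · intro t ht
      simp at ht
      rw [nz_cons]; simp [nz, ht.1]
  | x :: y :: w, h => by
    have ih := two_nz_le (y :: w) h.2
    have hw := two_nz_le w h.2.tail
    constructor
    · rw [nz_cons]
      by_cases hx : x = 0
      · simp only [hx, if_true]
        have := ih.1
        simp only [List.length_cons] at *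
        omega
      · simp only [hx, if_false]
        have hy : y = 0 := by
          by_contra hy
          exact hx (h.1.2 hy)
        have := ih.2 w (by rw [hy])
        simp only [List.length_cons] at *
        omega
    · intro t ht
      simp only [List.cons.injEq] at ht
      rw [nz_cons, if_pos ht.1]
      have := ih.1
      simp only [List.length_cons] at *
      omega

/-- one step of the self-similar action in direction `s` -/
def extg (s : Fin 3) {Z : Type} (K : KS Z) (x : Fin 4) (p : Bool × Z) : Bool × Z :=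
  if x = 0 then (!p.1, p.2)
  else if p.1 = true then (true, K.g x p.2)
  else (false, if s.val + x.val ≠ 3 then K.g 0 p.2 else p.2)

def ext (s : Fin 3) {Z : Type} (K : KS Z) : KS (Bool × Z) where
  g := extg s K
  inv := by
    intro x p
    rcases p with ⟨i, z⟩
    unfold extg
    by_cases hx : x = 0
    · simp [hx]
    · cases i
      · by_cases h : s.val + x.val ≠ 3
        · simp [hx, h, K.inv 0 z]
        · simp [hx, h]
      · simp [hx, K.inv x z]
  rel := by
    intro p
    rcases p with ⟨i, z⟩
    cases i
    · fin_cases s <;> simp [extg, K.inv 0 z]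
    · simp [extg, K.rel]

/-- vertex reached -/
def vert (i : Bool) : List (Fin 4) → Bool
  | [] => i
  | x :: w => if x = 0 then !(vert i w) else vert i w

/-- section of a word -/
def sec (s : Fin 3) (i : Bool) : List (Fin 4) → List (Fin 4)
  | [] => []
  | x :: w =>
    if x = 0 then sec s i w
    else if vert i w = true then x :: sec s i w
    else if s.val + x.val ≠ 3 then 0 :: sec s i w else sec s i w

lemma foldr_ext (s : Fin 3) {Z : Type} (K : KS Z) (i : Bool) (z : Z) (w : List (Fin 4)) :
    w.foldr (ext s K).g (i, z) = (vert i w, (sec s i w).foldr K.g z) := by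
  induction w with
  | nil => rfl
  | cons x w ih =>
    rw [List.foldr_cons, ih]
    show extg s K x _ = _
    unfold extg
    by_cases hx : x = 0
    · simp [hx, vert, sec]
    · by_cases hv : vert i w = true
      · simp [hx, hv, vert, sec]
      · by_cases h : s.val + x.val ≠ 3
        · simp [hx, hv, h, vert, sec]
        · simp [hx, hv, h, vert, sec]

lemma length_sec_le (s : Fin 3) (i : Bool) (w : List (Fin 4)) : (sec s i w).length ≤ nz w := by
  induction w with
  | nil => simp [sec]
  | cons x w ih =>
    rw [nz_cons]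
    unfold sec
    split_ifs <;> (try simp only [List.length_cons]) <;> omega

/-- `n`-fold self-similar extensions -/
inductive Lv : ℕ → (Z : Type) → KS Z → Prop
  | zero (Z : Type) (K : KS Z) : Lv 0 Z K
  | succ (n : ℕ) (Z : Type) (K : KS Z) (s : Fin 3) : Lv n Z K → Lv (n + 1) (Bool × Z) (ext s K)

lemma Lv.pred {n : ℕ} : ∀ {Z : Type} {K : KS Z}, Lv (n + 1) Z K → Lv n Z K := by
  induction n with
  | zero => intro Z K _; exact Lv.zero Z K
  | succ n ih =>
    intro Z K h
    cases h with
    | succ _ Z K s h => exact Lv.succ n Z K s (ih h)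

lemma exists_Lv (n : ℕ) : ∃ (Z : Type) (K : KS Z), Nonempty Z ∧ Lv n Z K := by
  induction n with
  | zero => exact ⟨Unit, ⟨fun _ => id, fun _ _ => rfl, fun _ => rfl⟩, ⟨()⟩, Lv.zero _ _⟩
  | succ n ih =>
    obtain ⟨Z, K, ⟨z⟩, h⟩ := ih
    exact ⟨Bool × Z, ext 0 K, ⟨(false, z)⟩, Lv.succ n Z K 0 h⟩

/-- the `n`-th approximation of the relation subgroup -/
def ActN (n : ℕ) (w : FreeGroup (Fin 4)) : Prop :=
  ∀ (Z : Type) (K : KS Z), Lv n Z K → act K w = 1

lemma ActN_zero_all {w : FreeGroup (Fin 4)} (h : ActN 0 w) {Z : Type} (K : KS Z) :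
    act K w = 1 := h Z K (Lv.zero Z K)

lemma ActN_mono_zero {w : FreeGroup (Fin 4)} (h : ActN 0 w) (n : ℕ) : ActN n w :=
  fun Z K _ => h Z K (Lv.zero Z K)

lemma ActN_succ {w : FreeGroup (Fin 4)} {n : ℕ} (h : ActN n w) : ActN (n + 1) w :=
  fun Z K hK => h Z K hK.pred

lemma ActN_mono {w : FreeGroup (Fin 4)} {n m : ℕ} (hnm : n ≤ m) (h : ActN n w) : ActN m w := by
  induction hnm with
  | refl => exact h
  | step _ ih => exact ActN_succ ih

/-- the approximating normal subgroups -/
def Nn (n : ℕ) : Subgroup (FreeGroup (Fin 4)) where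
  carrier := {w | ActN n w}
  one_mem' := fun Z K _ => map_one _
  mul_mem' := by
    intro a b ha hb Z K hK
    rw [map_mul, ha Z K hK, hb Z K hK, one_mul]
  inv_mem' := by
    intro a ha Z K hK
    rw [map_inv, ha Z K hK, inv_one]

instance (n : ℕ) : (Nn n).Normal := ⟨by
  intro a ha g Z K hK
  rw [map_mul, map_mul, map_inv, ha Z K hK, mul_one, mul_inv_cancel]⟩

/-! ### the boundary action -/

/-- the generators of the Grigorchuk group `G_ω` acting on binary sequences -/
def bdg (ω : ℕ → Fin 3) (x : Fin 4) (v : ℕ → Bool) : ℕ → Bool :=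
  if x = 0 then Function.update v 0 (!v 0)
  else fun m =>
    if 0 < m ∧ v (m - 1) = false ∧ (∀ j < m - 1, v j = true) ∧
      (ω (m - 1)).val + x.val ≠ 3
    then !v m else v m

/-- prepend a letter to a sequence -/
def scons (i : Bool) (v : ℕ → Bool) : ℕ → Bool
  | 0 => i
  | n + 1 => v n

lemma scons_zero (i : Bool) (v : ℕ → Bool) : scons i v 0 = i := rfl
lemma scons_succ (i : Bool) (v : ℕ → Bool) (n : ℕ) : scons i v (n + 1) = v n := rfl

lemma scons_eta (v : ℕ → Bool) : scons (v 0) (fun n => v (n + 1)) = v := by
  funext n; cases n <;> rfl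

lemma bdg_a (ω : ℕ → Fin 3) (i : Bool) (v : ℕ → Bool) : bdg ω 0 (scons i v) = scons (!i) v := by
  funext n
  cases n <;> simp [bdg, scons, Function.update]

lemma bdg_true (ω : ℕ → Fin 3) (x : Fin 4) (hx : x ≠ 0) (v : ℕ → Bool) :
    bdg ω x (scons true v) = scons true (bdg (fun k => ω (k + 1)) x v) := by
  funext n
  rcases n with _ | _ | n
  · simp [bdg, scons, hx]
  · simp [bdg, scons, hx]
  · have e : (∀ j < n + 1, scons true v j = true) ↔ (∀ j < n, v j = true) := by
      constructor
      · intro h j hj
        exact h (j + 1) (by omega)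
      · intro h j hj
        cases j with
        | zero => rfl
        | succ j => exact h j (by omega)
    simp only [bdg, hx, if_false, scons_succ, Nat.add_sub_cancel, e, Nat.succ_pos, true_and,
      Nat.zero_lt_succ]

lemma bdg_false (ω : ℕ → Fin 3) (x : Fin 4) (hx : x ≠ 0) (v : ℕ → Bool) :
    bdg ω x (scons false v) =
      scons false (if (ω 0).val + x.val ≠ 3 then bdg (fun k => ω (k + 1)) 0 v else v) := by
  funext n
  rcases n with _ | _ | n
  · simp [bdg, scons, hx]
  · by_cases h : (ω 0).val + x.val ≠ 3
    · simp [bdg, scons, hx, h]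
    · simp [bdg, scons, hx, h]
  · have e : ¬ (∀ j < n + 1, scons false v j = true) := by
      intro h
      have := h 0 (by omega)
      simp [scons] at this
    simp only [bdg, hx, if_false, scons_succ, Nat.add_sub_cancel, e, false_and, and_false]
    by_cases h : (ω 0).val + x.val ≠ 3
    · simp [h, Function.update]
    · simp [h]

lemma bdg_inv_aux (x : Fin 4) : ∀ (n : ℕ) (ω : ℕ → Fin 3) (v : ℕ → Bool),
    bdg ω x (bdg ω x v) n = v n := by
  have haa : ∀ (ω ω' : ℕ → Fin 3) (u : ℕ → Bool), bdg ω 0 (bdg ω' 0 u) = u := by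
    intro ω ω' u
    rw [← scons_eta u, bdg_a, bdg_a, Bool.not_not]
  intro n
  induction n with
  | zero =>
    intro ω v
    by_cases hx : x = 0
    · subst hx; rw [haa]
    · rw [← scons_eta v]
      cases v 0
      · rw [bdg_false _ _ hx, bdg_false _ _ hx]; rfl
      · rw [bdg_true _ _ hx, bdg_true _ _ hx]; rfl
  | succ n ih =>
    intro ω v
    by_cases hx : x = 0
    · subst hx; rw [haa]
    · rw [← scons_eta v]
      cases v 0
      · rw [bdg_false _ _ hx, bdg_false _ _ hx]
        by_cases h : (ω 0).val + x.val ≠ 3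
        · rw [if_pos h, if_pos h, haa]
        · rw [if_neg h, if_neg h]
      · rw [bdg_true _ _ hx, bdg_true _ _ hx]
        exact ih _ _

lemma bdg_rel_aux : ∀ (n : ℕ) (ω : ℕ → Fin 3) (v : ℕ → Bool),
    bdg ω 1 (bdg ω 2 (bdg ω 3 v)) n = v n := by
  intro n
  have h1 : (1 : Fin 4) ≠ 0 := by decide
  have h2 : (2 : Fin 4) ≠ 0 := by decide
  have h3 : (3 : Fin 4) ≠ 0 := by decide
  have hinv : ∀ (ω : ℕ → Fin 3) (u : ℕ → Bool), bdg ω 0 (bdg ω 0 u) = u := by
    intro ω u
    funext k
    exact bdg_inv_aux 0 k ω u
  induction n with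
  | zero =>
    intro ω v
    rw [← scons_eta v]
    cases v 0
    · rw [bdg_false _ _ h3, bdg_false _ _ h2, bdg_false _ _ h1]; rfl
    · rw [bdg_true _ _ h3, bdg_true _ _ h2, bdg_true _ _ h1]; rfl
  | succ n ih =>
    intro ω v
    rw [← scons_eta v]
    cases v 0
    · rw [bdg_false _ _ h3, bdg_false _ _ h2, bdg_false _ _ h1]
      have : ω 0 = 0 ∨ ω 0 = 1 ∨ ω 0 = 2 := by
        generalize ω 0 = t
        fin_cases t <;> simp
      rcases this with h | h | h <;> simp [h, hinv]
    · rw [bdg_true _ _ h3, bdg_true _ _ h2, bdg_true _ _ h1]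
      exact ih _ _

def bd (ω : ℕ → Fin 3) : KS (ℕ → Bool) where
  g := bdg ω
  inv := fun x v => funext fun n => bdg_inv_aux x n ω v
  rel := fun v => funext fun n => bdg_rel_aux n ω v

lemma bd_scons (ω : ℕ → Fin 3) (x : Fin 4) (p : Bool × (ℕ → Bool)) :
    (bd ω).g x (scons p.1 p.2) =
      scons (((ext (ω 0) (bd fun k => ω (k + 1))).g x p).1)
        (((ext (ω 0) (bd fun k => ω (k + 1))).g x p).2) := by
  rcases p with ⟨i, v⟩
  show bdg ω x (scons i v) = scons (extg _ _ x (i, v)).1 (extg _ _ x (i, v)).2
  unfold extg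
  by_cases hx : x = 0
  · subst hx
    rw [bdg_a]; simp
  · cases i
    · rw [bdg_false _ _ hx]
      simp only [hx, if_false]
      rfl
    · rw [bdg_true _ _ hx]
      simp only [hx, if_false, if_true]
      rfl

lemma foldr_bd (ω : ℕ → Fin 3) (w : List (Fin 4)) (i : Bool) (v : ℕ → Bool) :
    w.foldr (bd ω).g (scons i v) =
      scons (vert i w) ((sec (ω 0) i w).foldr (bd fun k => ω (k + 1)).g v) := by
  have key : ∀ w : List (Fin 4), w.foldr (bd ω).g (scons i v) =
      scons ((w.foldr (ext (ω 0) (bd fun k => ω (k + 1))).g (i, v)).1)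
        ((w.foldr (ext (ω 0) (bd fun k => ω (k + 1))).g (i, v)).2) := by
    intro w
    induction w with
    | nil => rfl
    | cons x w ih =>
      rw [List.foldr_cons, ih, List.foldr_cons]
      exact bd_scons ω x _
  rw [key, foldr_ext]

lemma scons_inj {i j : Bool} {u v : ℕ → Bool} (h : scons i u = scons j v) : i = j ∧ u = v := by
  refine ⟨congrFun h 0, ?_⟩
  funext n
  exact congrFun h (n + 1)

/-- membership in all kernels -/
def InN (l : List (Fin 4)) : Prop := ∀ (ω : ℕ → Fin 3) (v : ℕ → Bool), l.foldr (bd ω).g v = v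

lemma InN_sec {l : List (Fin 4)} (h : InN l) (s : Fin 3) (i : Bool) :
    vert i l = i ∧ InN (sec s i l) := by
  constructor
  · have h1 := h (fun _ => s) (scons i (fun _ => false))
    rw [foldr_bd] at h1
    exact (scons_inj h1).1
  · intro ω v
    have h1 := h (fun n => Nat.casesOn n s ω) (scons i v)
    rw [foldr_bd] at h1
    exact (scons_inj h1).2

lemma InN_red {l : List (Fin 4)} (h : InN l) : InN (red l) := by
  intro ω v
  rw [foldr_red]; exact h ω v

lemma exists_dir : ∀ x : Fin 4, x ≠ 0 → ∃ s : Fin 3, s.val + x.val ≠ 3 := by decide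

lemma InN_single (x : Fin 4) : ¬ InN [x] := by
  intro h
  by_cases hx : x = 0
  · have := (InN_sec h 0 false).1
    simp [vert, hx] at this
  · obtain ⟨s, hs⟩ := exists_dir x hx
    have h2 := (InN_sec h s false).2
    have h3 := (InN_sec h2 0 false).1
    simp [sec, vert, hx, hs] at h3

/-- triviality of a word in all `n`-fold extensions -/
def WN (n : ℕ) (l : List (Fin 4)) : Prop :=
  ∀ (Z : Type) (K : KS Z), Lv n Z K → ∀ z, l.foldr K.g z = z

lemma WN_mono {n m : ℕ} {l : List (Fin 4)} (hnm : n ≤ m) (h : WN n l) : WN m l := by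
  induction hnm with
  | refl => exact h
  | step _ ih => exact fun Z K hK z => ih Z K hK.pred z

/-- contraction: a word in all kernels is already trivial in some approximation -/
lemma contract : ∀ (k : ℕ) (l : List (Fin 4)), (red l).length ≤ k → InN l → ∃ n, WN n l := by
  intro k
  induction k using Nat.strong_induction_on with
  | _ k ih =>
    intro l hl hN
    by_cases h2 : (red l).length ≤ 1
    · refine ⟨0, ?_⟩
      intro Z K _ z
      have hr : red l = [] := by
        match hm : red l with
        | [] => rfl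
        | [x] =>
          exfalso
          apply InN_single x
          rw [← hm]; exact InN_red hN
        | x :: y :: t =>
          rw [hm] at h2; simp at h2
      rw [← foldr_red, hr]; rfl
    · push Not at h2
      have hN' := InN_red hN
      have hlen : ∀ s i, (red (sec s i (red l))).length < (red l).length := by
        intro s i
        have h3 := length_red_le (sec s i (red l))
        have h4 := length_sec_le s i (red l)
        have h5 := (two_nz_le (red l) (alt_red l)).1
        omega
      have hex : ∀ (s : Fin 3) (i : Bool), ∃ n, WN n (sec s i (red l)) := by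
        intro s i
        exact ih _ (lt_of_lt_of_le (hlen s i) hl) _ le_rfl (InN_sec hN' s i).2
      choose f hf using hex
      have hup : ∃ m, ∀ s i, f s i ≤ m := by
        refine ⟨∑ s, ∑ i, f s i, ?_⟩
        intro s i
        calc f s i ≤ ∑ i, f s i := Finset.single_le_sum (fun _ _ => Nat.zero_le _) (Finset.mem_univ i)
          _ ≤ _ := Finset.single_le_sum (f := fun s => ∑ i, f s i) (fun _ _ => Nat.zero_le _)
            (Finset.mem_univ s)
      obtain ⟨m, hm⟩ := hup
      refine ⟨m + 1, ?_⟩
      intro Z' K' hK' z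
      rw [← foldr_red]
      cases hK' with
      | succ _ Z K s hK =>
        rcases z with ⟨i, z⟩
        rw [foldr_ext, (InN_sec hN' s i).1, WN_mono (hm s i) (hf s i) Z K hK z]

/-- `WN n` words are in the kernel of all boundary actions -/
lemma WN_InN : ∀ (n : ℕ) (l : List (Fin 4)), WN n l → InN l := by
  intro n
  induction n with
  | zero => exact fun l h ω v => h _ (bd ω) (Lv.zero _ _) v
  | succ n ih =>
    intro l h
    have key : ∀ s i, vert i l = i ∧ InN (sec s i l) := by
      intro s i
      constructor
      · obtain ⟨Z, K, ⟨z⟩, hK⟩ := exists_Lv n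
        have h2 := h _ _ (Lv.succ n Z K s hK) (i, z)
        rw [foldr_ext] at h2
        exact congrArg Prod.fst h2
      · apply ih
        intro Z K hK z
        have h2 := h _ _ (Lv.succ n Z K s hK) (i, z)
        rw [foldr_ext] at h2
        exact congrArg Prod.snd h2
    intro ω v
    have e := foldr_bd ω l (v 0) (fun n => v (n + 1))
    rw [scons_eta, (key (ω 0) (v 0)).1, (key (ω 0) (v 0)).2, scons_eta] at e
    exact e

end Pool.Agent.H67R3.Grig
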