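import Pool.Agent.H67R3.Grig

set_option autoImplicit false

namespace Pool.Agent.H67R3.Grig

open FreeGroup (of)

abbrev F4 := FreeGroup (Fin 4)

/-- commutator -/
def cm {G : Type*} [Group G] (x y : G) : G := x * y * x⁻¹ * y⁻¹

lemma map_cm {G H : Type*} [Group G] [Group H] (f : G →* H) (x y : G) :
    f (cm x y) = cm (f x) (f y) := by simp [cm]

lemma cm_one_left {G : Type*} [Group G] (x : G) : cm 1 x = 1 := by simp [cm]
lemma cm_one_right {G : Type*} [Group G] (x : G) : cm x 1 = 1 := by simp [cm]

/-- the substitution `a ↦ aca, b ↦ b, c ↦ c, d ↦ d` -/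
def sub : F4 →* F4 := FreeGroup.lift (fun i => if i = 0 then of 0 * of 2 * of 0 else of i)

/-- first coordinate of the section of the substitution -/
def tau (s : Fin 3) : F4 →* F4 :=
  FreeGroup.lift (fun i => if i = 0 then of 2 else if s.val + i.val ≠ 3 then of 0 else 1)

/-- second coordinate of the section of the substitution -/
def tau' (s : Fin 3) : F4 →* F4 :=
  FreeGroup.lift (fun i => if i = 0 then (if s.val + 2 ≠ 3 then of 0 else 1) else of i)

lemma ext_g (s : Fin 3) {Z : Type} (K : KS Z) (x : Fin 4) (p : Bool × Z) :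
    (ext s K).g x p = if x = 0 then (!p.1, p.2)
      else if p.1 = true then (true, K.g x p.2)
      else (false, if s.val + x.val ≠ 3 then K.g 0 p.2 else p.2) := rfl

lemma act_sub (s : Fin 3) {Z : Type} (K : KS Z) (w : F4) :
    (∀ z, act (ext s K) (sub w) (false, z) = (false, act K (tau s w) z)) ∧
    (∀ z, act (ext s K) (sub w) (true, z) = (true, act K (tau' s w) z)) := by
  induction w using FreeGroup.induction_on with
  | C1 => simp
  | of i =>
    constructor
    · intro z
      by_cases hi : i = 0
      · simp [sub, tau, hi, act_of, ext_g]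
      · by_cases hs : s.val + i.val = 3
        · simp [sub, tau, hi, act_of, ext_g, hs]
        · simp [sub, tau, hi, act_of, ext_g, hs]
    · intro z
      by_cases hi : i = 0
      · by_cases hs : s.val + 2 = 3
        · simp [sub, tau', hi, act_of, ext_g, hs]
        · simp [sub, tau', hi, act_of, ext_g, hs]
      · simp [sub, tau', hi, act_of, ext_g]
  | inv_of i ih =>
    constructor
    · intro z
      simp only [map_inv]
      rw [Equiv.Perm.inv_eq_iff_eq, ih.1, ← Equiv.Perm.mul_apply, mul_inv_cancel,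
        Equiv.Perm.one_apply]
    · intro z
      simp only [map_inv]
      rw [Equiv.Perm.inv_eq_iff_eq, ih.2, ← Equiv.Perm.mul_apply, mul_inv_cancel,
        Equiv.Perm.one_apply]
  | mul x y hx hy =>
    constructor
    · intro z
      simp only [map_mul, Equiv.Perm.mul_apply, hx.1, hy.1]
    · intro z
      simp only [map_mul, Equiv.Perm.mul_apply, hx.2, hy.2]

/-- `g` dies under every homomorphism with metabelian image -/
def Meta2 (g : F4) : Prop :=
  ∀ (D : Type) [Group D] (f : F4 →* D),
    (∀ x y z w : F4, cm (cm (f x) (f y)) (cm (f z) (f w)) = 1) → f g = 1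

lemma Meta2.sub {g : F4} (h : Meta2 g) : Meta2 (sub g) := by
  intro D _ f hD
  exact h D (f.comp Grig.sub) (fun x y z w => hD _ _ _ _)

/-- the infinite dihedral group is metabelian -/
lemma dihedral_cm (x y : DihedralGroup 0) : ∃ i, cm x y = DihedralGroup.r i := by
  unfold cm
  rcases x with i | i <;> rcases y with j | j
  · exact ⟨_, rfl⟩
  · exact ⟨_, rfl⟩
  · exact ⟨_, rfl⟩
  · exact ⟨_, rfl⟩

lemma dihedral_metab (x y z w : DihedralGroup 0) : cm (cm x y) (cm z w) = 1 := by
  obtain ⟨i, hi⟩ := dihedral_cm x y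
  obtain ⟨j, hj⟩ := dihedral_cm z w
  rw [hi, hj]
  have h : DihedralGroup.r i * DihedralGroup.r j = DihedralGroup.r j * DihedralGroup.r i := by
    rw [DihedralGroup.r_mul_r, DihedralGroup.r_mul_r, add_comm]
  unfold cm
  rw [h, mul_inv_cancel_right, mul_inv_cancel]

/-- the homomorphism from the infinite dihedral group given by two involutions -/
def dihLift {G : Type*} [Group G] (A C : G) (hA : A * A = 1) (hC : C * C = 1) :
    DihedralGroup 0 →* G where
  toFun x := match x with
    | DihedralGroup.r i => (A * C) ^ (show ℤ from i)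
    | DihedralGroup.sr i => A * (A * C) ^ (show ℤ from i)
  map_one' := by
    show (A * C) ^ (0 : ℤ) = 1
    simp
  map_mul' := by
    have hAi : A⁻¹ = A := inv_eq_of_mul_eq_one_left hA
    have hCi : C⁻¹ = C := inv_eq_of_mul_eq_one_left hC
    have hconj : ∀ k : ℤ, (A * C) ^ k * A = A * (A * C) ^ (-k) := by
      intro k
      have h1 : A * (A * C) * A⁻¹ = (A * C)⁻¹ := by
        rw [mul_inv_rev, hAi, hCi, ← mul_assoc, hA, one_mul]
      have h2 : A * (A * C) ^ (-k) * A⁻¹ = (A * C) ^ k := by
        rw [← conj_zpow, h1, inv_zpow, zpow_neg, inv_inv]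
      rw [← h2, mul_assoc, mul_assoc, inv_mul_cancel, mul_one]
    intro x y
    rcases x with i | i <;> rcases y with j | j
    · show (A * C) ^ ((show ℤ from i) + (show ℤ from j)) = _
      rw [zpow_add]
    · show A * (A * C) ^ ((show ℤ from j) - (show ℤ from i)) =
        (A * C) ^ (show ℤ from i) * (A * (A * C) ^ (show ℤ from j))
      rw [← mul_assoc, hconj, mul_assoc, ← zpow_add]
      congr 2; ring
    · show A * (A * C) ^ ((show ℤ from i) + (show ℤ from j)) = _
      rw [zpow_add, mul_assoc]
    · show (A * C) ^ ((show ℤ from j) - (show ℤ from i)) =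
        A * (A * C) ^ (show ℤ from i) * (A * (A * C) ^ (show ℤ from j))
      rw [mul_assoc, ← mul_assoc ((A * C) ^ _) A, hconj, mul_assoc A ((A * C) ^ _), ← zpow_add,
        ← mul_assoc A A, hA, one_mul]
      congr 1; ring

lemma act_of_sq {Z : Type} (K : KS Z) (i : Fin 4) : act K (of i) * act K (of i) = 1 := by
  ext z
  simp [act_of, K.inv i z]

/-- Meta2 elements die under `tau s` -/
lemma act_tau {Z : Type} (K : KS Z) (s : Fin 3) {g : F4} (hg : Meta2 g) :
    act K (tau s g) = 1 := by
  set θ := dihLift (act K (of 0)) (act K (of 2)) (act_of_sq K 0) (act_of_sq K 2) with hθ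
  let f : F4 →* DihedralGroup 0 := FreeGroup.lift (fun i =>
    if i = 0 then DihedralGroup.sr 1 else if s.val + i.val ≠ 3 then DihedralGroup.sr 0 else 1)
  have hf : θ.comp f = (act K).comp (tau s) := by
    apply FreeGroup.ext_hom
    intro i
    simp only [MonoidHom.comp_apply, f, tau, FreeGroup.lift_apply_of]
    split_ifs with h1 h2
    · show act K (of 0) * (act K (of 0) * act K (of 2)) ^ (1 : ℤ) = _
      rw [zpow_one, ← mul_assoc, act_of_sq, one_mul]
    · show act K (of 0) * (act K (of 0) * act K (of 2)) ^ (0 : ℤ) = _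
      rw [zpow_zero, mul_one]
    · rw [map_one, map_one]
  have h2 : ((act K).comp (tau s)) g = 1 := by
    apply hg
    intro x y z w
    rw [← hf]
    simp only [MonoidHom.comp_apply, ← map_cm]
    rw [map_cm f, map_cm f, map_cm f, dihedral_metab, map_one]
  exact h2

lemma commute_tau'_gen {Z : Type} (K : KS Z) (i j : Fin 4) :
    Commute (act K (tau' 1 (of i))) (act K (tau' 1 (of j))) := by
  fin_cases i <;> fin_cases j <;>
    (refine Equiv.ext (fun z => ?_)
     simp [tau', act_of, K.r12, K.r21, K.r23, K.r32, K.r13, K.r31])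

lemma commute_tau' {Z : Type} (K : KS Z) (x y : F4) :
    Commute (act K (tau' 1 x)) (act K (tau' 1 y)) := by
  have h1 : ∀ i, ∀ y, Commute (act K (tau' 1 (of i))) (act K (tau' 1 y)) := by
    intro i y
    induction y using FreeGroup.induction_on with
    | C1 => simp
    | of j => exact commute_tau'_gen K i j
    | inv_of j ih => simpa using ih
    | mul a b ha hb => simpa using ha.mul_right hb
  induction x using FreeGroup.induction_on with
  | C1 => simp
  | of j => exact h1 j y
  | inv_of j ih => simpa using ih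
  | mul a b ha hb => simpa using ha.mul_left hb

lemma act_tau'_one {Z : Type} (K : KS Z) {g : F4} (hg : Meta2 g) :
    act K (tau' 1 g) = 1 := by
  have h2 : ((act K).comp (tau' 1)) g = 1 := by
    apply hg
    intro x y z w
    have h : ∀ a b, cm (((act K).comp (tau' 1)) a) (((act K).comp (tau' 1)) b) = 1 := by
      intro a b
      have := commute_tau' K a b
      simp only [MonoidHom.comp_apply]
      unfold cm
      rw [this.eq, mul_inv_cancel_right, mul_inv_cancel]
    rw [h, h, cm_one_left]
  exact h2

lemma tau'_id (s : Fin 3) (hs : s ≠ 1) (g : F4) : tau' s g = g := by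
  have : tau' s = MonoidHom.id F4 := by
    apply FreeGroup.ext_hom
    intro i
    have h : s.val + 2 ≠ 3 := by
      intro h
      apply hs
      ext
      simp
      omega
    simp only [tau', FreeGroup.lift_apply_of, MonoidHom.id_apply]
    split_ifs with h1
    · rw [h1]
    · rfl
  rw [this]; rfl

lemma sub_mem {n : ℕ} {g : F4} (hm : Meta2 g) (hg : ActN n g) : ActN (n + 1) (sub g) := by
  intro Z' K' hK'
  cases hK' with
  | succ _ Z K s hK =>
    refine Equiv.ext (fun p => ?_)
    rcases p with ⟨i, z⟩
    cases i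
    · rw [(act_sub s K g).1, act_tau K s hm]; rfl
    · rw [(act_sub s K g).2]
      by_cases hs : s = 1
      · subst hs
        rw [act_tau'_one K hm]; rfl
      · rw [tau'_id s hs, hg Z K hK]; rfl

lemma sub_notMem {n : ℕ} {g : F4} (hg : ¬ ActN n g) : ¬ ActN (n + 1) (sub g) := by
  intro h
  apply hg
  intro Z K hK
  have h2 := h _ _ (Lv.succ n Z K 0 hK)
  ext z
  have h3 := (act_sub 0 K g).2 z
  rw [h2, tau'_id 0 (by decide)] at h3
  exact (congrArg Prod.snd h3).symm

/-- the basic elements -/
def kk (x : Fin 4) : F4 := (of 0 * of x) ^ 4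

def g0 : F4 := cm (cm (kk 3) (kk 2)) (cm (kk 3) (kk 1))

lemma meta_g0 : Meta2 g0 := by
  intro D _ f hD
  unfold g0
  rw [map_cm, map_cm, map_cm]
  exact hD _ _ _ _

lemma act_kk {Z : Type} (K : KS Z) (s : Fin 3) (x : Fin 4) (hx : x ≠ 0) (h : s.val + x.val = 3) :
    act (ext s K) (kk x) = 1 := by
  refine Equiv.ext (fun p => ?_)
  rcases p with ⟨i, z⟩
  unfold kk
  cases i
  · simp [pow_succ, act_of, ext_g, hx, h, K.inv x z]
  · simp [pow_succ, act_of, ext_g, hx, h, K.inv x z]

lemma g0_mem : ActN 1 g0 := by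
  intro Z' K' hK'
  cases hK' with
  | succ _ Z K s hK =>
    have hs : s = 0 ∨ s = 1 ∨ s = 2 := by
      fin_cases s <;> simp
    unfold g0
    rw [map_cm, map_cm, map_cm]
    rcases hs with h | h | h
    · subst h
      rw [act_kk K 0 3 (by decide) (by decide)]
      simp [cm_one_left]
    · subst h
      rw [act_kk K 1 2 (by decide) (by decide)]
      simp [cm_one_left, cm_one_right]
    · subst h
      rw [act_kk K 2 1 (by decide) (by decide)]
      simp [cm_one_right]

/-- a five point model -/
def K5 : KS (Fin 5) where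
  g := fun x => match x with
    | 0 => ![2, 1, 0, 4, 3]
    | 1 => ![2, 3, 0, 1, 4]
    | 2 => ![1, 0, 3, 2, 4]
    | 3 => ![3, 2, 1, 0, 4]
  inv := by
    intro i z
    revert i z
    decide
  rel := by decide

set_option maxRecDepth 100000 in
lemma g0_notMem : ¬ ActN 0 g0 := by
  intro h
  have h2 := ActN_zero_all h K5
  have h3 : ∀ z, act K5 g0 z = z := by
    intro z; rw [h2]; rfl
  simp only [act_eq] at h3
  revert h3
  decide

/-- strictly increasing chain -/
lemma chain (n : ℕ) : ∃ g, Meta2 g ∧ ActN (n + 1) g ∧ ¬ ActN n g := by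
  induction n with
  | zero => exact ⟨g0, meta_g0, g0_mem, g0_notMem⟩
  | succ n ih =>
    obtain ⟨g, h1, h2, h3⟩ := ih
    exact ⟨sub g, h1.sub, sub_mem h1 h2, sub_notMem h3⟩

lemma ActN_iff (n : ℕ) (w : F4) : ActN n w ↔ WN n (wd w) := by
  constructor
  · intro h Z K hK z
    rw [← act_eq, h Z K hK]; rfl
  · intro h Z K hK
    ext z
    rw [act_eq]; exact h Z K hK z

/-- **The universal Grigorchuk group is not finitely presented** (word form). -/
theorem not_fp (S : Finset F4)
    (hS : (Subgroup.normalClosure (S : Set F4) : Set F4) = {w : F4 | InN (wd w)}) : False := by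
  have h1 : ∀ w ∈ S, ∃ n, ActN n w := by
    intro w hw
    have h2 : w ∈ {w : F4 | InN (wd w)} := by
      rw [← hS]; exact Subgroup.subset_normalClosure hw
    obtain ⟨n, hn⟩ := contract _ (wd w) le_rfl h2
    exact ⟨n, (ActN_iff n w).2 hn⟩
  have h3 : ∃ m, ∀ w ∈ S, ActN m w := by
    choose! f hf using h1
    refine ⟨S.sup f, fun w hw => ActN_mono (Finset.le_sup hw) (hf w hw)⟩
  obtain ⟨m, hm⟩ := h3
  have h4 : Subgroup.normalClosure (S : Set F4) ≤ Nn m :=
    Subgroup.normalClosure_le_normal (fun w hw => hm w hw)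
  obtain ⟨g, -, hg1, hg2⟩ := chain m
  apply hg2
  have h5 : g ∈ {w : F4 | InN (wd w)} := WN_InN (m + 1) _ ((ActN_iff _ _).1 hg1)
  rw [← hS] at h5
  exact h4 h5

end Pool.Agent.H67R3.Grig
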