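import Pool.Agent.H67R3.RHDefs

set_option autoImplicit false

namespace Pool.Agent.H67R3.RH

open RHDefs

section
variable {G : Type} [Group G] {m k : ℕ} (x : Fin m → G) (H : Fin k → Subgroup G)

@[simp] lemma toGroup_inl (j : Fin m) :
    toGroup x H (Monoid.Coprod.inl (FreeGroup.of j)) = x j := by
  simp [toGroup]

@[simp] lemma toGroup_incl (i : Fin k) (h : H i) :
    toGroup x H (incl m H i h) = h := by
  simp [toGroup, incl]

omit x H in
lemma bot_fg' : (⊥ : Subgroup G).FG := ⟨∅, by simp⟩

/-- the letters generate as a monoid -/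
lemma exists_word (f : RelFree m H) :
    ∃ W : List (RelFree m H), (∀ g ∈ W, g ∈ letters m H) ∧ W.prod = f := by
  induction f using Monoid.Coprod.induction_on with
  | inl g =>
    induction g using FreeGroup.induction_on with
    | C1 => exact ⟨[], by simp, by simp⟩
    | of j => exact ⟨[Monoid.Coprod.inl (FreeGroup.of j)], by
        intro g hg
        rw [List.mem_singleton] at hg
        exact Or.inl ⟨j, hg⟩, by simp⟩
    | inv_of j _ => exact ⟨[(Monoid.Coprod.inl (FreeGroup.of j))⁻¹], by
        intro g hg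
        rw [List.mem_singleton] at hg
        exact Or.inr (Or.inl ⟨j, hg⟩), by simp⟩
    | mul a b ha hb =>
      obtain ⟨W, h1, h2⟩ := ha
      obtain ⟨W', h1', h2'⟩ := hb
      refine ⟨W ++ W', ?_, by rw [List.prod_append, h2, h2', map_mul]⟩
      intro g hg
      rcases List.mem_append.1 hg with h | h
      · exact h1 g h
      · exact h1' g h
  | inr g =>
    induction g using Monoid.CoprodI.induction_on with
    | one => exact ⟨[], by simp, by simp⟩
    | of i h => exact ⟨[incl m H i h], by
        intro g hg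
        rw [List.mem_singleton] at hg
        exact Or.inr (Or.inr ⟨i, h, hg⟩), by simp [incl]⟩
    | mul a b ha hb =>
      obtain ⟨W, h1, h2⟩ := ha
      obtain ⟨W', h1', h2'⟩ := hb
      refine ⟨W ++ W', ?_, by rw [List.prod_append, h2, h2', map_mul]⟩
      intro g hg
      rcases List.mem_append.1 hg with h | h
      · exact h1 g h
      · exact h1' g h
  | mul a b ha hb =>
    obtain ⟨W, h1, h2⟩ := ha
    obtain ⟨W', h1', h2'⟩ := hb
    refine ⟨W ++ W', ?_, by rw [List.prod_append, h2, h2']⟩
    intro g hg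
    rcases List.mem_append.1 hg with h | h
    · exact h1 g h
    · exact h1' g h

/-- the subgroup of the free product generated by everything except the part of `H i₀` outside
of `K` -/
def part (i₀ : Fin k) (K : Subgroup G) : Subgroup (RelFree m H) :=
  Subgroup.closure ({f | ∃ j : Fin m, f = Monoid.Coprod.inl (FreeGroup.of j)} ∪
    {f | ∃ (i : Fin k) (h : H i), (i = i₀ → (h : G) ∈ K) ∧
      f = incl m H i h})

lemma part_mono (i₀ : Fin k) {K K' : Subgroup G} (h : K ≤ K') :
    part (m := m) H i₀ K ≤ part H i₀ K' := by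
  apply Subgroup.closure_mono
  apply Set.union_subset_union_right
  rintro f ⟨i, h1, h2, rfl⟩
  exact ⟨i, h1, fun hi => h (h2 hi), rfl⟩

lemma exists_part (i₀ : Fin k) (f : RelFree m H) :
    ∃ K : Subgroup G, K.FG ∧ K ≤ H i₀ ∧ f ∈ part H i₀ K := by
  obtain ⟨W, hW, rfl⟩ := exists_word H f
  induction W with
  | nil => exact ⟨⊥, bot_fg', bot_le, by simp⟩
  | cons a W ih =>
    obtain ⟨K, h1, h2, h3⟩ := ih (fun g hg => hW g (by simp [hg]))
    rcases hW a (by simp) with ⟨j, rfl⟩ | ⟨j, rfl⟩ | ⟨i, h, rfl⟩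
    · refine ⟨K, h1, h2, ?_⟩
      rw [List.prod_cons]
      exact Subgroup.mul_mem _ (Subgroup.subset_closure (Or.inl ⟨j, rfl⟩)) h3
    · refine ⟨K, h1, h2, ?_⟩
      rw [List.prod_cons]
      exact Subgroup.mul_mem _ (Subgroup.inv_mem _ (Subgroup.subset_closure (Or.inl ⟨j, rfl⟩))) h3
    · by_cases hi : i = i₀
      · subst hi
        refine ⟨K ⊔ Subgroup.zpowers (h : G), ?_, ?_, ?_⟩
        · exact Subgroup.FG.sup h1 ⟨{(h : G)}, by rw [Finset.coe_singleton,
            Subgroup.zpowers_eq_closure]⟩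
        · exact sup_le h2 (by rw [Subgroup.zpowers_le]; exact h.2)
        · rw [List.prod_cons]
          refine Subgroup.mul_mem _ (Subgroup.subset_closure (Or.inr ⟨i, h, fun _ => ?_, rfl⟩))
            (part_mono H i le_sup_left h3)
          exact Subgroup.mem_sup_right (Subgroup.mem_zpowers _)
      · refine ⟨K, h1, h2, ?_⟩
        rw [List.prod_cons]
        exact Subgroup.mul_mem _ (Subgroup.subset_closure
          (Or.inr ⟨i, h, fun h' => absurd h' hi, rfl⟩)) h3

lemma exists_part_finite (i₀ : Fin k) (R : Set (RelFree m H)) (hR : R.Finite) :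
    ∃ K : Subgroup G, K.FG ∧ K ≤ H i₀ ∧ ∀ r ∈ R, r ∈ part H i₀ K := by
  induction R, hR using Set.Finite.induction_on with
  | empty => exact ⟨⊥, bot_fg', bot_le, by simp⟩
  | insert _ _ ih =>
    obtain ⟨K, h1, h2, h3⟩ := ih
    rename_i a s _ _
    obtain ⟨K', h1', h2', h3'⟩ := exists_part H i₀ a
    refine ⟨K ⊔ K', Subgroup.FG.sup h1 h1', sup_le h2 h2', ?_⟩
    intro f hf
    rcases hf with rfl | hf
    · exact part_mono H i₀ le_sup_right h3'
    · exact part_mono H i₀ le_sup_left (h3 f hf)

open Classical in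
/-- the flip -/
noncomputable def flip (K : Subgroup G) : Equiv.Perm (G × Bool) :=
  Function.Involutive.toPerm (fun p => if p.1 ∈ K then (p.1, !p.2) else p) (by
    rintro ⟨a, b⟩
    by_cases h : a ∈ K <;> simp [h])

lemma flip_mem {K : Subgroup G} {a : G} (h : a ∈ K) (b : Bool) : flip K (a, b) = (a, !b) := by
  simp [flip, Function.Involutive.toPerm, h]

lemma flip_notMem {K : Subgroup G} {a : G} (h : a ∉ K) (b : Bool) : flip K (a, b) = (a, b) := by
  simp [flip, Function.Involutive.toPerm, h]

/-- left multiplication on `G × Bool` -/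
noncomputable def lm : G →* Equiv.Perm (G × Bool) where
  toFun g := (Equiv.mulLeft g).prodCongr (Equiv.refl Bool)
  map_one' := by ext ⟨a, b⟩ <;> simp
  map_mul' g h := by ext ⟨a, b⟩ <;> simp [mul_assoc]

lemma lm_apply (g a : G) (b : Bool) : lm g (a, b) = (g * a, b) := rfl

lemma lm_flip_comm {K : Subgroup G} {g : G} (h : g ∈ K) : flip K * lm g = lm g * flip K := by
  apply Equiv.ext
  rintro ⟨a, b⟩
  rw [Equiv.Perm.mul_apply, Equiv.Perm.mul_apply, lm_apply]
  by_cases ha : a ∈ K
  · rw [flip_mem ha, flip_mem (K.mul_mem h ha), lm_apply]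
  · rw [flip_notMem ha, flip_notMem, lm_apply]
    rwa [Subgroup.mul_mem_cancel_left _ h]

lemma mem_of_comm {K : Subgroup G} {g : G} (h : flip K * lm g = lm g * flip K) : g ∈ K := by
  by_contra hg
  have h1 := congrArg (fun e : Equiv.Perm (G × Bool) => e (1, false)) h
  simp only [Equiv.Perm.mul_apply, lm_apply, mul_one, flip_notMem hg, flip_mem K.one_mem] at h1
  exact absurd (congrArg Prod.snd h1) (by simp)

/-- twisted action -/
noncomputable def tw (i₀ : Fin k) (K : Subgroup G) : RelFree m H →* Equiv.Perm (G × Bool) :=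
  Monoid.Coprod.lift (lm.comp (FreeGroup.lift x)) (Monoid.CoprodI.lift (M := fun i => ↥(H i)) fun i =>
    if i = i₀ then (MulAut.conj (flip K)).toMonoidHom.comp (lm.comp (H i).subtype)
    else lm.comp (H i).subtype)

lemma tw_inl (i₀ : Fin k) (K : Subgroup G) (j : Fin m) :
    tw x H i₀ K (Monoid.Coprod.inl (FreeGroup.of j)) = lm (x j) := by
  simp [tw]

lemma tw_inr_ne (i₀ : Fin k) (K : Subgroup G) (i : Fin k) (hi : i ≠ i₀) (h : H i) :
    tw x H i₀ K (incl m H i h) = lm (h : G) := by
  simp [tw, incl, hi]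

lemma tw_inr_eq (i₀ : Fin k) (K : Subgroup G) (h : H i₀) :
    tw x H i₀ K (incl m H i₀ h) = flip K * lm (h : G) * (flip K)⁻¹ := by
  simp [tw, incl]

lemma tw_eq_of_part (i₀ : Fin k) (K : Subgroup G) (f : RelFree m H) (hf : f ∈ part H i₀ K) :
    tw x H i₀ K f = lm (toGroup x H f) := by
  unfold part at hf
  induction hf using Subgroup.closure_induction with
  | mem f hf =>
    rcases hf with ⟨j, rfl⟩ | ⟨i, h, h1, rfl⟩
    · rw [tw_inl, toGroup_inl]
    · rw [toGroup_incl]
      by_cases hi : i = i₀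
      · subst hi
        rw [tw_inr_eq, lm_flip_comm (h1 rfl), mul_inv_cancel_right]
      · rw [tw_inr_ne x H i₀ K i hi]
  | one => simp
  | mul a b _ _ iha ihb => rw [map_mul, map_mul, map_mul, iha, ihb]
  | inv a _ ih => rw [map_inv, map_inv, map_inv, ih]

end

/-- peripheral subgroups of finitely generated relatively hyperbolic groups are finitely
generated (only a finite relative presentation is used) -/
theorem peripheral_fg {G : Type} [Group G] [hG : Group.FG G] {k : ℕ} (H : Fin k → Subgroup G)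
    (h : HypRelTo H) (i₀ : Fin k) : (H i₀).FG := by
  obtain ⟨m, x, R, C, hsurj, hRfin, hR1, hD⟩ := h
  obtain ⟨S, hS⟩ := hG.out
  -- lifts of the generators
  obtain ⟨K1, hK1, hK1', hK1''⟩ := exists_part_finite (m := m) H i₀ R hRfin
  obtain ⟨K2, hK2, hK2', hK2''⟩ := exists_part_finite (m := m) H i₀
    ((Function.surjInv hsurj) '' (S : Set G)) (S.finite_toSet.image _)
  set K := K1 ⊔ K2 with hK
  have hKfg : K.FG := Subgroup.FG.sup hK1 hK2
  have hKle : K ≤ H i₀ := sup_le hK1' hK2'
  have hRK : ∀ r ∈ R, r ∈ part H i₀ K := fun r hr => part_mono H i₀ le_sup_left (hK1'' r hr)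
  have hSK : ∀ s ∈ S, Function.surjInv hsurj s ∈ part H i₀ K :=
    fun s hs => part_mono H i₀ le_sup_right (hK2'' _ ⟨s, hs, rfl⟩)
  -- the kernel of `toGroup` is in the kernel of the twisted action
  have hker : ∀ f, toGroup x H f = 1 → tw x H i₀ K f = 1 := by
    intro f hf
    obtain ⟨W, hW, rfl⟩ := exists_word H f
    obtain ⟨P, -, hP2, hP3⟩ := hD W hW hf
    rw [← hP3]
    have key : ∀ P : List (RelFree m H), (∀ p ∈ P, ∃ g r, (r ∈ R ∨ r⁻¹ ∈ R) ∧ p = g * r * g⁻¹) →
        tw x H i₀ K P.prod = 1 := by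
      intro P
      induction P with
      | nil => intro _; simp
      | cons a P ih =>
        intro hP
        obtain ⟨g, r, hr, rfl⟩ := hP a (by simp)
        have e1 : tw x H i₀ K r = 1 := by
          rcases hr with hr | hr
          · rw [tw_eq_of_part x H i₀ K r (hRK r hr), hR1 r hr, map_one]
          · have := tw_eq_of_part x H i₀ K r⁻¹ (hRK _ hr)
            rw [hR1 _ hr, map_one, map_inv, inv_eq_one] at this
            exact this
        rw [List.prod_cons, map_mul, ih (fun p hp => hP p (by simp [hp]))]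
        simp [e1]
    exact key P hP2
  -- every element of `G` is the image of an element of the part
  have himg : ∀ g : G, ∃ e ∈ part (m := m) H i₀ K, toGroup x H e = g := by
    intro g
    have hg : g ∈ Subgroup.closure (S : Set G) := by rw [hS]; trivial
    induction hg using Subgroup.closure_induction with
    | mem g hg => exact ⟨_, hSK g hg, Function.surjInv_eq hsurj g⟩
    | one => exact ⟨1, Subgroup.one_mem _, map_one _⟩
    | mul a b _ _ iha ihb =>
      obtain ⟨e, h1, h2⟩ := iha
      obtain ⟨e', h1', h2'⟩ := ihb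
      exact ⟨e * e', Subgroup.mul_mem _ h1 h1', by rw [map_mul, h2, h2']⟩
    | inv a _ ih =>
      obtain ⟨e, h1, h2⟩ := ih
      exact ⟨e⁻¹, Subgroup.inv_mem _ h1, by rw [map_inv, h2]⟩
  have hle : H i₀ ≤ K := by
    intro g hg
    obtain ⟨e, he, hge⟩ := himg g
    set f : RelFree m H := incl m H i₀ ⟨g, hg⟩ with hf
    have h1 : toGroup x H (f * e⁻¹) = 1 := by
      rw [map_mul, map_inv, hge, hf, toGroup_incl, mul_inv_cancel]
    have h2 := hker _ h1
    rw [map_mul, map_inv, mul_inv_eq_one, tw_eq_of_part x H i₀ K e he, hge, hf, tw_inr_eq] at h2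
    apply mem_of_comm
    rw [mul_inv_eq_iff_eq_mul] at h2
    exact h2
  have : H i₀ = K := le_antisymm hle hKle
  rw [this]; exact hKfg

end Pool.Agent.H67R3.RH
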