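import Pool.Agent.H67R3.RH1

set_option autoImplicit false

namespace Pool.Agent.H67R3.RH

open RHDefs

/-- the coding group -/
abbrev CG (m k : ℕ) : Type := FreeGroup (Fin m ⊕ (Fin k × ℕ))

section coding
variable {n m k : ℕ}

/-- evaluation of codes -/
def ev (x : Fin m → FreeGroup (Fin n)) (p : Fin k → List (FreeGroup (Fin n))) :
    CG m k →* FreeGroup (Fin n) :=
  FreeGroup.lift (Sum.elim x (fun ij => (p ij.1).getD ij.2 1))

/-- peripheral letters -/
def peri (i : Fin k) : FreeGroup ℕ →* CG m k := FreeGroup.map (fun j => Sum.inr (i, j))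

/-- the map onto the peripheral subgroup -/
def th (p : Fin k → List (FreeGroup (Fin n))) (N : Marked n) (i : Fin k) :
    FreeGroup ℕ →* FreeGroup (Fin n) ⧸ N.1 :=
  FreeGroup.lift (fun j => (QuotientGroup.mk ((p i).getD j 1) : FreeGroup (Fin n) ⧸ N.1))

/-- the peripheral subgroups -/
def Hn (p : Fin k → List (FreeGroup (Fin n))) (N : Marked n) (i : Fin k) :
    Subgroup (FreeGroup (Fin n) ⧸ N.1) := (th p N i).range

/-- the map onto the peripheral subgroup, corestricted -/
def rr (p : Fin k → List (FreeGroup (Fin n))) (N : Marked n) (i : Fin k) :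
    FreeGroup ℕ →* Hn p N i := (th p N i).rangeRestrict

lemma rr_coe (p : Fin k → List (FreeGroup (Fin n))) (N : Marked n) (i : Fin k)
    (w : FreeGroup ℕ) : ((rr p N i w : Hn p N i) : FreeGroup (Fin n) ⧸ N.1) = th p N i w := rfl

lemma rr_surj (p : Fin k → List (FreeGroup (Fin n))) (N : Marked n) (i : Fin k) :
    Function.Surjective (rr p N i) := (th p N i).rangeRestrict_surjective

lemma rr_eq_one (p : Fin k → List (FreeGroup (Fin n))) (N : Marked n) (i : Fin k)
    (w : FreeGroup ℕ) : rr p N i w = 1 ↔ th p N i w = 1 := by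
  rw [← rr_coe]
  exact (OneMemClass.coe_eq_one).symm

lemma mk_ev_peri (x : Fin m → FreeGroup (Fin n)) (p : Fin k → List (FreeGroup (Fin n)))
    (N : Marked n) (i : Fin k) (w : FreeGroup ℕ) :
    (QuotientGroup.mk (ev x p (peri i w)) : FreeGroup (Fin n) ⧸ N.1) = th p N i w := by
  have : (QuotientGroup.mk' N.1).comp ((ev x p).comp (peri i)) = th p N i := by
    apply FreeGroup.ext_hom
    intro j
    simp [ev, peri, th]
  exact DFunLike.congr_fun this w

/-- the images of the free generators -/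
def xN (x : Fin m → FreeGroup (Fin n)) (N : Marked n) : Fin m → FreeGroup (Fin n) ⧸ N.1 :=
  fun j => QuotientGroup.mk (x j)

/-- decoding -/
noncomputable def Ph (m : ℕ) (p : Fin k → List (FreeGroup (Fin n))) (N : Marked n) :
    CG m k →* RelFree m (Hn p N) :=
  FreeGroup.lift (Sum.elim (fun j => Monoid.Coprod.inl (FreeGroup.of j))
    (fun ij => incl m (Hn p N) ij.1 (rr p N ij.1 (FreeGroup.of ij.2))))

lemma Ph_peri (p : Fin k → List (FreeGroup (Fin n))) (N : Marked n) (i : Fin k)
    (w : FreeGroup ℕ) :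
    Ph m p N (peri i w) = incl m (Hn p N) i (rr p N i w) := by
  have : (Ph m p N).comp (peri i) = (incl m (Hn p N) i).comp (rr p N i) := by
    apply FreeGroup.ext_hom
    intro j
    simp [Ph, peri]
  exact DFunLike.congr_fun this w

lemma toGroup_Ph (x : Fin m → FreeGroup (Fin n)) (p : Fin k → List (FreeGroup (Fin n)))
    (N : Marked n) (u : CG m k) :
    toGroup (xN x N) (Hn p N) (Ph m p N u) = QuotientGroup.mk (ev x p u) := by
  have : (toGroup (xN x N) (Hn p N)).comp (Ph m p N) =
      (QuotientGroup.mk' N.1).comp (ev x p) := by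
    apply FreeGroup.ext_hom
    rintro (j | ⟨i, j⟩)
    · simp [Ph, ev, xN]
    · simp [Ph, ev, rr_coe, th]
  exact DFunLike.congr_fun this u

/-- relations between peripheral elements -/
def perRel (x : Fin m → FreeGroup (Fin n)) (p : Fin k → List (FreeGroup (Fin n)))
    (N : Marked n) : Set (CG m k) :=
  {u | ∃ i w, ev x p (peri i w) ∈ N.1 ∧ u = peri i w}

lemma ker_Ph (x : Fin m → FreeGroup (Fin n)) (p : Fin k → List (FreeGroup (Fin n)))
    (N : Marked n) (u : CG m k) (hu : Ph m p N u = 1) :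
    u ∈ Subgroup.normalClosure (perRel x p N) := by
  set NC := Subgroup.normalClosure (perRel x p N) with hNC
  have hρ : ∀ i, (rr p N i).ker ≤
      ((QuotientGroup.mk' NC).comp (peri (m := m) i)).ker := by
    intro i w hw
    rw [MonoidHom.mem_ker] at hw ⊢
    have hw' : th p N i w = 1 := (rr_eq_one p N i w).1 hw
    rw [← mk_ev_peri x, QuotientGroup.eq_one_iff] at hw'
    show (QuotientGroup.mk (peri i w) : CG m k ⧸ NC) = 1
    rw [QuotientGroup.eq_one_iff]
    exact Subgroup.subset_normalClosure ⟨i, w, hw', rfl⟩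
  let ρ : (i : Fin k) → Hn p N i →* CG m k ⧸ NC := fun i =>
    (rr p N i).liftOfSurjective (rr_surj p N i)
      ⟨(QuotientGroup.mk' NC).comp (peri i), hρ i⟩
  have hρ2 : ∀ i w, ρ i (rr p N i w) = QuotientGroup.mk (peri i w) := by
    intro i w
    exact MonoidHom.liftOfRightInverse_comp_apply _ _ _ _ _
  let Ψ : RelFree m (Hn p N) →* CG m k ⧸ NC :=
    Monoid.Coprod.lift (FreeGroup.lift fun j => QuotientGroup.mk (FreeGroup.of (Sum.inl j)))
      (Monoid.CoprodI.lift (M := fun i => ↥(Hn p N i)) ρ)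
  have hcomp : Ψ.comp (Ph m p N) = QuotientGroup.mk' NC := by
    apply FreeGroup.ext_hom
    rintro (j | ⟨i, j⟩)
    · simp [Ph, Ψ]
    · have : Ψ (incl m (Hn p N) i (rr p N i (FreeGroup.of j))) =
          ρ i (rr p N i (FreeGroup.of j)) := by
        simp [Ψ, incl]
      simp only [MonoidHom.comp_apply, Ph, FreeGroup.lift_apply_of, Sum.elim_inr]
      rw [this, hρ2]
      simp [peri]
  have h1 := DFunLike.congr_fun hcomp u
  rw [MonoidHom.comp_apply, hu, map_one] at h1
  exact (QuotientGroup.eq_one_iff u).1 h1.symm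

/-- triviality of codes, in a form which is visibly Borel -/
def Triv (x : Fin m → FreeGroup (Fin n)) (p : Fin k → List (FreeGroup (Fin n)))
    (N : Marked n) (u : CG m k) : Prop :=
  ∃ L : List (CG m k × (Fin k × FreeGroup ℕ)),
    (∀ a, a ∈ L → ev x p (peri a.2.1 a.2.2) ∈ N.1) ∧
    (L.map (fun a => a.1 * peri a.2.1 a.2.2 * a.1⁻¹)).prod = u

lemma triv_iff (x : Fin m → FreeGroup (Fin n)) (p : Fin k → List (FreeGroup (Fin n)))
    (N : Marked n) (u : CG m k) : Triv x p N u ↔ Ph m p N u = 1 := by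
  constructor
  · rintro ⟨L, hL, rfl⟩
    induction L with
    | nil => simp
    | cons a L ih =>
      rw [List.map_cons, List.prod_cons, map_mul, ih (fun b hb => hL b (by simp [hb])), mul_one]
      have h1 := hL a (by simp)
      have h2 : th p N a.2.1 a.2.2 = 1 := by
        rw [← mk_ev_peri x, QuotientGroup.eq_one_iff]; exact h1
      have h3 : rr p N a.2.1 a.2.2 = 1 := (rr_eq_one p N _ _).2 h2
      rw [map_mul, map_mul, Ph_peri, h3, map_one, map_inv]
      simp
  · intro hu
    have h := ker_Ph x p N u hu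
    unfold Subgroup.normalClosure at h
    clear hu
    induction h using Subgroup.closure_induction with
    | mem g hg =>
      rw [Group.mem_conjugatesOfSet_iff] at hg
      obtain ⟨a, ⟨i, w, h1, rfl⟩, hc⟩ := hg
      obtain ⟨c, hc⟩ := isConj_iff.1 hc
      exact ⟨[(c, (i, w))], by simpa using h1, by simpa using hc⟩
    | one => exact ⟨[], by simp, by simp⟩
    | mul a b _ _ iha ihb =>
      obtain ⟨L, h1, h2⟩ := iha
      obtain ⟨L', h1', h2'⟩ := ihb
      refine ⟨L ++ L', ?_, by rw [List.map_append, List.prod_append, h2, h2']⟩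
      intro c hc
      rcases List.mem_append.1 hc with h | h
      · exact h1 c h
      · exact h1' c h
    | inv a _ ih =>
      obtain ⟨L, h1, h2⟩ := ih
      refine ⟨(L.map (fun a => (a.1, (a.2.1, a.2.2⁻¹)))).reverse, ?_, ?_⟩
      · intro c hc
        rw [List.mem_reverse, List.mem_map] at hc
        obtain ⟨b, hb, rfl⟩ := hc
        simp only [map_inv]
        exact N.1.inv_mem (h1 b hb)
      · rw [← h2, List.prod_inv_reverse, List.map_reverse, List.map_map, List.map_map]
        congr 2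
        apply List.map_congr_left
        intro b _
        simp [mul_assoc]

/-- codes of letters -/
def cod : (Fin m × Bool) ⊕ (Fin k × FreeGroup ℕ) → CG m k
  | Sum.inl (j, true) => FreeGroup.of (Sum.inl j)
  | Sum.inl (j, false) => (FreeGroup.of (Sum.inl j))⁻¹
  | Sum.inr (i, w) => peri i w

lemma cod_mem (p : Fin k → List (FreeGroup (Fin n))) (N : Marked n)
    (a : (Fin m × Bool) ⊕ (Fin k × FreeGroup ℕ)) : Ph m p N (cod a) ∈ letters m (Hn p N) := by
  rcases a with ⟨j, b⟩ | ⟨i, w⟩
  · cases b with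
    | true => exact Or.inl ⟨j, by simp [cod, Ph]⟩
    | false => exact Or.inr (Or.inl ⟨j, by simp [cod, Ph]⟩)
  · exact Or.inr (Or.inr ⟨i, rr p N i w, Ph_peri p N i w⟩)

lemma exists_cod (p : Fin k → List (FreeGroup (Fin n))) (N : Marked n)
    (f : RelFree m (Hn p N)) (hf : f ∈ letters m (Hn p N)) :
    ∃ a : (Fin m × Bool) ⊕ (Fin k × FreeGroup ℕ), Ph m p N (cod a) = f := by
  rcases hf with ⟨j, rfl⟩ | ⟨j, rfl⟩ | ⟨i, h, rfl⟩
  · exact ⟨Sum.inl (j, true), by simp [cod, Ph]⟩
  · exact ⟨Sum.inl (j, false), by simp [cod, Ph]⟩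
  · obtain ⟨w, rfl⟩ := rr_surj p N i h
    exact ⟨Sum.inr (i, w), Ph_peri p N i w⟩

lemma Ph_surj (p : Fin k → List (FreeGroup (Fin n))) (N : Marked n) :
    Function.Surjective (Ph m p N) := by
  intro f
  obtain ⟨W, hW, rfl⟩ := exists_word (Hn p N) f
  induction W with
  | nil => exact ⟨1, by simp⟩
  | cons a W ih =>
    obtain ⟨u, hu⟩ := ih (fun g hg => hW g (by simp [hg]))
    obtain ⟨b, hb⟩ := exists_cod p N a (hW a (by simp))
    exact ⟨cod b * u, by rw [map_mul, hu, hb, List.prod_cons]⟩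

/-- the coded form of relative hyperbolicity -/
def Coded (x : Fin m → FreeGroup (Fin n)) (p : Fin k → List (FreeGroup (Fin n)))
    (R : List (CG m k)) (C : ℕ) (N : Marked n) : Prop :=
  (∀ g : FreeGroup (Fin n), ∃ u : CG m k, (ev x p u)⁻¹ * g ∈ N.1) ∧
  (∀ r, r ∈ R → ev x p r ∈ N.1) ∧
  (∀ l : List ((Fin m × Bool) ⊕ (Fin k × FreeGroup ℕ)), ev x p (l.map cod).prod ∈ N.1 →
    ∃ P : List (CG m k × CG m k), P.length ≤ C * l.length ∧
      (∀ a, a ∈ P → (a.2 ∈ R ∨ a.2⁻¹ ∈ R)) ∧
      Triv x p N ((P.map (fun a => a.1 * a.2 * a.1⁻¹)).prod⁻¹ * (l.map cod).prod))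

lemma ev_mem_iff (x : Fin m → FreeGroup (Fin n)) (p : Fin k → List (FreeGroup (Fin n)))
    (N : Marked n) (u : CG m k) :
    ev x p u ∈ N.1 ↔ toGroup (xN x N) (Hn p N) (Ph m p N u) = 1 := by
  rw [toGroup_Ph, QuotientGroup.eq_one_iff]

lemma coded_iff (p : Fin k → List (FreeGroup (Fin n))) (N : Marked n) :
    HypRelTo (Hn p N) ↔ ∃ (m : ℕ) (x : Fin m → FreeGroup (Fin n)) (R : List (CG m k)) (C : ℕ),
      Coded x p R C N := by
  constructor
  · rintro ⟨m, x', R', C, h1, h2, h3, h4⟩
    choose x hx using fun j => QuotientGroup.mk_surjective (x' j)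
    have hx' : x' = xN x N := by
      funext j; exact (hx j).symm
    subst hx'
    obtain ⟨R, hR⟩ : ∃ R : List (CG m k), ∀ f, f ∈ R' ↔ ∃ r ∈ R, Ph m p N r = f := by
      refine ⟨h2.toFinset.toList.map (Function.surjInv (Ph_surj p N)), ?_⟩
      intro f
      constructor
      · intro hf
        refine ⟨Function.surjInv (Ph_surj p N) f, ?_, Function.surjInv_eq _ _⟩
        rw [List.mem_map]
        exact ⟨f, by simpa using hf, rfl⟩
      · rintro ⟨r, hr, rfl⟩
        rw [List.mem_map] at hr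
        obtain ⟨f, hf, rfl⟩ := hr
        have e := Function.surjInv_eq (Ph_surj (m := m) p N) f
        rw [e]
        simpa using hf
    refine ⟨m, x, R, C, ?_, ?_, ?_⟩
    · intro g
      obtain ⟨f, hf⟩ := h1 (QuotientGroup.mk g)
      obtain ⟨u, rfl⟩ := Ph_surj p N f
      refine ⟨u, ?_⟩
      rw [toGroup_Ph] at hf
      exact QuotientGroup.eq.1 hf
    · intro r hr
      rw [ev_mem_iff]
      exact h3 _ ((hR _).2 ⟨r, hr, rfl⟩)
    · intro l hl
      rw [ev_mem_iff] at hl
      have e1 : Ph m p N (l.map cod).prod = (l.map (fun a => Ph m p N (cod a))).prod := by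
        rw [map_list_prod, List.map_map]; rfl
      rw [e1] at hl
      obtain ⟨P', hP1, hP2, hP3⟩ := h4 (l.map (fun a => Ph m p N (cod a))) (by
        intro f hf
        rw [List.mem_map] at hf
        obtain ⟨a, -, rfl⟩ := hf
        exact cod_mem p N a) hl
      rw [List.length_map] at hP1
      -- lift `P'`
      have key : ∀ P' : List (RelFree m (Hn p N)),
          (∀ q ∈ P', ∃ g r, (r ∈ R' ∨ r⁻¹ ∈ R') ∧ q = g * r * g⁻¹) →
          ∃ P : List (CG m k × CG m k), P.length = P'.length ∧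
            (∀ a, a ∈ P → (a.2 ∈ R ∨ a.2⁻¹ ∈ R)) ∧
            Ph m p N (P.map (fun a => a.1 * a.2 * a.1⁻¹)).prod = P'.prod := by
        intro P'
        induction P' with
        | nil => intro _; exact ⟨[], rfl, by simp, by simp⟩
        | cons q P' ih =>
          intro h
          obtain ⟨P, q1, q2, q3⟩ := ih (fun b hb => h b (by simp [hb]))
          obtain ⟨g, r, hr, rfl⟩ := h q (by simp)
          obtain ⟨g0, rfl⟩ := Ph_surj p N g
          have : ∃ r0 : CG m k, (r0 ∈ R ∨ r0⁻¹ ∈ R) ∧ Ph m p N r0 = r := by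
            rcases hr with hr | hr
            · obtain ⟨r0, h5, h6⟩ := (hR _).1 hr
              exact ⟨r0, Or.inl h5, h6⟩
            · obtain ⟨r0, h5, h6⟩ := (hR _).1 hr
              exact ⟨r0⁻¹, Or.inr (by rwa [inv_inv]), by rw [map_inv, h6, inv_inv]⟩
          obtain ⟨r0, h5, rfl⟩ := this
          refine ⟨(g0, r0) :: P, by simp [q1], ?_, ?_⟩
          · intro a ha
            rcases List.mem_cons.1 ha with rfl | ha
            · exact h5
            · exact q2 a ha
          · rw [List.map_cons, List.prod_cons, map_mul, q3, List.prod_cons]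
            simp
      obtain ⟨P, q1, q2, q3⟩ := key P' hP2
      refine ⟨P, by rw [q1]; exact hP1, q2, ?_⟩
      rw [triv_iff, map_mul, map_inv, q3, hP3, e1, inv_mul_cancel]
  · rintro ⟨m, x, R, C, h1, h2, h3⟩
    refine ⟨m, xN x N, {f | ∃ r ∈ R, Ph m p N r = f}, C, ?_, ?_, ?_, ?_⟩
    · intro g
      obtain ⟨g, rfl⟩ := QuotientGroup.mk_surjective g
      obtain ⟨u, hu⟩ := h1 g
      refine ⟨Ph m p N u, ?_⟩
      rw [toGroup_Ph]
      exact QuotientGroup.eq.2 hu
    · have : {f | ∃ r ∈ R, Ph m p N r = f} = (fun r => Ph m p N r) '' {r | r ∈ R} := by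
        ext f; simp
      rw [this]
      exact (List.finite_toSet R).image _
    · rintro _ ⟨r, hr, rfl⟩
      rw [← ev_mem_iff]
      exact h2 r hr
    · intro W hW hW1
      have key : ∀ W : List (RelFree m (Hn p N)), (∀ f ∈ W, f ∈ letters m (Hn p N)) →
          ∃ l : List ((Fin m × Bool) ⊕ (Fin k × FreeGroup ℕ)),
            l.length = W.length ∧ Ph m p N (l.map cod).prod = W.prod := by
        intro W
        induction W with
        | nil => intro _; exact ⟨[], rfl, by simp⟩
        | cons f W ih =>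
          intro h
          obtain ⟨l, q1, q2⟩ := ih (fun b hb => h b (by simp [hb]))
          obtain ⟨a, ha⟩ := exists_cod p N f (h f (by simp))
          refine ⟨a :: l, by simp [q1], ?_⟩
          rw [List.map_cons, List.prod_cons, map_mul, q2, ha, List.prod_cons]
      obtain ⟨l, q1, q2⟩ := key W hW
      have h4 : ev x p (l.map cod).prod ∈ N.1 := by
        rw [ev_mem_iff, q2]; exact hW1
      obtain ⟨P, hP1, hP2, hP3⟩ := h3 l h4
      rw [triv_iff, map_mul, map_inv, inv_mul_eq_one] at hP3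
      refine ⟨P.map (fun a => Ph m p N (a.1 * a.2 * a.1⁻¹)), ?_, ?_, ?_⟩
      · rw [List.length_map, ← q1]; exact hP1
      · intro f hf
        rw [List.mem_map] at hf
        obtain ⟨a, ha, rfl⟩ := hf
        refine ⟨Ph m p N a.1, Ph m p N a.2, ?_, by simp⟩
        rcases hP2 a ha with h | h
        · exact Or.inl ⟨_, h, rfl⟩
        · exact Or.inr ⟨_, h, by simp⟩
      · rw [← q2, ← hP3, map_list_prod, List.map_map]
        rfl

lemma exists_code {N : Marked n} (H : Fin k → Subgroup (FreeGroup (Fin n) ⧸ N.1))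
    (hH : ∀ i, (H i).FG) : ∃ p : Fin k → List (FreeGroup (Fin n)), H = Hn p N := by
  choose S hS using hH
  let inv : FreeGroup (Fin n) ⧸ N.1 → FreeGroup (Fin n) :=
    Function.surjInv QuotientGroup.mk_surjective
  have hinv : ∀ g, (QuotientGroup.mk (inv g) : FreeGroup (Fin n) ⧸ N.1) = g :=
    Function.surjInv_eq _
  refine ⟨fun i => (S i).toList.map inv, ?_⟩
  funext i
  unfold Hn th
  rw [FreeGroup.range_lift_eq_closure, ← hS i]
  apply le_antisymm
  · rw [Subgroup.closure_le]
    intro g hg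
    apply Subgroup.subset_closure
    have hg' : g ∈ (S i).toList := by simpa using hg
    have : inv g ∈ (S i).toList.map inv := List.mem_map_of_mem hg'
    obtain ⟨j, hj, hj2⟩ := List.getElem_of_mem this
    refine ⟨j, ?_⟩
    show (QuotientGroup.mk (((S i).toList.map inv).getD j 1) : FreeGroup (Fin n) ⧸ N.1) = g
    rw [List.getD_eq_getElem _ _ hj, hj2, hinv]
  · rw [Subgroup.closure_le]
    rintro _ ⟨j, rfl⟩
    show (QuotientGroup.mk (((S i).toList.map inv).getD j 1) : FreeGroup (Fin n) ⧸ N.1) ∈ _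
    by_cases hj : j < ((S i).toList.map inv).length
    · rw [List.getD_eq_getElem _ _ hj, List.getElem_map, hinv]
      apply Subgroup.subset_closure
      exact Finset.mem_toList.1 (List.getElem_mem (l := (S i).toList)
        (by simpa using hj : j < (S i).toList.length))
    · rw [List.getD_eq_default _ _ (by omega)]
      exact Subgroup.one_mem _

/-- the coded form of virtual cyclicity -/
lemma vc_iff (N : Marked n) : VirtuallyCyclic (FreeGroup (Fin n) ⧸ N.1) ↔
    ∃ (g : FreeGroup (Fin n)) (T : List (FreeGroup (Fin n))), ∀ w : FreeGroup (Fin n),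
      ∃ (t : FreeGroup (Fin n)) (a : ℤ), t ∈ T ∧ (t * g ^ a)⁻¹ * w ∈ N.1 := by
  constructor
  · rintro ⟨C, hC, hC2⟩
    obtain ⟨g, hg⟩ := C.isCyclic_iff_exists_zpowers_eq_top.1 hC
    obtain ⟨g, rfl⟩ := QuotientGroup.mk_surjective g
    have hfin : Finite ((FreeGroup (Fin n) ⧸ N.1) ⧸ C) := Subgroup.finite_quotient_of_finiteIndex
    have := Fintype.ofFinite ((FreeGroup (Fin n) ⧸ N.1) ⧸ C)
    let s : (FreeGroup (Fin n) ⧸ N.1) ⧸ C → FreeGroup (Fin n) := fun c => c.out.out
    refine ⟨g, Finset.univ.toList.map s, ?_⟩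
    intro w
    let c : (FreeGroup (Fin n) ⧸ N.1) ⧸ C :=
      QuotientGroup.mk (QuotientGroup.mk w : FreeGroup (Fin n) ⧸ N.1)
    have h1 : (QuotientGroup.mk (s c) : FreeGroup (Fin n) ⧸ N.1) = c.out :=
      QuotientGroup.out_eq' _
    have h2 : (c.out)⁻¹ * (QuotientGroup.mk w : FreeGroup (Fin n) ⧸ N.1) ∈ C := by
      rw [← QuotientGroup.eq]
      exact QuotientGroup.out_eq' _
    have h2' : (c.out)⁻¹ * (QuotientGroup.mk w : FreeGroup (Fin n) ⧸ N.1) ∈
        Subgroup.zpowers (QuotientGroup.mk g : FreeGroup (Fin n) ⧸ N.1) := by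
      rw [hg]; exact h2
    rw [Subgroup.mem_zpowers_iff] at h2'
    obtain ⟨a, ha⟩ := h2'
    refine ⟨s c, a, by simp, ?_⟩
    rw [← QuotientGroup.eq]
    have h3 : (QuotientGroup.mk (s c * g ^ a) : FreeGroup (Fin n) ⧸ N.1) =
        QuotientGroup.mk (s c) * (QuotientGroup.mk g) ^ a := rfl
    rw [h3, h1, ha]; group
  · rintro ⟨g, T, h⟩
    refine ⟨Subgroup.zpowers (QuotientGroup.mk g), inferInstance, ?_⟩
    have hfin : Finite ((FreeGroup (Fin n) ⧸ N.1) ⧸
        Subgroup.zpowers (QuotientGroup.mk g : FreeGroup (Fin n) ⧸ N.1)) := by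
      let f : {t // t ∈ T} → (FreeGroup (Fin n) ⧸ N.1) ⧸
        Subgroup.zpowers (QuotientGroup.mk g : FreeGroup (Fin n) ⧸ N.1) := fun t =>
          QuotientGroup.mk (QuotientGroup.mk t.1 : FreeGroup (Fin n) ⧸ N.1)
      have hf : Function.Surjective f := by
        intro c
        obtain ⟨w, rfl⟩ := QuotientGroup.mk_surjective c
        obtain ⟨w, rfl⟩ := QuotientGroup.mk_surjective w
        obtain ⟨t, a, ht, h1⟩ := h w
        refine ⟨⟨t, ht⟩, ?_⟩
        show (QuotientGroup.mk (QuotientGroup.mk t : FreeGroup (Fin n) ⧸ N.1) :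
          (FreeGroup (Fin n) ⧸ N.1) ⧸ Subgroup.zpowers
            (QuotientGroup.mk g : FreeGroup (Fin n) ⧸ N.1)) = _
        rw [QuotientGroup.eq, Subgroup.mem_zpowers_iff]
        rw [← QuotientGroup.eq] at h1
        have h3 : (QuotientGroup.mk (t * g ^ a) : FreeGroup (Fin n) ⧸ N.1) =
          QuotientGroup.mk t * (QuotientGroup.mk g) ^ a := rfl
        rw [h3] at h1
        exact ⟨a, by rw [← h1]; group⟩
      have : Finite {t // t ∈ T} := (List.finite_toSet T).to_subtype
      exact Finite.of_surjective f hf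
    exact Subgroup.finiteIndex_of_finite_quotient

end coding

end Pool.Agent.H67R3.RH
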