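import Pool.Agent.H67R3.RH2

set_option autoImplicit false

namespace Pool.Agent.H67R3.RH

open RHDefs

section
variable (n : ℕ)

noncomputable local instance instMS : MeasurableSpace (Marked n) := borel _

local instance instBS : BorelSpace (Marked n) := ⟨rfl⟩

variable {n}

@[fun_prop]
lemma meas_mem (w : FreeGroup (Fin n)) : Measurable (fun N : Marked n => w ∈ N.1) := by
  classical
  rw [← measurableSet_setOfPred]
  apply IsOpen.measurableSet
  rw [isOpen_induced_iff]
  refine ⟨(fun f : FreeGroup (Fin n) → Bool => f w) ⁻¹' {true}, ?_, ?_⟩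
  · exact (continuous_apply w).isOpen_preimage _ (isOpen_discrete _)
  · ext N
    simp

lemma meas_triv {m k : ℕ} (x : Fin m → FreeGroup (Fin n)) (p : Fin k → List (FreeGroup (Fin n)))
    (u : CG m k) : Measurable (fun N : Marked n => Triv x p N u) := by
  unfold Triv
  fun_prop

lemma meas_coded {m k : ℕ} (x : Fin m → FreeGroup (Fin n))
    (p : Fin k → List (FreeGroup (Fin n))) (R : List (CG m k)) (C : ℕ) :
    Measurable (fun N : Marked n => Coded x p R C N) := by
  unfold Coded
  have h := fun u : CG m k => meas_triv x p u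
  fun_prop

lemma ne_top_iff {k : ℕ} (p : Fin k → List (FreeGroup (Fin n))) (N : Marked n) (i : Fin k) :
    Hn p N i ≠ ⊤ ↔ ∃ g : FreeGroup (Fin n), ∀ w : FreeGroup ℕ,
      ¬ ((FreeGroup.lift (fun j => (p i).getD j 1) w)⁻¹ * g ∈ N.1) := by
  have hth : ∀ w, th p N i w =
      QuotientGroup.mk (FreeGroup.lift (fun j => (p i).getD j 1) w) := by
    intro w
    have : th p N i =
      (QuotientGroup.mk' N.1).comp (FreeGroup.lift (fun j => (p i).getD j 1)) := by
      apply FreeGroup.ext_hom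
      intro j
      simp [th]
    exact DFunLike.congr_fun this w
  rw [Ne, Subgroup.eq_top_iff']
  rw [not_forall]
  constructor
  · rintro ⟨g, hg⟩
    obtain ⟨g, rfl⟩ := QuotientGroup.mk_surjective g
    refine ⟨g, fun w hw => hg ⟨w, ?_⟩⟩
    rw [hth]
    exact QuotientGroup.eq.2 hw
  · rintro ⟨g, hg⟩
    refine ⟨QuotientGroup.mk g, ?_⟩
    rintro ⟨w, hw⟩
    rw [hth] at hw
    exact hg w (QuotientGroup.eq.1 hw)

lemma main_iff (N : Marked n) : NonElemRelHyp (FreeGroup (Fin n) ⧸ N.1) ↔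
    ¬ (∃ (g : FreeGroup (Fin n)) (T : List (FreeGroup (Fin n))), ∀ w : FreeGroup (Fin n),
      ∃ (t : FreeGroup (Fin n)) (a : ℤ), t ∈ T ∧ (t * g ^ a)⁻¹ * w ∈ N.1) ∧
    ∃ (k : ℕ) (p : Fin k → List (FreeGroup (Fin n))),
      (∀ i, ∃ g : FreeGroup (Fin n), ∀ w : FreeGroup ℕ,
        ¬ ((FreeGroup.lift (fun j => (p i).getD j 1) w)⁻¹ * g ∈ N.1)) ∧
      ∃ (m : ℕ) (x : Fin m → FreeGroup (Fin n)) (R : List (CG m k)) (C : ℕ),
        Coded x p R C N := by
  unfold NonElemRelHyp
  rw [vc_iff]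
  apply and_congr_right
  intro _
  apply exists_congr
  intro k
  constructor
  · rintro ⟨H, h1, h2⟩
    have : Group.FG (FreeGroup (Fin n) ⧸ N.1) := QuotientGroup.fg N.1
    obtain ⟨p, rfl⟩ := exists_code H (fun i => peripheral_fg H h2 i)
    exact ⟨p, fun i => (ne_top_iff p N i).1 (h1 i), (coded_iff p N).1 h2⟩
  · rintro ⟨p, h1, h2⟩
    exact ⟨Hn p N, fun i => (ne_top_iff p N i).2 (h1 i), (coded_iff p N).2 h2⟩

lemma meas_main : Measurable (fun N : Marked n => NonElemRelHyp (FreeGroup (Fin n) ⧸ N.1)) := by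
  simp only [main_iff]
  have h := fun (m k : ℕ) (x : Fin m → FreeGroup (Fin n)) (p : Fin k → List (FreeGroup (Fin n)))
    (R : List (CG m k)) (C : ℕ) => meas_coded x p R C
  fun_prop

end

lemma borel_image {α β : Type} [TopologicalSpace α] [TopologicalSpace β] {f : α → β}
    (hf : Topology.IsOpenEmbedding f) {s : Set α} (hs : @MeasurableSet α (borel α) s) :
    @MeasurableSet β (borel β) (f '' s) := by
  borelize α β
  exact hf.measurableEmbedding.measurableSet_image.2 hs

theorem borel_RH : @MeasurableSet MarkedGroups (borel MarkedGroups) RHDefs.RH := by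
  have h1 : RHDefs.RH = ⋃ n : ℕ+, Sigma.mk n '' {N : Marked n |
      NonElemRelHyp (FreeGroup (Fin n) ⧸ N.1)} := by
    ext ⟨n, N⟩
    simp only [Set.mem_iUnion, Set.mem_image]
    constructor
    · intro h
      exact ⟨n, N, h, rfl⟩
    · rintro ⟨n', N', h, heq⟩
      obtain ⟨rfl, h2⟩ := Sigma.mk.inj heq
      rw [← eq_of_heq h2]
      exact h
  rw [h1]
  apply @MeasurableSet.iUnion _ _ (borel MarkedGroups)
  intro n
  exact borel_image Topology.IsOpenEmbedding.sigmaMk
    ((@measurableSet_setOfPred _ (borel _) _).2 meas_main)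

end Pool.Agent.H67R3.RH
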