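import Mathlib

set_option autoImplicit false

namespace Pool.Agent.H67R3.RHDefs

/-- The set `𝒢_n` of normal subgroups of the free group of rank `n` (equivalently, of `n`-generated
marked groups). -/
def Marked (n : ℕ) : Type := {N : Subgroup (FreeGroup (Fin n)) // N.Normal}

open Classical in
/-- The topology on `𝒢_n` induced from the product topology on `2 ^ F_n`. -/
noncomputable instance (n : ℕ) : TopologicalSpace (Marked n) :=
  TopologicalSpace.induced (fun N => (fun w : FreeGroup (Fin n) => decide (w ∈ N.1)))
    (inferInstance : TopologicalSpace (FreeGroup (Fin n) → Bool))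

instance (n : ℕ) (N : Marked n) : N.1.Normal := N.2

/-- The space `𝒢` of finitely generated marked groups, the topological disjoint union of the
spaces `𝒢_n`, `n ≥ 1`. -/
abbrev MarkedGroups : Type := Σ n : ℕ+, Marked n

/-- The group `F_n / N` of the marked group `(n, N)`. -/
abbrev groupOf (x : MarkedGroups) : Type := FreeGroup (Fin x.1) ⧸ x.2.1

section relhyp
variable {G : Type} [Group G]

/-- The free product of a free group of rank `m` and of the subgroups `H i`, `i < k`. -/
abbrev RelFree (m : ℕ) {k : ℕ} (H : Fin k → Subgroup G) : Type :=
  Monoid.Coprod (FreeGroup (Fin m)) (Monoid.CoprodI fun i => ↥(H i))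

/-- The homomorphism from the free product to `G` sending the free generators to `x` and equal to
the inclusion on each `H i`. -/
noncomputable def toGroup {m k : ℕ} (x : Fin m → G) (H : Fin k → Subgroup G) :
    RelFree m H →* G :=
  Monoid.Coprod.lift (FreeGroup.lift x)
    (Monoid.CoprodI.lift (M := fun i => ↥(H i)) fun i => (H i).subtype)

/-- The inclusion of `H i` in the free product. -/
noncomputable def incl (m : ℕ) {k : ℕ} (H : Fin k → Subgroup G) (i : Fin k) :
    H i →* RelFree m H :=
  Monoid.Coprod.inr.comp (Monoid.CoprodI.of (M := fun i => ↥(H i)) (i := i))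

/-- The letters: the free generators, their inverses, and the elements of the `H i`. -/
def letters (m : ℕ) {k : ℕ} (H : Fin k → Subgroup G) : Set (RelFree m H) :=
  {f | (∃ j : Fin m, f = Monoid.Coprod.inl (FreeGroup.of j)) ∨
    (∃ j : Fin m, f = (Monoid.Coprod.inl (FreeGroup.of j))⁻¹) ∨
    ∃ (i : Fin k) (h : H i), f = incl m H i h}

/-- `G` is hyperbolic relative to the finite collection of subgroups `H i`, `i < k`, in the sense of
Osin: for some finite family `x` of elements of `G` which together with the `H i` generates `G`, the
kernel of the natural map from the free product `F(x) * H 0 * ... * H (k-1)` to `G` contains a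
finite set `R` such that for some constant `C` every word of length `l` in the letters which
represents `1` in `G` is in the free product a product of at most `C * l` conjugates of elements
of `R` and their inverses (linear relative Dehn function). -/
def HypRelTo {k : ℕ} (H : Fin k → Subgroup G) : Prop :=
  ∃ (m : ℕ) (x : Fin m → G) (R : Set (RelFree m H)) (C : ℕ),
    Function.Surjective (toGroup x H) ∧ R.Finite ∧ (∀ r ∈ R, toGroup x H r = 1) ∧
    ∀ W : List (RelFree m H), (∀ f ∈ W, f ∈ letters m H) → toGroup x H W.prod = 1 →
      ∃ P : List (RelFree m H), P.length ≤ C * W.length ∧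
        (∀ p ∈ P, ∃ g r, (r ∈ R ∨ r⁻¹ ∈ R) ∧ p = g * r * g⁻¹) ∧ P.prod = W.prod

end relhyp

/-- Virtually cyclic groups. -/
def VirtuallyCyclic (G : Type) [Group G] : Prop :=
  ∃ C : Subgroup G, IsCyclic C ∧ C.FiniteIndex

/-- Non-elementary relatively hyperbolic groups: not virtually cyclic, and hyperbolic relative to
some finite collection of proper subgroups. -/
def NonElemRelHyp (G : Type) [Group G] : Prop :=
  ¬ VirtuallyCyclic G ∧ ∃ (k : ℕ) (H : Fin k → Subgroup G), (∀ i, H i ≠ ⊤) ∧ HypRelTo H

/-- The set `ℛℋ` of marked groups which are non-elementary relatively hyperbolic. -/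
def RH : Set MarkedGroups := {x | NonElemRelHyp (groupOf x)}

end Pool.Agent.H67R3.RHDefs
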